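import Pool.Agent.Lib.MP_1aae89_al.W3.SpecC

/-!
# Groups `X = U N_X(P) U` (split BN-pairs): definitions (MP_1aae89_al, Q1)
-/

set_option autoImplicit false

namespace Pool.Agent.Lib.MP_1aae89_al

/-- `P` normalizes the subgroup `U`, whose order is prime to `p`, no element of `U` except `1` commutes
with all elements of `P`, and `X = U N_X(P) U` -/
structure SplitDec (p : ℕ) {X : Type} [Group X] (P U : Subgroup X) : Prop where
  nrm : ∀ x ∈ P, ∀ u ∈ U, x * u * x⁻¹ ∈ U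
  cop : ¬ p ∣ Nat.card U
  fix : ∀ u ∈ U, (∀ x ∈ P, x * u = u * x) → u = 1
  dec : ∀ g : X, ∃ u ∈ U, ∃ n : X, (∀ x : X, x ∈ P ↔ n * x * n⁻¹ ∈ P) ∧ ∃ v ∈ U, g = u * n * v

end Pool.Agent.Lib.MP_1aae89_al
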