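import Pool.Agent.Lib.MP_1aae89_al.HC.Spec

/-!
# RAD: the radical of `p` in the ring of algebraic integers
-/

set_option autoImplicit false

namespace Pool.Agent.Lib.MP_1aae89_al.HC

open Pool.Agent.Lib.MP_1aae89_al

namespace RAD_

/-- the ring of algebraic integers -/
abbrev A : Subalgebra ℤ ℂ := integralClosure ℤ ℂ

/-- the radical of `p` -/
def J (p : ℕ) : Ideal A := (Ideal.span {(p : A)}).radical

theorem iff (p : ℕ) (x : ℂ) : RadP p x ↔ ∃ h : IsIntegral ℤ x, (⟨x, h⟩ : A) ∈ J p := by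
  unfold RadP J
  constructor
  · rintro ⟨h, k, w, hw, e⟩
    refine ⟨h, k, ?_⟩
    rw [Ideal.mem_span_singleton]
    refine ⟨⟨w, hw⟩, Subtype.ext ?_⟩
    simpa using e
  · rintro ⟨h, k, hk⟩
    rw [Ideal.mem_span_singleton] at hk
    obtain ⟨w, hw⟩ := hk
    refine ⟨h, k, w, w.2, ?_⟩
    have := congrArg Subtype.val hw
    simpa using this

theorem add (p : ℕ) (x y : ℂ) (hx : RadP p x) (hy : RadP p y) : RadP p (x + y) := by
  rw [iff] at *
  obtain ⟨h1, h2⟩ := hx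
  obtain ⟨h3, h4⟩ := hy
  exact ⟨h1.add h3, (J p).add_mem h2 h4⟩

theorem mul (p : ℕ) (x y : ℂ) (hx : IsIntegral ℤ x) (hy : RadP p y) : RadP p (x * y) := by
  rw [iff] at *
  obtain ⟨h3, h4⟩ := hy
  exact ⟨hx.mul h3, (J p).mul_mem_left ⟨x, hx⟩ h4⟩

theorem nat_int (p : ℕ) : IsIntegral ℤ (p : ℂ) := by
  have := isIntegral_algebraMap (R := ℤ) (A := ℂ) (x := (p : ℤ))
  simpa using this

theorem pmul (p : ℕ) (x : ℂ) (hx : IsIntegral ℤ x) : RadP p (p * x) :=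
  ⟨(nat_int p).mul hx, 1, x, hx, by rw [pow_one]⟩

theorem dvd {p : ℕ} (hp : p.Prime) (m : ℤ) (h : RadP p m) : (p : ℤ) ∣ m := by
  obtain ⟨-, k, w, hw, e⟩ := h
  have hp0 : (p : ℂ) ≠ 0 := by exact_mod_cast hp.ne_zero
  have hp0' : (p : ℚ) ≠ 0 := by exact_mod_cast hp.ne_zero
  have h1 : w = algebraMap ℚ ℂ ((m : ℚ) ^ k / p) := by
    rw [map_div₀, map_pow, eq_div_iff (by simpa using hp0)]
    simp only [map_intCast, map_natCast]
    rw [mul_comm]
    exact e.symm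
  rw [h1, isIntegral_algebraMap_iff (algebraMap ℚ ℂ).injective] at hw
  obtain ⟨z, hz⟩ := IsIntegrallyClosed.isIntegral_iff.1 hw
  have h2 : m ^ k = p * z := by
    rw [eq_div_iff hp0'] at hz
    have h3 : ((z * p : ℤ) : ℚ) = ((m ^ k : ℤ) : ℚ) := by
      push_cast
      simpa using hz
    have := Int.cast_injective (α := ℚ) h3
    rw [← this, mul_comm]
  exact (Nat.prime_iff_prime_int.1 hp).dvd_of_dvd_pow ⟨z, h2⟩

theorem zeta {p : ℕ} (hp : p.Prime) (ζ : ℂ) (j : ℕ) (h : ζ ^ p ^ j = 1) : RadP p (ζ - 1) := by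
  have hpos : 0 < p ^ j := pow_pos hp.pos j
  have hζ : IsIntegral ℤ ζ := by
    refine IsIntegral.of_pow hpos ?_
    rw [h]
    exact isIntegral_one
  have hm : IsIntegral ℤ (-1 : ℂ) := isIntegral_one.neg
  have hs : IsIntegral ℤ (ζ - 1) := hζ.sub isIntegral_one
  obtain ⟨r, hr⟩ := exists_add_pow_prime_pow_eq hp (⟨ζ, hζ⟩ : A) (⟨-1, hm⟩ : A) j
  have h1 := congrArg Subtype.val hr
  have h2 : (ζ - 1) ^ p ^ j = 1 + (-1) ^ p ^ j + p * (-ζ * r) := by
    have h3 : (ζ + -1) ^ p ^ j = ζ ^ p ^ j + (-1) ^ p ^ j + p * ζ * (-1) * (r : ℂ) := by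
      simpa using h1
    rw [← sub_eq_add_neg, h] at h3
    rw [h3]
    ring
  have hr2 : IsIntegral ℤ (-ζ * (r : ℂ)) := hζ.neg.mul r.2
  rcases Nat.even_or_odd (p ^ j) with he | ho
  · rcases Nat.eq_zero_or_pos j with hj | hj
    · rw [hj, pow_zero] at he
      exact absurd he (by decide)
    · have hp2 : p = 2 := by
        have : Even p := (Nat.even_pow.1 he).1
        exact (Nat.Prime.even_iff hp).1 this
      refine ⟨hs, p ^ j, 1 + -ζ * r, isIntegral_one.add hr2, ?_⟩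
      rw [h2, he.neg_one_pow, hp2]
      push_cast
      ring
  · refine ⟨hs, p ^ j, -ζ * r, hr2, ?_⟩
    rw [h2, ho.neg_one_pow]
    ring

end RAD_

/-- RAD -/
theorem specRAD : SpecRAD := fun p hp =>
  ⟨RAD_.add p, RAD_.mul p, RAD_.pmul p, RAD_.dvd hp, RAD_.zeta hp⟩

end Pool.Agent.Lib.MP_1aae89_al.HC
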