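import Pool.Agent.Lib.MP_1aae89_al.HC.Defs

/-!
# Groups `X = U N_X(P) U`: specifications (MP_1aae89_al, Q1)

THEOREM. If `X` is a finite group with a Sylow `p`-subgroup `P` and a subgroup `U` as in `SplitDec`, then
`IC p b X` for all `b ≥ 2`; so Q1 holds for `M = X`. Example: `X = GL_n(q)`, `p ∣ q - 1`, `p > n`.
PROOF. Let `χ = tr r` be irreducible, `s = K⁻¹ ⊗ r^σ` (`σ ξ = ξ^(1 + s0 q)`), with characters `χ ≠ χ'`. For
`η ∈ Lin P` let `E_η = |P|⁻¹ ∑_{x ∈ P} η(x)⁻¹ r(x)`, `N = ∑_{u ∈ U} r(u)`. (1) PFX: `∑_{η^q = K} tr (N E_η) ≡ dl`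
modulo `p`. So if `p ∤ dl` then `p ∤ tr (N E_η)` for some `η` with `η^q = K` on `P`. (2) `a_g = tr (r(g) N E_η)` is an
algebraic integer for all `g`, because `X = U N_X(P) U` (AGI). (3) Schur relations: `∑_g a_g a_{g⁻¹} =
(|X|/n) |U| tr (N E_η)` and `∑_g K(g)⁻¹ σ(a_g) a_{g⁻¹} = 0`. The difference of the left sides is `|P|` times an
element of the radical of `p` in the ring of algebraic integers (GCO). So `p ∣ |X:P| |U| tr (N E_η)`, a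
contradiction.
-/

set_option autoImplicit false

namespace Pool.Agent.Lib.MP_1aae89_al.HC

open Pool.Agent.Lib.MP_1aae89_al Pool.Agent.Lib.MP_1aae89_al.BF Pool.Agent.Lib.MP_1aae89_al.W3 Finset
open Pool.Agent.Lib.MP1aae89 (Pex)

/-- `x` is in the radical of `p` in the ring of algebraic integers -/
def RadP (p : ℕ) (x : ℂ) : Prop :=
  IsIntegral ℤ x ∧ ∃ (k : ℕ) (w : ℂ), IsIntegral ℤ w ∧ x ^ k = p * w

/-- `∑_{u ∈ U} r(u)` -/
noncomputable def NU {X : Type} [Group X] [Fintype X] {n : ℕ} (r : X →* Matrix (Fin n) (Fin n) ℂ)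
    (U : Subgroup X) : Matrix (Fin n) (Fin n) ℂ :=
  open Classical in ∑ u : U, r u

/-- `|P|⁻¹ ∑_{x ∈ P} η(x)⁻¹ r(x)` -/
noncomputable def EE {X : Type} [Group X] [Fintype X] {n : ℕ} (r : X →* Matrix (Fin n) (Fin n) ℂ)
    (P : Subgroup X) (η : Lin P) : Matrix (Fin n) (Fin n) ℂ :=
  open Classical in (Nat.card P : ℂ)⁻¹ • ∑ x : P, (((η x)⁻¹ : ℂˣ) : ℂ) • r x

/-- TRI. Integrality of traces on invariant subspaces.
PROOF. `E = ∑ a_x r(x)` is in the subring `∑ ℤ r(x)` of the matrices, which is a finitely generated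
`ℤ`-module, so `f(E) = 0` for a monic `f ∈ ℤ[X]` (`IsIntegral`). `(E F)^k = E^k F` for `k ≥ 1`, so `E F` is a
zero of `X f(X)`. The trace is the sum of the roots of the characteristic polynomial, eigenvalues of
`E F`, which are zeros of `X f(X)`. -/
def SpecTRI : Prop := ∀ {X : Type} [Group X] [Fintype X] {n : ℕ}
  (r : X →* Matrix (Fin n) (Fin n) ℂ) (a : X → ℤ) (F : Matrix (Fin n) (Fin n) ℂ), F * F = F →
  (∑ x, (a x : ℂ) • r x) * F = F * (∑ x, (a x : ℂ) • r x) →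
  IsIntegral ℤ ((∑ x, (a x : ℂ) • r x) * F).trace

/-- RAD. The radical of `p` is an ideal. PROOF. The ideal `(Ideal.span {p}).radical` of
`integralClosure ℤ ℂ`. (4): `m^k = p w`, `w` rational and integral, so `p ∣ m^k`. (5): `(ζ - 1)^(p^j) =
ζ^(p^j) - 1 + p w` (`exists_add_pow_prime_pow_eq`). -/
def SpecRAD : Prop := ∀ p : ℕ, p.Prime →
  (∀ x y : ℂ, RadP p x → RadP p y → RadP p (x + y)) ∧
  (∀ x y : ℂ, IsIntegral ℤ x → RadP p y → RadP p (x * y)) ∧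
  (∀ x : ℂ, IsIntegral ℤ x → RadP p (p * x)) ∧
  (∀ m : ℤ, RadP p m → (p : ℤ) ∣ m) ∧
  (∀ (ζ : ℂ) (j : ℕ), ζ ^ p ^ j = 1 → RadP p (ζ - 1))

/-- GCO. Galois congruence.
PROOF. By Mathlib (`IsCyclotomicExtension.Rat.isIntegralClosure_adjoin_singleton`) `a = f(ζ)`, `f ∈ ℤ[X]`,
`ζ = zeta L`, so `σ a = f(ζ^k)`, and `ζ^k - ζ` divides `f(ζ^k) - f(ζ)` in the ring `ℤ[ζ]`.
`ζ^k - ζ = ζ (ζ^(k-1) - 1)`, and `(ζ^(k-1))^(ordProj[p] L) = 1`; RAD (5). -/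
def SpecGCO : Prop := ∀ (p : ℕ), p.Prime → ∀ (L : ℕ), L ≠ 0 → ∀ k : ℕ, 1 ≤ k →
  ordCompl[p] L ∣ k - 1 → ∀ σ : ℂ →+* ℂ, (∀ ξ : ℂ, ξ ^ L = 1 → σ ξ = ξ ^ k) →
  ∀ a ∈ cycField L, IsIntegral ℤ a → RadP p (σ a - a)

/-- ORB. Sums over the orbits of a `p`-group acting by conjugation. `φ` a function on `U`, constant on the orbits of
`P`; if `|orbit of u| φ(u)` is `p` times an algebraic integer for all `u ≠ 1`, then so is `∑_{u ≠ 1} φ(u)`.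
PROOF. `∑_{u ≠ 1} φ(u)` is the sum of `|O| φ(u_O)` over the orbits. -/
def SpecORB : Prop := ∀ (p : ℕ) {X : Type} [Group X] [Fintype X] (P U : Subgroup X),
  (∀ x ∈ P, ∀ u ∈ U, x * u * x⁻¹ ∈ U) → ∀ φ : X → ℂ, (∀ x ∈ P, ∀ u ∈ U, φ (x * u * x⁻¹) = φ u) →
  (∀ u ∈ U, u ≠ 1 → ∃ w : ℂ, IsIntegral ℤ w ∧
    (Nat.card {v : X // ∃ x ∈ P, v = x * u * x⁻¹} : ℂ) * φ u = p * w) →
  ∃ w : ℂ, IsIntegral ℤ w ∧ (open Classical in ∑ u : X, if u ∈ U then φ u else 0) = φ 1 + p * w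

/-- PFX. The constituents of `r|P` and of the space of fixed vectors of `U`.
PROOF. `F = ∑_{η^q = k} E_η` is an idempotent which commutes with `r(P)`; `tr F = dl`. `φ(u) = tr (r(u) F)`. By ORB it
is enough to show `|O_u| φ(u) ∈ p O` for `u ≠ 1` in `U`. `D = C_P(u) ≠ P`; let `ε ∈ Lin P` with `ε ≠ 1`, `ε^p = 1`,
`ε = 1` on `D` (`exists_eps`, `Deg.lean`), `Q` the kernel of `ε`, of index `p`. `F = |P|⁻¹ ∑_x Φ(x) r(x)`,
`Φ(x) = ∑_{η^q = k} η(x)⁻¹ = ε(x)⁻¹ Φ(x)` (`p ∣ q`), so `Φ(x) = 0` for `x ∉ Q`. Hence `V = ∑_{v ∈ Q-orbit of u} r(v)`,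
which commutes with `r(Q)`, commutes with `F`; `tr (V F)` is an algebraic integer (TRI), equal to `|Q-orbit| φ(u)`; and
`|O_u| = |P|/|D| = p |Q|/|D| = p |Q-orbit|`. -/
def SpecPFX : Prop := ∀ (p : ℕ), p.Prime → ∀ {X : Type} [Group X] [Fintype X] (P U : Subgroup X)
  (e : ℕ), Nat.card P = p ^ e → SplitDec p P U → ∀ {n : ℕ} (r : X →* Matrix (Fin n) (Fin n) ℂ)
  (q : ℕ), p ∣ q → ∀ k : Lin P,
  ∃ w : ℂ, IsIntegral ℤ w ∧ (open Classical in ∑ η ∈ univ.filter (fun η : Lin P => η ^ q = k),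
    (NU r U * EE r P η).trace) = (dl q (fun x : P => (r x).trace) k : ℂ) + p * w

/-- AGI. `a_g = tr (r(g) N E_η)` is an algebraic integer.
PROOF. `N` and `E_η` commute (`P` normalizes `U`), `N r(u) = r(u) N = N` for `u ∈ U`. So for `g = u n v`:
`a_g = tr (r(n) N E_η)`. `r(n) E_η = E_η' r(n)`, `η'(x) = η(n⁻¹ x n)`. If `η' ≠ η` then `E_η E_η' = 0` and `a_g = 0`.
If `η' = η` then `r(n) N` commutes with `E_η`, TRI. -/
def SpecAGI : Prop := ∀ (p : ℕ) {X : Type} [Group X] [Fintype X] (P U : Subgroup X),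
  SplitDec p P U → ∀ {n : ℕ} (r : X →* Matrix (Fin n) (Fin n) ℂ) (η : Lin P) (g : X),
  IsIntegral ℤ (r g * (NU r U * EE r P η)).trace

/-- SCR. Schur relations for two different representations.
PROOF. `T = ∑_g s(g) S r(g⁻¹)` is `0` for all `S`, otherwise the characters are equal (`trace_eq_of_ne` in
`W/NRM.lean`); the sum is `∑_{j,i} (∑_g s(g) A E_ji r(g⁻¹) B)_{ji}` as in the proof of `orth` (`BF/Mx.lean`). -/
def SpecSCR : Prop := ∀ {X : Type} [Group X] [Fintype X] {n : ℕ}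
  (r s : X →* Matrix (Fin n) (Fin n) ℂ), Sch r → n ≠ 0 → (∃ g, (s g).trace ≠ (r g).trace) →
  ∀ A B : Matrix (Fin n) (Fin n) ℂ, ∑ g, (s g * A).trace * (r g⁻¹ * B).trace = 0

/-- HCI. The theorem for one Sylow subgroup. -/
def SpecHCI : Prop := ∀ (p b : ℕ), p.Prime → 2 ≤ b → ∀ (L s0 : ℕ), L ≠ 0 → Pex p L s0 →
  ∀ {X : Type} [Group X] [Fintype X], Nat.card X ∣ L → ∀ P U : Subgroup X,
  Nat.card P = p ^ (Nat.card X).factorization p → SplitDec p P U → ∀ (n : ℕ)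
  (r : X →* Matrix (Fin n) (Fin n) ℂ), Sch r → n ≠ 0 → ∀ K : Lin X, K ^ p = 1 →
  (∃ y, (r (y ^ (1 + s0 * p ^ (b - 1)))).trace ≠ (K y : ℂ) * (r y).trace) →
  p ∣ dl (p ^ (b - 1)) (fun x : P => (r x).trace) (resL P K)

/-- HCS. PROOF. HCI and Sylow's theorem (conjugate `U`). -/
def SpecHCS : Prop := ∀ (p b : ℕ), p.Prime → 2 ≤ b → ∀ {X : Type} [Group X] [Finite X]
  (P U : Subgroup X), Nat.card P = p ^ (Nat.card X).factorization p → SplitDec p P U → IC p b X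

end Pool.Agent.Lib.MP_1aae89_al.HC
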