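import Pool.Agent.Lib.MP_1aae89_al.HC.Spec

/-!
# The example `GL_n(q)`, `p ∣ q - 1`, `p > n`: specifications (MP_1aae89_al, Q1)
-/

set_option autoImplicit false

namespace Pool.Agent.Lib.MP_1aae89_al.HC

open Pool.Agent.Lib.MP_1aae89_al Pool.Agent.Lib.MP_1aae89_al.BF Pool.Agent.Lib.MP_1aae89_al.W3 Finset
open Matrix (GeneralLinearGroup)

/-- `g` is upper unitriangular -/
def UT {n : ℕ} {F : Type} [Field F] (g : GL (Fin n) F) : Prop :=
  (∀ i, (g : Matrix (Fin n) (Fin n) F) i i = 1) ∧ ∀ i j, j < i → (g : Matrix (Fin n) (Fin n) F) i j = 0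

/-- `g` is monomial: the only entries different from `0` are those at the places `(w j, j)` -/
def Mon {n : ℕ} {F : Type} [Field F] (g : GL (Fin n) F) : Prop :=
  ∃ w : Equiv.Perm (Fin n), ∀ i j, (g : Matrix (Fin n) (Fin n) F) i j ≠ 0 ↔ i = w j

/-- UTG. The upper unitriangular matrices form a subgroup, whose order is prime to every prime `p ≠ char F`.
PROOF. Products are clear (`Matrix.BlockTriangular.mul`), inverses: the group is finite (powers), or
`Matrix.blockTriangular_inv_of_blockTriangular`. If `p` divides the order then there is `g ≠ 1` with `g^p = 1` (Cauchy);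
`r = char F`; `g = 1 + N`, `N^n = 0`, `(1 + N)^(r^n) = 1 + N^(r^n) = 1` (`r^n ≥ n`), and `p`, `r^n` are coprime, so `g = 1`. -/
def SpecUTG : Prop := ∀ (n : ℕ) (F : Type) [Field F] [Finite F],
  ∃ U : Subgroup (GL (Fin n) F), (∀ g, g ∈ U ↔ UT g) ∧
    ∀ p : ℕ, p.Prime → (p : F) ≠ 0 → ¬ p ∣ Nat.card U

/-- BRU. The Bruhat decomposition of `GL_n`.
PROOF. Induction on `n`. `n = m + 1`: let `i` be the largest row index with `g i 0 ≠ 0`. There is `u` unitriangular such
that column `0` of `u g` is zero except in the row `i` (add multiples of row `i` to the rows above), and `v` such that row `i`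
of `u g v` is zero except in column `0`. Delete row `i` and column `0` (`Fin.succAbove i`, `Fin.succ`): an invertible
matrix `g'` of size `m`, `u' g' v'` is monomial; enlarge `u'` (via `Fin.succAbove i`) and `v'` (via `Fin.succ`) by
`1` at the places `(i, i)`, `(0, 0)`: they are unitriangular again because `Fin.succAbove i` and `Fin.succ` are monotone. -/
def SpecBRU : Prop := ∀ (n : ℕ) (F : Type) [Field F] (g : GL (Fin n) F),
  ∃ u v : GL (Fin n) F, UT u ∧ UT v ∧ Mon (u * g * v)

/-- GSY. The exponent of `p` in `|GL_n(q)|` is `n` times the exponent in `q - 1`, if `p ∣ q - 1`, `n < p`.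
PROOF. `Matrix.card_GL_field`: `|GL_n(q)| = ∏_{i < n} (q^n - q^i)`, `q^n - q^i = q^i (q^(n-i) - 1)`, and the exponent of `p`
in `q^m - 1` is that in `q - 1` for `1 ≤ m < p`: `q^m - 1 = (q - 1)(1 + q + ... + q^(m-1))`, and the second factor is
`≡ m` modulo `p`. -/
def SpecGSY : Prop := ∀ (p n : ℕ), p.Prime → n < p → ∀ (F : Type) [Field F] [Fintype F],
  p ∣ Fintype.card F - 1 →
  (Nat.card (GL (Fin n) F)).factorization p = n * (Fintype.card F - 1).factorization p

/-- GLN. PROOF. `P` = the diagonal matrices with entries `x`, `x^(p^a) = 1`, `p^a` the `p`-part of `q - 1` (`F^*` is cyclic, so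
there are `p^a` such `x`: `|P| = p^(a n)`, GSY). `U` as in UTG; `p ≠ char F` as `p ∣ q - 1`. `nrm`: conjugation by
diagonal matrices. `fix`: `x u = u x` for all `x ∈ P`: `(x_i - x_j) u_ij = 0`; take `x_i = ζ` of order `p` and `x_j = 1` for
`j ≠ i`. `dec`: BRU for `g⁻¹`-free form `g = u⁻¹ m v⁻¹`, `m` monomial, which permutes the diagonal matrices:
`m x m⁻¹` is the diagonal matrix with entries `x_(w⁻¹ i)`. -/
def SpecGLN : Prop := ∀ (p n : ℕ), p.Prime → n < p → ∀ (F : Type) [Field F] [Fintype F],
  p ∣ Fintype.card F - 1 → ∃ P U : Subgroup (GL (Fin n) F),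
    Nat.card P = p ^ (Nat.card (GL (Fin n) F)).factorization p ∧ SplitDec p P U

end Pool.Agent.Lib.MP_1aae89_al.HC
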