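import Pool.Agent.Lib.MP_1aae89_al.W5.SPN
import Pool.Agent.Lib.MP_1aae89_al.W3.SpecA
import Pool.Agent.Lib.MP_1aae89_al.W3.SpecC
import Pool.Agent.Lib.MP_1aae89_al.W3.SpecB
import Pool.Agent.Lib.MP_1aae89_al.W3.DUA
import Pool.Agent.Lib.MP_1aae89_al.W6.Q1D
import Pool.Agent.Lib.MP_1aae89_al.HC.RAD

section
/-!
# Module CRA of Theorem W3 (MP_1aae89_al): the criterion if `P ∩ F` is cyclic
-/
set_option autoImplicit false

namespace Pool.Agent.Lib.MP_1aae89_al.W3

open Pool.Agent.Lib.MP_1aae89_al Pool.Agent.Lib.MP_1aae89_al.BF Finset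
open Pool.Agent.Lib.MP_1aae89_al.W (nR)

namespace CRA

section

variable {X : Type} [Group X]

theorem normal_of {P : Subgroup X} (hc : ∀ x ∈ P, ∀ y ∈ P, x * y = y * x) (K : Subgroup P) :
    K.Normal := by
  refine ⟨fun n hn g => ?_⟩
  have h1 : g * n * g⁻¹ = n := by
    have h2 : g * n = n * g := Subtype.ext (hc g g.2 n n.2)
    rw [h2, mul_inv_cancel_right]
  rw [h1]
  exact hn

/-- related elements agree modulo `(P ∩ F) P_b` -/
theorem rel_mem {p b : ℕ} {P F : Subgroup X} [F.Normal]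
    (hc : ∀ x ∈ P, ∀ y ∈ P, x * y = y * x) (hFP : F ⊔ P = ⊤) (u v : P)
    (h : Rel p b P (u : X) (v : X)) : v⁻¹ * u ∈ F.subgroupOf P ⊔ CRM.DD p b P hc := by
  obtain ⟨g, hg, z, hz, h⟩ := h
  have hgt : g ∈ F ⊔ P := hFP ▸ Subgroup.mem_top g
  obtain ⟨f, hf, x, hx, rfl⟩ := Subgroup.mem_sup_of_normal_left.1 hgt
  set y : P := ⟨f * x * u * (f * x)⁻¹, hg u u.2⟩ with hy
  have h1 : v⁻¹ * y ∈ CRM.DD p b P hc := (CRM.mk_iff hc v y).2 ⟨z, hz, h⟩
  have h2 : y * u⁻¹ ∈ F.subgroupOf P := by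
    rw [Subgroup.mem_subgroupOf]
    have h3 : ((y * u⁻¹ : P) : X) = f * (u * f⁻¹ * (u : X)⁻¹) := by
      show f * x * u * (f * x)⁻¹ * (u : X)⁻¹ = _
      have h4 : x * (u : X) * x⁻¹ = u := by
        rw [hc x hx u u.2, mul_inv_cancel_right]
      calc f * x * u * (f * x)⁻¹ * (u : X)⁻¹ = f * (x * u * x⁻¹) * f⁻¹ * (u : X)⁻¹ := by group
        _ = f * (u * f⁻¹ * (u : X)⁻¹) := by rw [h4]; group
    rw [h3]
    refine F.mul_mem hf ?_
    exact Subgroup.Normal.conj_mem inferInstance _ (F.inv_mem hf) _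
  have h5 : v⁻¹ * u = (y * u⁻¹)⁻¹ * (v⁻¹ * y) := by
    have hcm : ∀ a c : P, a * c = c * a := fun a c => Subtype.ext (hc a a.2 c c.2)
    rw [mul_inv_rev, inv_inv, hcm v⁻¹ y, mul_assoc, ← mul_assoc y⁻¹, inv_mul_cancel, one_mul,
      hcm u v⁻¹]
  rw [h5]
  exact Subgroup.mul_mem_sup ((F.subgroupOf P).inv_mem h2) h1

theorem relIndex_le [Finite X] {p b : ℕ} (hp : 0 < p) (hb : 1 ≤ b) {P F : Subgroup X}
    (hc : ∀ x ∈ P, ∀ y ∈ P, x * y = y * x) (x₀ : P) (hF : x₀ ∈ F.subgroupOf P)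
    (h0 : ∀ y ∈ P ⊓ F, ∃ j : ℕ, y = (x₀ : X) ^ j) :
    (CRM.DD p b P hc).relIndex (F.subgroupOf P ⊔ CRM.DD p b P hc) ≤ p := by
  set D := CRM.DD p b P hc with hD
  have hDn : D.Normal := normal_of hc D
  rw [Subgroup.relIndex_sup_right]
  have hpD : x₀ ^ p ∈ D := by
    refine ⟨x₀, x₀.2, ?_⟩
    rw [P.coe_pow, ← pow_mul, ← pow_succ', Nat.sub_add_cancel hb]
  have h1 : Function.Surjective (fun i : Fin p =>
      (QuotientGroup.mk (⟨x₀, hF⟩ ^ (i : ℕ)) : (F.subgroupOf P) ⧸ D.subgroupOf (F.subgroupOf P))) := by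
    intro c
    obtain ⟨y, rfl⟩ := QuotientGroup.mk_surjective c
    obtain ⟨j, hj⟩ := h0 (y : P) ⟨y.1.2, y.2⟩
    refine ⟨⟨j % p, Nat.mod_lt _ hp⟩, ?_⟩
    show (QuotientGroup.mk (⟨x₀, hF⟩ ^ (j % p)) :
      (F.subgroupOf P) ⧸ D.subgroupOf (F.subgroupOf P)) = QuotientGroup.mk y
    rw [QuotientGroup.eq, Subgroup.mem_subgroupOf]
    have h2 : (((⟨x₀, hF⟩ : F.subgroupOf P) ^ (j % p))⁻¹ * y : F.subgroupOf P) =
        (⟨x₀, hF⟩ ^ p) ^ (j / p) := by
      rw [inv_mul_eq_iff_eq_mul, ← pow_mul, ← pow_add, Nat.mod_add_div]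
      exact Subtype.ext (Subtype.ext hj)
    rw [h2]
    exact D.pow_mem hpD _
  have h3 := Nat.card_le_card_of_surjective _ h1
  rw [Nat.card_eq_fintype_card (α := Fin p), Fintype.card_fin] at h3
  exact h3

theorem card_image_out [Finite X] {P : Subgroup X} (K : Subgroup P) (ρ : P ⧸ K → P)
    (hρ : ∀ c, (QuotientGroup.mk (ρ c) : P ⧸ K) = c) :
    ∃ A : Finset X, (∀ u, u ∈ A ↔ ∃ c, (ρ c : X) = u) ∧ A.card = K.index := by
  classical
  have : Finite (P ⧸ K) := inferInstance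
  have := Fintype.ofFinite (P ⧸ K)
  refine ⟨univ.image fun c => (ρ c : X), fun u => by simp, ?_⟩
  rw [card_image_of_injective, card_univ, ← Nat.card_eq_fintype_card]
  · rfl
  · intro c c' h
    rw [← hρ c, ← hρ c', Subtype.ext h]

end

end CRA

open CRA in
/-- CRA. -/
theorem specCRA (hREL : SpecREL) : SpecCRA := by
  intro p b hp hb X _ _ P F _ _ hc hFP hx
  obtain ⟨x0, hx0, hgen⟩ := hx
  obtain ⟨-, hsymm, -, -⟩ := hREL p b P hc
  set x₀ : P := ⟨x0, hx0.1⟩ with hx₀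
  set D := CRM.DD p b P hc with hD
  have hcm : ∀ a c : P, a * c = c * a := fun a c => Subtype.ext (hc a a.2 c c.2)
  refine (CRM.crt_iff hb hc).2 ?_
  rw [← hD]
  by_cases hxD : x₀ ∈ D
  · have hFD : F.subgroupOf P ⊔ D = D := by
      rw [sup_eq_right]
      intro y hy
      obtain ⟨j, hj⟩ := hgen (y : X) ⟨y.2, hy⟩
      have h1 : y = x₀ ^ j := Subtype.ext hj
      rw [h1]
      exact D.pow_mem hxD j
    obtain ⟨A, hA, hAc⟩ := card_image_out D (fun c => c.out) (fun c => QuotientGroup.out_eq' c)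
    refine ⟨A, ?_, ?_, ?_⟩
    · intro u hu
      obtain ⟨c, rfl⟩ := (hA u).1 hu
      exact (c.out : P).2
    · intro u hu v hv huv
      obtain ⟨c, rfl⟩ := (hA u).1 hu
      obtain ⟨c', rfl⟩ := (hA v).1 hv
      have h1 := rel_mem hc hFP _ _ huv
      rw [← hD, hFD] at h1
      have h2 : c' = c := by
        rw [← QuotientGroup.out_eq' c, ← QuotientGroup.out_eq' c']
        exact QuotientGroup.eq.2 h1
      rw [h2]
    · rw [hAc]
      have h1 : 0 < D.index := Nat.pos_of_ne_zero Subgroup.index_ne_zero_of_finite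
      calc D.index = D.index * 1 := (mul_one _).symm
        _ < D.index * p := Nat.mul_lt_mul_of_pos_left hp.one_lt h1
  · set Q := F.subgroupOf P ⊔ D with hQ
    have hDQ : D ≤ Q := le_sup_right
    have hxQ : x₀ ∈ Q := (le_sup_left : F.subgroupOf P ≤ Q) hx0.2
    have hidx : D.relIndex Q * Q.index = D.index := Subgroup.relIndex_mul_index hDQ
    have hle : D.relIndex Q ≤ p := relIndex_le hp.pos hb hc x₀ hx0.2 hgen
    classical
    let ρ : P ⧸ Q → P := fun c => if c = ((1 : P) : P ⧸ Q) then 1 else c.out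
    have hρ : ∀ c, (QuotientGroup.mk (ρ c) : P ⧸ Q) = c := by
      intro c
      by_cases h : c = ((1 : P) : P ⧸ Q)
      · simp only [ρ, if_pos h]
        exact h.symm
      · simp only [ρ, if_neg h]
        exact QuotientGroup.out_eq' c
    have hρ1 : ∀ c, ρ c ∈ Q → ρ c = 1 := by
      intro c hc'
      have h1 : c = ((1 : P) : P ⧸ Q) := by
        rw [← hρ c]
        refine QuotientGroup.eq.2 ?_
        rw [mul_one]
        exact Q.inv_mem hc'
      simp only [ρ, if_pos h1]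
    have hx1 : ¬ Rel p b P 1 (x₀ : X) := by
      rintro ⟨g, hg, z, hz, h⟩
      apply hxD
      refine ⟨z⁻¹, P.inv_mem hz, ?_⟩
      rw [mul_one, mul_inv_cancel, one_pow] at h
      rw [inv_pow]
      exact eq_inv_of_mul_eq_one_left h.symm
    obtain ⟨A, hA, hAc⟩ := card_image_out Q ρ hρ
    have hxA : (x₀ : X) ∉ A := by
      intro h
      obtain ⟨c, hc'⟩ := (hA _).1 h
      have h1 : ρ c = x₀ := Subtype.ext hc'
      have h2 := hρ1 c (h1 ▸ hxQ)
      apply hxD
      rw [← h1, h2]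
      exact D.one_mem
    refine ⟨insert (x₀ : X) A, ?_, ?_, ?_⟩
    · intro u hu
      rcases mem_insert.1 hu with rfl | hu
      · exact x₀.2
      · obtain ⟨c, rfl⟩ := (hA u).1 hu
        exact (ρ c).2
    · intro u hu v hv huv
      rcases mem_insert.1 hu with hux | hu
      · rcases mem_insert.1 hv with hvx | hv
        · rw [hux, hvx]
        · exfalso
          obtain ⟨c, rfl⟩ := (hA v).1 hv
          have huv1 : Rel p b P (x₀ : X) (ρ c : X) := by rw [← hux]; exact huv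
          have h1 := rel_mem hc hFP _ _ huv1
          rw [← hD, ← hQ] at h1
          have h2 : ρ c ∈ Q := by
            have h3 : ((ρ c)⁻¹ * x₀ * x₀⁻¹)⁻¹ ∈ Q := Q.inv_mem (Q.mul_mem h1 (Q.inv_mem hxQ))
            rwa [mul_inv_cancel_right, inv_inv] at h3
          rw [hρ1 c h2] at huv1
          exact hx1 (hsymm _ x₀.2 _ P.one_mem huv1)
      · obtain ⟨c, rfl⟩ := (hA u).1 hu
        rcases mem_insert.1 hv with hvx | hv
        · exfalso
          have huv1 : Rel p b P (ρ c : X) (x₀ : X) := by rw [← hvx]; exact huv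
          have h1 := rel_mem hc hFP _ _ huv1
          rw [← hD, ← hQ] at h1
          have h2 : ρ c ∈ Q := by
            have h3 : x₀ * (x₀⁻¹ * ρ c) ∈ Q := Q.mul_mem hxQ h1
            rwa [mul_inv_cancel_left] at h3
          rw [hρ1 c h2] at huv1
          exact hx1 huv1
        · obtain ⟨c', rfl⟩ := (hA v).1 hv
          have h1 := rel_mem hc hFP _ _ huv
          rw [← hD, ← hQ] at h1
          have h2 : c' = c := by
            rw [← hρ c, ← hρ c']
            exact QuotientGroup.eq.2 h1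
          rw [h2]
    · rw [card_insert_of_notMem hxA, hAc]
      have hp0 := hp.pos
      calc D.index = D.relIndex Q * Q.index := hidx.symm
        _ ≤ p * Q.index := Nat.mul_le_mul_right _ hle
        _ < (Q.index + 1) * p := by nlinarith

end Pool.Agent.Lib.MP_1aae89_al.W3
end

section
/-!
# Module REL: `Rel` is an equivalence relation, compatible with powers
-/
set_option autoImplicit false

namespace Pool.Agent.Lib.MP_1aae89_al.W3

/-- if conjugation by `g` maps the finite group `P` into itself, so does conjugation by `g⁻¹` -/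
theorem REL.inv_mem {X : Type} [Group X] [Finite X] (P : Subgroup X) {g : X}
    (hg : ∀ x ∈ P, g * x * g⁻¹ ∈ P) : ∀ x ∈ P, g⁻¹ * x * g ∈ P := by
  intro x hx
  have hinj : Function.Injective (fun y : P => (⟨g * y * g⁻¹, hg y y.2⟩ : P)) := by
    intro y z h
    have h1 : g * (y : X) * g⁻¹ = g * (z : X) * g⁻¹ := congrArg Subtype.val h
    exact Subtype.ext (mul_left_cancel (mul_right_cancel h1))
  obtain ⟨y, hy⟩ := (Finite.injective_iff_surjective.1 hinj) ⟨x, hx⟩
  have h2 : g * (y : X) * g⁻¹ = x := congrArg Subtype.val hy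
  have h3 : g⁻¹ * x * g = y := by
    rw [← h2]
    group
  rw [h3]
  exact y.2

theorem specREL : SpecREL := by
  intro p b X _ _ P hcomm
  have hpow : ∀ x ∈ P, ∀ y ∈ P, ∀ n : ℕ, (x * y) ^ n = x ^ n * y ^ n := fun x hx y hy n =>
    (show Commute x y from hcomm x hx y hy).mul_pow n
  refine ⟨?_, ?_, ?_, ?_⟩
  · intro u _
    refine ⟨1, fun x hx => by rw [one_mul, inv_one, mul_one]; exact hx, 1, P.one_mem, ?_⟩
    rw [one_mul, inv_one, mul_one, one_pow, mul_one]
  · rintro u _ v _ ⟨g, hg, w, hw, h⟩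
    have hg' := REL.inv_mem P hg
    refine ⟨g⁻¹, fun x hx => by rw [inv_inv]; exact hg' x hx, g⁻¹ * w⁻¹ * g,
      hg' _ (P.inv_mem hw), ?_⟩
    have e1 : g⁻¹ * v * g⁻¹⁻¹ = g⁻¹ * v * g⁻¹⁻¹ := rfl
    rw [conj_pow]
    have e2 : (g⁻¹ * w⁻¹ * g) ^ p ^ b = g⁻¹ * w⁻¹ ^ p ^ b * g := by
      have := conj_pow (i := p ^ b) (a := g⁻¹) (b := w⁻¹)
      rwa [inv_inv] at this
    rw [e2, inv_inv]
    rw [conj_pow] at h
    have h3 : u ^ p ^ (b - 1) = g⁻¹ * (v ^ p ^ (b - 1) * w ^ p ^ b) * g := by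
      rw [← h]
      group
    rw [h3, inv_pow]
    group
  · rintro u _ v hv z hz ⟨g, hg, w, hw, h⟩ ⟨k, hk, w', hw', h'⟩
    refine ⟨k * g, fun x hx => ?_, w' * (k * w * k⁻¹), P.mul_mem hw' (hk w hw), ?_⟩
    · have h1 : k * g * x * (k * g)⁻¹ = k * (g * x * g⁻¹) * k⁻¹ := by group
      rw [h1]
      exact hk _ (hg x hx)
    · rw [hpow w' hw' _ (hk w hw), ← mul_assoc, ← h']
      have h1 : k * g * u * (k * g)⁻¹ = k * (g * u * g⁻¹) * k⁻¹ := by group
      rw [h1, conj_pow, h, conj_pow, conj_pow]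
      group
  · rintro u _ v hv k ⟨g, hg, w, hw, h⟩
    refine ⟨g, hg, w ^ k, P.pow_mem hw k, ?_⟩
    have h1 : (g * u ^ k * g⁻¹) ^ p ^ (b - 1) = ((g * u * g⁻¹) ^ p ^ (b - 1)) ^ k := by
      rw [← conj_pow, ← pow_mul, ← pow_mul, mul_comm]
    rw [h1, h, hpow _ (P.pow_mem hv _) _ (P.pow_mem hw _), ← pow_mul, ← pow_mul, ← pow_mul,
      ← pow_mul, mul_comm (p ^ (b - 1)) k, mul_comm (p ^ b) k]

end Pool.Agent.Lib.MP_1aae89_al.W3
end

section
/-!
# Module CRC: the criterion if the automizer of `P ∩ F` in `F` has order less than `p`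
-/
set_option autoImplicit false

namespace Pool.Agent.Lib.MP_1aae89_al.W3

namespace CRC

variable {X : Type} [Group X]

/-- a `p`-element which normalizes the Sylow subgroup `P` is in `P` -/
theorem mem_of_pow [Finite X] {p : ℕ} (hp : p.Prime) {P : Subgroup X}
    (hP : Nat.card P = p ^ (Nat.card X).factorization p) {x : X} {k : ℕ} (hx : x ^ p ^ k = 1)
    (hn : ∀ y ∈ P, x * y * x⁻¹ ∈ P) : x ∈ P := by
  have : Fact p.Prime := ⟨hp⟩
  let S : Sylow p X := Sylow.ofCard P hP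
  have hS : (S : Subgroup X) = P := Sylow.coe_ofCard P hP
  have hn' := REL.inv_mem P hn
  have hz : IsPGroup p (Subgroup.zpowers x) := by
    rintro ⟨y, i, rfl⟩
    refine ⟨k, Subtype.ext ?_⟩
    show (x ^ i) ^ p ^ k = 1
    rw [← zpow_natCast, ← zpow_mul, mul_comm, zpow_mul, zpow_natCast, hx, one_zpow]
  have hnor : Subgroup.zpowers x ≤ Subgroup.normalizer (P : Set X) := by
    rw [Subgroup.zpowers_le, Subgroup.mem_normalizer_iff]
    intro g
    refine ⟨fun hg => hn g hg, fun hg => ?_⟩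
    have := hn' _ hg
    rwa [show x⁻¹ * (x * g * x⁻¹) * x = g by group] at this
  have hPp : IsPGroup p P := by
    rw [← hS]
    exact S.isPGroup'
  have h1 := IsPGroup.to_sup_of_normal_right' hz hPp hnor
  have h2 := S.is_maximal' h1 (by rw [hS]; exact le_sup_right)
  rw [hS] at h2
  have h3 : x ∈ Subgroup.zpowers x ⊔ P := Subgroup.mem_sup_left (Subgroup.mem_zpowers x)
  rwa [h2] at h3

/-- an element of `F` which normalizes `P` and centralizes `P ∩ F` centralizes `P` -/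
theorem central [Finite X] {p : ℕ} (hp : p.Prime) {P F : Subgroup X} (hF : F.Normal)
    (hP : Nat.card P = p ^ (Nat.card X).factorization p) (hab : ∀ x ∈ P, ∀ y ∈ P, x * y = y * x)
    {g : X} (hgF : g ∈ F) (hgP : ∀ x ∈ P, g * x * g⁻¹ ∈ P)
    (hgQ : ∀ x ∈ P ⊓ F, g * x * g⁻¹ = x) {u : X} (hu : u ∈ P) : g * u * g⁻¹ = u := by
  set d : X := g * u * g⁻¹ * u⁻¹ with hd
  have hdP : d ∈ P := P.mul_mem (hgP u hu) (P.inv_mem hu)
  have hdF : d ∈ F := by
    have : d = g * (u * g⁻¹ * u⁻¹) := by rw [hd]; group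
    rw [this]
    exact F.mul_mem hgF (hF.conj_mem _ (F.inv_mem hgF) u)
  have hgd : g * d * g⁻¹ = d := hgQ d ⟨hdP, hdF⟩
  have hk : ∀ k : ℕ, g ^ k * u * (g ^ k)⁻¹ = d ^ k * u := by
    intro k
    induction k with
    | zero => simp
    | succ k ih =>
      have h1 : g ^ (k + 1) * u * (g ^ (k + 1))⁻¹ = g * (g ^ k * u * (g ^ k)⁻¹) * g⁻¹ := by
        rw [pow_succ']
        group
      have h2 : g * (d ^ k * u) * g⁻¹ = (g * d ^ k * g⁻¹) * (g * u * g⁻¹) := by group
      have h3 : g * d ^ k * g⁻¹ = d ^ k := by rw [← conj_pow, hgd]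
      have h4 : g * u * g⁻¹ = d * u := by rw [hd]; group
      rw [h1, ih, h2, h3, h4, pow_succ, mul_assoc (d ^ k) d u]
  -- the `p`-part of `g`
  have hg0 : orderOf g ≠ 0 := (orderOf_pos g).ne'
  set m : ℕ := ordCompl[p] (orderOf g) with hm
  have hgm : g ^ m ∈ P := by
    refine mem_of_pow hp hP (k := (orderOf g).factorization p) ?_ ?_
    · rw [← pow_mul, hm, mul_comm, Nat.ordProj_mul_ordCompl_eq_self, pow_orderOf_eq_one]
    · have : ∀ j : ℕ, ∀ y ∈ P, g ^ j * y * (g ^ j)⁻¹ ∈ P := by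
        intro j
        induction j with
        | zero => intro y hy; simpa using hy
        | succ j ih =>
          intro y hy
          have h1 : g ^ (j + 1) * y * (g ^ (j + 1))⁻¹ = g * (g ^ j * y * (g ^ j)⁻¹) * g⁻¹ := by
            rw [pow_succ']
            group
          rw [h1]
          exact hgP _ (ih y hy)
      exact this m
  have h1 : d ^ m = 1 := by
    have h2 := hk m
    have h3 : g ^ m * u * (g ^ m)⁻¹ = u := by
      rw [hab _ hgm u hu, mul_inv_cancel_right]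
    rw [h3] at h2
    exact (mul_eq_right.1 h2.symm)
  have h2 : d ^ p ^ (Nat.card X).factorization p = 1 := by
    rw [← hP]
    have h3 : (⟨d, hdP⟩ : P) ^ Nat.card P = 1 := pow_card_eq_one'
    exact congrArg Subtype.val h3
  have hcop : Nat.Coprime m (p ^ (Nat.card X).factorization p) :=
    (Nat.Coprime.pow_left _ (Nat.coprime_ordCompl hp hg0)).symm
  have h3 : orderOf d = 1 :=
    Nat.eq_one_of_dvd_coprimes hcop (orderOf_dvd_of_pow_eq_one h1) (orderOf_dvd_of_pow_eq_one h2)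
  have h4 : d = 1 := orderOf_eq_one_iff.1 h3
  rw [hd, mul_inv_eq_one] at h4
  exact h4

/-- conjugation by `g` on `P` -/
def cj (P : Subgroup X) (g : X) : P → X := fun u => g * u * g⁻¹

/-- the set of the conjugations on `P` by elements which normalize `P` -/
def Lam (P : Subgroup X) : Set (P → X) := {f | ∃ g : X, (∀ x ∈ P, g * x * g⁻¹ ∈ P) ∧ f = cj P g}

/-- the set of the conjugations on `Q` by elements of `F` which normalize `Q` -/
def Sg (Q F : Subgroup X) : Set (Q → X) :=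
  {f | ∃ g ∈ F, (∀ x ∈ Q, g * x * g⁻¹ ∈ Q) ∧ f = cj Q g}

theorem card_Sg [Finite X] (Q F : Subgroup X) :
    Nat.card (Sg Q F) * Nat.card {g : X // g ∈ F ∧ ∀ x ∈ Q, g * x * g⁻¹ = x} ≤
      Nat.card {g : X // g ∈ F ∧ ∀ x ∈ Q, g * x * g⁻¹ ∈ Q} := by
  classical
  rw [← Nat.card_prod]
  choose s hs1 hs2 hs3 using fun f : Sg Q F => f.2
  refine Nat.card_le_card_of_injective
    (fun z => ⟨s z.1 * z.2.1, F.mul_mem (hs1 z.1) z.2.2.1, fun x hx => ?_⟩) ?_
  · have h1 : s z.1 * z.2.1 * x * (s z.1 * z.2.1)⁻¹ = s z.1 * (z.2.1 * x * z.2.1⁻¹) * (s z.1)⁻¹ := by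
      group
    rw [h1, z.2.2.2 x hx]
    exact hs2 z.1 x hx
  · rintro ⟨f, c⟩ ⟨f', c'⟩ h
    have h0 : s f * c.1 = s f' * c'.1 := congrArg Subtype.val h
    have hff : f = f' := by
      apply Subtype.ext
      rw [hs3 f, hs3 f']
      funext x
      show s f * x * (s f)⁻¹ = s f' * x * (s f')⁻¹
      have h1 : ∀ (a b : X), b * (x : X) * b⁻¹ = x →
          a * b * x * (a * b)⁻¹ = a * x * a⁻¹ := by
        intro a b hb
        have : a * b * (x : X) * (a * b)⁻¹ = a * (b * x * b⁻¹) * a⁻¹ := by group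
        rw [this, hb]
      rw [← h1 (s f) c.1 (c.2.2 x x.2), h0, h1 (s f') c'.1 (c'.2.2 x x.2)]
    subst hff
    have hcc : c.1 = c'.1 := mul_left_cancel h0
    rw [Subtype.ext hcc]

theorem card_Lam [Finite X] {p : ℕ} (hp : p.Prime) {P F : Subgroup X} (hF : F.Normal)
    (hP : Nat.card P = p ^ (Nat.card X).factorization p) (hab : ∀ x ∈ P, ∀ y ∈ P, x * y = y * x)
    (htop : F ⊔ P = ⊤) : Nat.card (Lam P) ≤ Nat.card (Sg (P ⊓ F) F) := by
  classical
  -- every conjugation is given by an element of `F`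
  have key : ∀ f : Lam P, ∃ g ∈ F, (∀ x ∈ P, g * x * g⁻¹ ∈ P) ∧ f.1 = cj P g := by
    rintro ⟨f, g, hg, rfl⟩
    have hgt : g ∈ F ⊔ P := by
      rw [htop]
      exact Subgroup.mem_top g
    rw [Subgroup.mem_sup_of_normal_left] at hgt
    obtain ⟨a, ha, x, hx, rfl⟩ := hgt
    have h1 : ∀ u ∈ P, a * x * u * (a * x)⁻¹ = a * u * a⁻¹ := by
      intro u hu
      have : a * x * u * (a * x)⁻¹ = a * (x * u * x⁻¹) * a⁻¹ := by group
      rw [this, hab x hx u hu, mul_inv_cancel_right]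
    refine ⟨a, ha, fun u hu => ?_, ?_⟩
    · rw [← h1 u hu]
      exact hg u hu
    · funext u
      exact h1 u u.2
  choose s hs1 hs2 hs3 using key
  refine Nat.card_le_card_of_injective (fun f => (⟨cj (P ⊓ F) (s f), s f, hs1 f, fun x hx =>
    ⟨hs2 f x hx.1, hF.conj_mem x hx.2 (s f)⟩, rfl⟩ : Sg (P ⊓ F) F)) ?_
  intro f f' h
  have h0 : ∀ x ∈ P ⊓ F, s f * x * (s f)⁻¹ = s f' * x * (s f')⁻¹ := fun x hx =>
    congrFun (congrArg Subtype.val h) ⟨x, hx⟩
  apply Subtype.ext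
  rw [hs3 f, hs3 f']
  funext u
  show s f * (u : X) * (s f)⁻¹ = s f' * u * (s f')⁻¹
  have h1 := REL.inv_mem P (hs2 f')
  have h2 := central hp hF hP hab (g := (s f')⁻¹ * s f) (F.mul_mem (F.inv_mem (hs1 f')) (hs1 f))
    (fun x hx => by
      have h3 : (s f')⁻¹ * s f * x * ((s f')⁻¹ * s f)⁻¹ = (s f')⁻¹ * (s f * x * (s f)⁻¹) * s f' := by
        group
      rw [h3]
      exact h1 _ (hs2 f x hx))
    (fun x hx => by
      have h3 : (s f')⁻¹ * s f * x * ((s f')⁻¹ * s f)⁻¹ = (s f')⁻¹ * (s f * x * (s f)⁻¹) * s f' := by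
        group
      rw [h3, h0 x hx]
      group) u.2
  have h3 : (s f')⁻¹ * s f * (u : X) * ((s f')⁻¹ * s f)⁻¹ =
      (s f')⁻¹ * (s f * u * (s f)⁻¹) * s f' := by
    group
  rw [h3] at h2
  calc s f * (u : X) * (s f)⁻¹ =
      s f' * ((s f')⁻¹ * (s f * u * (s f)⁻¹) * s f') * (s f')⁻¹ := by group
    _ = s f' * u * (s f')⁻¹ := by rw [h2]

/-- representatives of the classes of `Rel` -/
theorem exists_reps [Finite X] (p b : ℕ) {P : Subgroup X} (hab : ∀ x ∈ P, ∀ y ∈ P, x * y = y * x) :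
    ∃ A : Finset X, (∀ u ∈ A, u ∈ P) ∧ (∀ u ∈ A, ∀ v ∈ A, Rel p b P u v → u = v) ∧
      ∀ u ∈ P, ∃ a ∈ A, Rel p b P a u := by
  classical
  obtain ⟨h1, h2, h3, -⟩ := specREL p b P hab
  let S : Setoid P :=
    { r := fun u v => Rel p b P u v
      iseqv := ⟨fun u => h1 u u.2, fun {u v} h => h2 u u.2 v v.2 h,
        fun {u v z} h h' => h3 u u.2 v v.2 z z.2 h h'⟩ }
  have : Fintype P := Fintype.ofFinite P
  refine ⟨Finset.univ.image fun u : P => ((Quotient.out (Quotient.mk S u) : P) : X), ?_, ?_, ?_⟩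
  · intro u hu
    obtain ⟨v, -, rfl⟩ := Finset.mem_image.1 hu
    exact Subtype.property _
  · intro u hu v hv h
    obtain ⟨u', -, rfl⟩ := Finset.mem_image.1 hu
    obtain ⟨v', -, rfl⟩ := Finset.mem_image.1 hv
    have h4 : Quotient.mk S (Quotient.out (Quotient.mk S u')) =
        Quotient.mk S (Quotient.out (Quotient.mk S v')) := Quotient.sound h
    rw [Quotient.out_eq, Quotient.out_eq] at h4
    rw [h4]
  · intro u hu
    refine ⟨_, Finset.mem_image.2 ⟨⟨u, hu⟩, Finset.mem_univ _, rfl⟩, ?_⟩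
    exact Quotient.exact (Quotient.out_eq (Quotient.mk S ⟨u, hu⟩))

/-- the counting inequality -/
theorem count [Finite X] (p b : ℕ) {P : Subgroup X} {A : Finset X} (hA : ∀ u ∈ A, u ∈ P) (hrep : ∀ u ∈ P, ∃ a ∈ A, Rel p b P a u) :
    W.nR P (p ^ (b - 1)) ≤ A.card * Nat.card (Lam P) * W.nR P (p ^ b) := by
  classical
  have h1 : ∀ z : {z : X // ∃ x ∈ P, x ^ p ^ (b - 1) = z}, ∃ (a : A) (f : Lam P)
      (r : {z : X // ∃ x ∈ P, x ^ p ^ b = z}), (f.1 ⟨a.1, hA a.1 a.2⟩) ^ p ^ (b - 1) * r.1 = z.1 := by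
    rintro ⟨z, u, hu, rfl⟩
    obtain ⟨a, ha, g, hg, w, hw, h⟩ := hrep u hu
    refine ⟨⟨a, ha⟩, ⟨cj P g, g, hg, rfl⟩, ⟨w⁻¹ ^ p ^ b, w⁻¹, P.inv_mem hw, rfl⟩, ?_⟩
    show (g * a * g⁻¹) ^ p ^ (b - 1) * w⁻¹ ^ p ^ b = u ^ p ^ (b - 1)
    rw [h, inv_pow, mul_inv_cancel_right]
  choose a f r h2 using h1
  have h3 : Nat.card (A × (Lam P) × {z : X // ∃ x ∈ P, x ^ p ^ b = z}) =
      A.card * Nat.card (Lam P) * W.nR P (p ^ b) := by
    rw [Nat.card_prod, Nat.card_prod, Nat.card_eq_fintype_card, Fintype.card_coe, mul_assoc]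
    rfl
  rw [← h3]
  refine Nat.card_le_card_of_injective (fun z => (a z, f z, r z)) ?_
  intro z z' h
  have ha : a z = a z' := congrArg Prod.fst h
  have hf : f z = f z' := congrArg (fun q => q.2.1) h
  have hr : r z = r z' := congrArg (fun q => q.2.2) h
  apply Subtype.ext
  rw [← h2 z, ← h2 z', ha, hf, hr]

end CRC

open CRC in
theorem specCRC : SpecCRC := by
  classical
  intro p b hp hb X _ _ P F hF hP hab htop hlt
  obtain ⟨A, hA, hA2, hrep⟩ := exists_reps p b hab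
  refine ⟨A, hA, hA2, ?_⟩
  have h1 := count p b hA hrep
  have h2 := card_Lam hp hF hP hab htop
  have h3 := card_Sg (P ⊓ F) F
  have h4 : Nat.card (Lam P) < p := by
    refine lt_of_le_of_lt h2 ?_
    have h5 := lt_of_le_of_lt h3 hlt
    exact lt_of_mul_lt_mul_right h5 (Nat.zero_le _)
  have hA0 : 0 < A.card := by
    obtain ⟨a, ha, -⟩ := hrep 1 P.one_mem
    exact Finset.card_pos.2 ⟨a, ha⟩
  have hR0 : 0 < W.nR P (p ^ b) := by
    unfold W.nR
    have : Nonempty {z : X // ∃ x ∈ P, x ^ p ^ b = z} := ⟨⟨1, 1, P.one_mem, one_pow _⟩⟩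
    exact Nat.card_pos
  refine lt_of_le_of_lt h1 ?_
  exact mul_lt_mul_of_pos_right (mul_lt_mul_of_pos_left h4 hA0) hR0

end Pool.Agent.Lib.MP_1aae89_al.W3
end

section
/-!
# CRL, CRJ: lifting the criterion
-/
set_option autoImplicit false

namespace Pool.Agent.Lib.MP_1aae89_al.W3

open Pool.Agent.Lib.MP_1aae89_al Pool.Agent.Lib.MP_1aae89_al.BF Finset
open Pool.Agent.Lib.MP_1aae89_al.W (nR)

theorem nR_map {X Y : Type} [Group X] [Group Y] (f : Y →* X) (P : Subgroup Y)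
    (hinj : ∀ x ∈ P, f x = 1 → x = 1) (q : ℕ) : nR (P.map f) q = nR P q := by
  have hi : ∀ x ∈ P, ∀ y ∈ P, f x = f y → x = y := by
    intro x hx y hy h
    have h1 := hinj (x * y⁻¹) (P.mul_mem hx (P.inv_mem hy)) (by rw [map_mul, map_inv, h, mul_inv_cancel])
    exact mul_inv_eq_one.1 h1
  unfold nR
  symm
  refine Nat.card_congr (Equiv.ofBijective
    (fun z : {z : Y // ∃ x ∈ P, x ^ q = z} =>
      (⟨f z.1, by
        obtain ⟨x, hx, hxz⟩ := z.2
        exact ⟨f x, Subgroup.mem_map_of_mem f hx, by rw [← map_pow, hxz]⟩⟩ :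
        {z : X // ∃ x ∈ P.map f, x ^ q = z})) ⟨?_, ?_⟩)
  · rintro ⟨z, x, hx, hxz⟩ ⟨z', x', hx', hxz'⟩ h
    have h1 : f z = f z' := congrArg Subtype.val h
    apply Subtype.ext
    refine hi z ?_ z' ?_ h1
    · rw [← hxz]; exact P.pow_mem hx q
    · rw [← hxz']; exact P.pow_mem hx' q
  · rintro ⟨z, x, hx, hxz⟩
    obtain ⟨y, hy, rfl⟩ := hx
    exact ⟨⟨y ^ q, y, hy, rfl⟩, Subtype.ext (by simp only [map_pow]; exact hxz)⟩

theorem specCRL : SpecCRL := by
  classical
  intro p b X Y _ _ _ _ f P hinj hC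
  obtain ⟨A, hA, hR, hN⟩ := hC
  have hch : ∀ u : A, ∃ v ∈ P, f v = u.1 := fun u => hA u.1 u.2
  choose g hgP hg using hch
  have gi : Function.Injective g := by
    intro u v h
    apply Subtype.ext
    rw [← hg u, ← hg v, h]
  refine ⟨univ.image g, ?_, ?_, ?_⟩
  · intro u hu
    obtain ⟨a, _, rfl⟩ := Finset.mem_image.1 hu
    exact hgP a
  · intro u hu v hv huv
    obtain ⟨a, _, rfl⟩ := Finset.mem_image.1 hu
    obtain ⟨a', _, rfl⟩ := Finset.mem_image.1 hv
    obtain ⟨t, ht, w, hw, e⟩ := huv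
    have h1 : Rel p b (P.map f) a.1 a'.1 := by
      refine ⟨f t, ?_, f w, Subgroup.mem_map_of_mem f hw, ?_⟩
      · rintro x ⟨y, hy, rfl⟩
        exact ⟨t * y * t⁻¹, ht y hy, by simp only [map_mul, map_inv]⟩
      · have e1 := congrArg f e
        simp only [map_mul, map_pow, map_inv, hg] at e1
        exact e1
    have h2 := hR a.1 a.2 a'.1 a'.2 h1
    rw [Subtype.ext h2]
  · rw [Finset.card_image_of_injective _ gi, Finset.card_univ, Fintype.card_coe,
      ← nR_map f P hinj, ← nR_map f P hinj]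
    exact hN

theorem specCRJ : SpecCRJ := by
  intro p b X _ _ P P' g hP hC
  have h0 : P'.map (MulAut.conj g⁻¹).toMonoidHom = P := by
    ext x
    constructor
    · rintro ⟨y, hy, rfl⟩
      have h1 := (hP y).1 hy
      simpa using h1
    · intro hx
      refine ⟨g * x * g⁻¹, (hP _).2 ?_, ?_⟩
      · have : g⁻¹ * (g * x * g⁻¹) * g = x := by group
        rw [this]; exact hx
      · simp [mul_assoc]
  refine specCRL p b (MulAut.conj g⁻¹).toMonoidHom P' ?_ (by rw [h0]; exact hC)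
  intro x _ hx
  have h1 : (MulAut.conj g⁻¹) x = 1 := hx
  exact (map_eq_one_iff _ (MulAut.conj g⁻¹).injective).1 h1

end Pool.Agent.Lib.MP_1aae89_al.W3
end

section
/-!
# Module CX1: the core of the integrality inside the group
-/
set_option autoImplicit false

namespace Pool.Agent.Lib.MP_1aae89_al.W3

open Pool.Agent.Lib.MP_1aae89_al Pool.Agent.Lib.MP_1aae89_al.BF Finset
open Pool.Agent.Lib.MP1aae89 (Pex)

/-- a linear character of order `p` is trivial on elements of order prime to `p` -/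
theorem CX1.lin_one {p : ℕ} {X : Type} [Group X] {K : Lin X} (hK : K ^ p = 1) {t : X}
    (ht : (orderOf t).Coprime p) : K t = 1 := by
  have h1 : (K t) ^ p = 1 := by
    have h2 : (K ^ p) t = (1 : Lin X) t := by rw [hK]
    exact h2
  have h2 : (K t) ^ orderOf t = 1 := by
    rw [← map_pow, pow_orderOf_eq_one, map_one]
  have h3 : orderOf (K t) ∣ 1 := by
    have := Nat.dvd_gcd (orderOf_dvd_of_pow_eq_one h2) (orderOf_dvd_of_pow_eq_one h1)
    rwa [ht] at this
  exact orderOf_eq_one_iff.1 (Nat.dvd_one.1 h3)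

/-- the number `NN` is a natural number -/
theorem CX1.NN_eq (hDUA : SpecDUA) {p b : ℕ} (hp : p.Prime) (hb : 1 ≤ b) {X : Type} [Group X]
    [Finite X] (P : Subgroup X) (hc : ∀ x ∈ P, ∀ y ∈ P, x * y = y * x) :
    ∃ N : ℕ, NN p b P = N ∧ N = (An p b P).card := by
  let _ : CommGroup P := { (inferInstance : Group P) with
    mul_comm := fun x y => Subtype.ext (hc x x.2 y y.2) }
  have h1 := (hDUA p b hp hb (P := P)).2
  refine ⟨(An p b P).card, ?_, rfl⟩
  unfold NN
  rw [W.nR_eq, W.nR_eq]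
  have h2 : Nat.card {z : P // ∃ x : P, x ^ p ^ b = z} ≠ 0 := by
    have : Nonempty {z : P // ∃ x : P, x ^ p ^ b = z} := ⟨⟨1, 1, one_pow _⟩⟩
    exact Nat.card_pos.ne'
  rw [div_eq_iff (by exact_mod_cast h2)]
  exact_mod_cast h1.symm

theorem specCX1 (hCOR : SpecCOR) (hDUA : SpecDUA) (hCJ2 : SpecCJ2) : SpecCX1 := by
  classical
  intro p L s0 b X _ _ P χ K hy u hu t ht Q hQP hcm
  have hp := hy.pp
  have hb := hy.hb
  have hord : ∀ y : X, orderOf y ∣ L := fun y => (orderOf_dvd_natCard y).trans hy.card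
  let iP : CommGroup P := { (inferInstance : Group P) with
    mul_comm := fun x y => Subtype.ext (hy.comm x x.2 y y.2) }
  have : Fintype P := Fintype.ofFinite P
  have hPp : IsPGroup p P := IsPGroup.of_card hy.syl
  obtain ⟨N, hN1, hN2⟩ := CX1.NN_eq hDUA hp (by omega : 1 ≤ b) P hy.comm
  set Q' : Subgroup P := Q.subgroupOf P with hQ'
  have : Fintype Q' := Fintype.ofFinite Q'
  have hts : t ^ s0 = 1 := W.pow_s0_one hp hy.hL hy.pex (hord t) ht
  have hws : ∀ w ∈ P, w ^ s0 = w := by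
    intro w hw
    obtain ⟨k, hk⟩ := hPp ⟨w, hw⟩
    exact W.pow_s0_self hp hy.hL hy.pex (hord w) (k := k) (congrArg Subtype.val hk)
  have hpow : ∀ w ∈ P, t * w = w * t → ∀ j : ℕ, (t * w) ^ (1 + s0 * j) = t * w ^ (1 + j) := by
    intro w hw hc j
    have h1 : Commute t w := hc
    rw [pow_add, pow_one, pow_mul, h1.mul_pow, hts, one_mul, hws w hw, pow_add, pow_one]
    group
  set φ : Q' → ℂ := fun w => χ (t * ((w : P) : X)) with hφ
  -- `φ` is in `GC`
  have hGC : W.GC φ := by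
    have hGCA1 : W.SpecGCA1 := W.specGCA1
    have hGCA2 : W.SpecGCA2 := W.specGCA2 hGCA1
    have hTWG : W.SpecTWG := W.specTWG hGCA2
    obtain ⟨-, -, -, -, -, hcomp, -, -⟩ := hGCA2
    have h1 : W.GC fun w : Q => χ (t * w) := hTWG χ hy.char Q t hcm
    have h2 := hcomp (Subgroup.subgroupOfEquivOfLe hQP).toMonoidHom _ h1
    exact h2
  have hfx : ∀ (t' : ℕ) (w : Q'), φ (w ^ (1 + p ^ b * t')) = φ w := by
    intro t' w
    have hwQ : ((w : P) : X) ∈ Q := w.2
    have h1 := hpow _ (hQP hwQ) (hcm _ hwQ) (p ^ b * t')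
    have h2 := hy.fx t' (t * ((w : P) : X))
    rw [mul_assoc s0] at h2
    rw [h1] at h2
    rw [hφ]
    exact h2
  have hk1 : (resL P K) ^ p = 1 := by
    refine MonoidHom.ext fun x => ?_
    have h1 : (K ^ p) (x : X) = (1 : Lin X) (x : X) := by rw [hy.kp]
    exact h1
  have hk2 : ∀ x : P, x ^ p ^ (b - 1) = 1 → resL P K x = 1 := by
    intro x hx
    exact hy.kq x x.2 (congrArg Subtype.val hx)
  have hmain := hCOR p b hp hb (P := P) hPp Q' φ hGC hfx (resL P K) hk1 hk2 ⟨u, hu⟩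
  have hKt : K t = 1 := CX1.lin_one hy.kp ht
  have hav : ∀ w : Q', (p : ℂ)⁻¹ * am p b φ (resL P K) w =
      avK p s0 b χ K (t * ((w : P) : X)) := by
    intro w
    have hwQ : ((w : P) : X) ∈ Q := w.2
    unfold am avK
    congr 1
    refine sum_congr rfl fun i _ => ?_
    have h1 := hpow _ (hQP hwQ) (hcm _ hwQ) (p ^ (b - 1) * i)
    rw [mul_assoc s0, h1, map_mul, hKt, one_mul]
    rfl
  have hcj : ∀ y, avK p s0 b χ K y⁻¹ = (starRingEnd ℂ) (avK p s0 b χ K y) :=
    hCJ2 p L s0 b P χ K hy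
  have hsum : (∑ w : X, if w ∈ Q ∧ (∃ v ∈ P, w ^ p ^ (b - 1) = u ^ p ^ (b - 1) * v ^ p ^ b) then
      avK p s0 b χ K (t * w) * avK p s0 b χ K (t * w)⁻¹ else 0) =
      ∑ w : Q', if (∃ v : P, (w : P) ^ p ^ (b - 1) = (⟨u, hu⟩ : P) ^ p ^ (b - 1) * v ^ p ^ b) then
        ((p : ℂ)⁻¹ * am p b φ (resL P K) w) *
          (starRingEnd ℂ) ((p : ℂ)⁻¹ * am p b φ (resL P K) w) else 0 := by
    symm
    have h1 : ∀ w : Q', (if (∃ v : P, (w : P) ^ p ^ (b - 1) =
        (⟨u, hu⟩ : P) ^ p ^ (b - 1) * v ^ p ^ b) then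
        ((p : ℂ)⁻¹ * am p b φ (resL P K) w) *
          (starRingEnd ℂ) ((p : ℂ)⁻¹ * am p b φ (resL P K) w) else 0) =
        (fun z : X => if z ∈ Q ∧ (∃ v ∈ P, z ^ p ^ (b - 1) = u ^ p ^ (b - 1) * v ^ p ^ b) then
          avK p s0 b χ K (t * z) * avK p s0 b χ K (t * z)⁻¹ else 0) ((w : P) : X) := by
      intro w
      have hwQ : ((w : P) : X) ∈ Q := w.2
      have h2 : (∃ v : P, (w : P) ^ p ^ (b - 1) = (⟨u, hu⟩ : P) ^ p ^ (b - 1) * v ^ p ^ b) ↔
          (((w : P) : X) ∈ Q ∧ (∃ v ∈ P, ((w : P) : X) ^ p ^ (b - 1) =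
            u ^ p ^ (b - 1) * v ^ p ^ b)) := by
        constructor
        · rintro ⟨v, hv⟩
          exact ⟨hwQ, v, v.2, congrArg Subtype.val hv⟩
        · rintro ⟨-, v, hv, h3⟩
          exact ⟨⟨v, hv⟩, Subtype.ext h3⟩
      show _ = (if _ then _ else _)
      rw [hcj, ← hav]
      exact if_congr h2 rfl rfl
    rw [sum_congr rfl fun w _ => h1 w]
    have h3 : ∀ F : X → ℂ, (∀ z, z ∉ Q → F z = 0) → ∑ w : Q', F ((w : P) : X) = ∑ z : X, F z := by
      intro F hF
      have hinj : Function.Injective (fun w : Q' => ((w : P) : X)) := fun a b h =>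
        Subtype.ext (Subtype.ext h)
      have h4 : ∑ w : Q', F ((w : P) : X) =
          ∑ z ∈ (univ : Finset Q').image (fun w : Q' => ((w : P) : X)), F z := by
        rw [sum_image fun a _ b _ h => hinj h]
      rw [h4]
      refine sum_subset (subset_univ _) fun z _ hz => hF z fun hzQ => hz ?_
      exact mem_image.2 ⟨⟨⟨z, hQP hzQ⟩, hzQ⟩, mem_univ _, rfl⟩
    refine (h3 (fun z : X => if z ∈ Q ∧ (∃ v ∈ P, z ^ p ^ (b - 1) =
      u ^ p ^ (b - 1) * v ^ p ^ b) then
        avK p s0 b χ K (t * z) * avK p s0 b χ K (t * z)⁻¹ else 0) fun z hz => ?_)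
    exact if_neg fun h => hz h.1
  have hcard : (Nat.card Q : ℂ) = (Fintype.card Q' : ℂ) := by
    rw [← Nat.card_eq_fintype_card]
    exact_mod_cast (Nat.card_congr (Subgroup.subgroupOfEquivOfLe hQP).toEquiv).symm
  rw [hN1, hN2, hcard]
  have hfin : IsIntegral ℤ (((An p b P).card : ℂ) * ((Fintype.card Q' : ℂ)⁻¹ *
      ∑ w : X, if w ∈ Q ∧ (∃ v ∈ P, w ^ p ^ (b - 1) = u ^ p ^ (b - 1) * v ^ p ^ b) then
        avK p s0 b χ K (t * w) * avK p s0 b χ K (t * w)⁻¹ else 0)) := by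
    rw [hsum]
    convert hmain using 6
  convert hfin using 6

end Pool.Agent.Lib.MP_1aae89_al.W3
end

section
/-!
# Module CX2: integrality for the sections and `p`-subgroups commuting with `t`
-/
set_option autoImplicit false

namespace Pool.Agent.Lib.MP_1aae89_al.W3

open Pool.Agent.Lib.MP_1aae89_al Pool.Agent.Lib.MP_1aae89_al.BF Finset
open Pool.Agent.Lib.MP1aae89 (Pex)

/-- `avK` is a class function -/
theorem CX2.avK_conj {p s0 b : ℕ} {X : Type} [Group X] {χ : X → ℂ} (hχ : IsCharacter χ) (K : Lin X)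
    (g y : X) : avK p s0 b χ K (g * y * g⁻¹) = avK p s0 b χ K y := by
  have hconj : ∀ g x, χ (g * x * g⁻¹) = χ x := by
    intro g x
    have := hχ.conj g⁻¹ x
    rwa [inv_inv] at this
  have hK : K (g * y * g⁻¹) = K y := by
    rw [map_mul, map_mul, map_inv, mul_comm (K g), mul_assoc, mul_inv_cancel, mul_one]
  unfold avK
  congr 1
  refine sum_congr rfl fun i _ => ?_
  rw [hK, conj_pow, hconj]

/-- the case of a subgroup of `P` -/
theorem CX2.main (hCX1 : SpecCX1) (hSEC : SpecSEC) (hREL : SpecREL) (p L s0 b : ℕ) {X : Type}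
    [Group X] [Fintype X] (P : Subgroup X) (χ : X → ℂ)
    (K : Lin X) (hy : Hy p L s0 b P χ K) (u : X) (hu : u ∈ P) (t : X) (ht : (orderOf t).Coprime p)
    (Q : Subgroup X) (hQP : Q ≤ P) (hcm : ∀ w ∈ Q, t * w = w * t) :
    IsIntegral ℤ ((Nat.card Q : ℂ)⁻¹ * ∑ w : X, open Classical in if w ∈ Q then
    (if Sec p s0 b P u (t * w) then
      NN p b P * (avK p s0 b χ K (t * w) * avK p s0 b χ K (t * w)⁻¹) else 0) else 0) := by
  classical
  obtain ⟨-, -, -, -, hsec5, -⟩ := hSEC p hy.pp L s0 b hy.hb hy.hL hy.pex P hy.card hy.syl hy.comm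
  obtain ⟨-, -, htr, -⟩ := hREL p b P hy.comm
  set q := p ^ (b - 1) with hq
  have eqv : ∀ w z : X, (∃ v ∈ P, w ^ q = z ^ q * v ^ p ^ b) →
      (∃ v ∈ P, z ^ q = w ^ q * v ^ p ^ b) := by
    rintro w z ⟨v, hv, h⟩
    refine ⟨v⁻¹, P.inv_mem hv, ?_⟩
    rw [h, inv_pow, mul_inv_cancel_right]
  have etr : ∀ w z y : X, (∃ v ∈ P, w ^ q = z ^ q * v ^ p ^ b) →
      (∃ v ∈ P, z ^ q = y ^ q * v ^ p ^ b) → (∃ v ∈ P, w ^ q = y ^ q * v ^ p ^ b) := by
    rintro w z y ⟨v, hv, h⟩ ⟨v', hv', h'⟩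
    refine ⟨v' * v, P.mul_mem hv' hv, ?_⟩
    have h1 : Commute v' v := hy.comm v' hv' v hv
    rw [h, h', h1.mul_pow, mul_assoc]
  set s : Finset X := univ.filter fun w => w ∈ Q ∧ Rel p b P w u with hs
  set κ : X → Set X := fun w => {z | ∃ v ∈ P, w ^ q = z ^ q * v ^ p ^ b} with hκ
  set F : X → ℂ := fun w => avK p s0 b χ K (t * w) * avK p s0 b χ K (t * w)⁻¹ with hF
  have h1 : (∑ w : X, if w ∈ Q then (if Sec p s0 b P u (t * w) then
      NN p b P * F w else 0) else 0) = NN p b P * ∑ w ∈ s, F w := by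
    rw [mul_sum, hs, sum_filter]
    refine sum_congr rfl fun w _ => ?_
    by_cases h2 : w ∈ Q
    · rw [if_pos h2]
      have h3 := hsec5 u hu t ht w (hQP h2) (hcm w h2)
      exact if_congr (h3.trans (by simp [h2])) rfl rfl
    · rw [if_neg h2, if_neg fun h => h2 h.1]
  have h2 : ∑ w ∈ s, F w = ∑ j ∈ s.image κ, ∑ w ∈ s.filter (fun w => κ w = j), F w :=
    (sum_fiberwise_of_maps_to (fun w hw => mem_image_of_mem κ hw) F).symm
  have h3 : IsIntegral ℤ (∑ j ∈ s.image κ, (NN p b P * ((Nat.card Q : ℂ)⁻¹ *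
      ∑ w ∈ s.filter (fun w => κ w = j), F w))) := by
    refine IsIntegral.sum _ fun j hj => ?_
    obtain ⟨z, hz, rfl⟩ := mem_image.1 hj
    have hz' := (mem_filter.1 hz).2
    have hzP : z ∈ P := hQP hz'.1
    have h4 := hCX1 p L s0 b P χ K hy z hzP t ht Q hQP hcm
    have h5 : ∑ w ∈ s.filter (fun w => κ w = κ z), F w =
        ∑ w : X, if w ∈ Q ∧ (∃ v ∈ P, w ^ q = z ^ q * v ^ p ^ b) then F w else 0 := by
      rw [← sum_filter]
      refine sum_congr ?_ fun _ _ => rfl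
      ext w
      simp only [hs, mem_filter, mem_univ, true_and]
      constructor
      · rintro ⟨⟨h6, h7⟩, h8⟩
        refine ⟨h6, ?_⟩
        have h9 : z ∈ κ z := ⟨1, P.one_mem, by rw [one_pow, mul_one]⟩
        rw [← h8] at h9
        exact h9
      · rintro ⟨h6, h7⟩
        refine ⟨⟨h6, ?_⟩, ?_⟩
        · refine htr w (hQP h6) z hzP u hu ?_ hz'.2
          obtain ⟨v, hv, h8⟩ := h7
          refine ⟨1, fun x hx => by simpa using hx, v, hv, ?_⟩
          rw [one_mul, inv_one, mul_one]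
          exact h8
        · ext y
          exact ⟨fun h => etr z w y (eqv w z h7) h, fun h => etr w z y h7 h⟩
    rw [h5]
    convert h4 using 6
  have h4 : (Nat.card Q : ℂ)⁻¹ * ∑ w : X, (if w ∈ Q then (if Sec p s0 b P u (t * w) then
      NN p b P * F w else 0) else 0) = ∑ j ∈ s.image κ, (NN p b P * ((Nat.card Q : ℂ)⁻¹ *
      ∑ w ∈ s.filter (fun w => κ w = j), F w)) := by
    rw [h1, h2, ← mul_sum, ← mul_sum]
    ring
  rw [← h4] at h3
  convert h3 using 6

open scoped Pointwise in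
theorem specCX2 (hCX1 : SpecCX1) (hSEC : SpecSEC) (hREL : SpecREL) : SpecCX2 := by
  classical
  intro p L s0 b X _ _ P χ K hy u hu t ht Q hQ hcm
  have hfact : Fact p.Prime := ⟨hy.pp⟩
  obtain ⟨S, hS⟩ := hQ.exists_le_sylow
  obtain ⟨g, hg⟩ := MulAction.exists_smul_eq X S (Sylow.ofCard P hy.syl)
  have hgP : ∀ w ∈ Q, g * w * g⁻¹ ∈ P := by
    intro w hw
    have h6 : MulAut.conj g • w ∈ MulAut.conj g • (S : Subgroup X) :=
      Subgroup.smul_mem_pointwise_smul _ _ _ (hS hw)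
    have h7 : (MulAut.conj g • (S : Subgroup X)) = P := congrArg (fun R : Sylow p X =>
      (R : Subgroup X)) hg
    rw [h7] at h6
    exact h6
  set Q' : Subgroup X := Q.map (MulAut.conj g).toMonoidHom with hQ'
  have hmem : ∀ w : X, g * w * g⁻¹ ∈ Q' ↔ w ∈ Q := by
    intro w
    constructor
    · rintro ⟨v, hv, h⟩
      have h1 : g * v * g⁻¹ = g * w * g⁻¹ := h
      have h2 : v = w := by simpa using h1
      exact h2 ▸ hv
    · intro h
      exact ⟨w, h, rfl⟩
  have hle : Q' ≤ P := by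
    rintro _ ⟨v, hv, rfl⟩
    exact hgP v hv
  have hcard : Nat.card Q' = Nat.card Q :=
    (Nat.card_congr (Subgroup.equivMapOfInjective Q _ (MulAut.conj g).injective).toEquiv).symm
  have ht' : (orderOf (g * t * g⁻¹)).Coprime p := by
    have h1 : orderOf (MulAut.conj g t) = orderOf t :=
      orderOf_injective (MulAut.conj g).toMonoidHom (MulAut.conj g).injective t
    have h2 : g * t * g⁻¹ = MulAut.conj g t := rfl
    rw [h2, h1]
    exact ht
  have hcm' : ∀ w ∈ Q', g * t * g⁻¹ * w = w * (g * t * g⁻¹) := by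
    rintro _ ⟨v, hv, rfl⟩
    have h1 := hcm v hv
    show g * t * g⁻¹ * (g * v * g⁻¹) = g * v * g⁻¹ * (g * t * g⁻¹)
    calc g * t * g⁻¹ * (g * v * g⁻¹) = g * (t * v) * g⁻¹ := by group
      _ = g * (v * t) * g⁻¹ := by rw [h1]
      _ = _ := by group
  have h1 := CX2.main hCX1 hSEC hREL p L s0 b P χ K hy u hu (g * t * g⁻¹) ht' Q' hle hcm'
  obtain ⟨hsec1, -⟩ := hSEC p hy.pp L s0 b hy.hb hy.hL hy.pex P hy.card hy.syl hy.comm
  have h2 : (∑ w : X, if w ∈ Q' then (if Sec p s0 b P u (g * t * g⁻¹ * w) then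
      NN p b P * (avK p s0 b χ K (g * t * g⁻¹ * w) * avK p s0 b χ K (g * t * g⁻¹ * w)⁻¹)
      else 0) else 0) = ∑ w : X, if w ∈ Q then (if Sec p s0 b P u (t * w) then
      NN p b P * (avK p s0 b χ K (t * w) * avK p s0 b χ K (t * w)⁻¹) else 0) else 0 := by
    symm
    refine Fintype.sum_equiv (MulAut.conj g).toEquiv _ _ fun w => ?_
    show _ = if g * w * g⁻¹ ∈ Q' then (if Sec p s0 b P u (g * t * g⁻¹ * (g * w * g⁻¹)) then
      NN p b P * (avK p s0 b χ K (g * t * g⁻¹ * (g * w * g⁻¹)) *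
        avK p s0 b χ K (g * t * g⁻¹ * (g * w * g⁻¹))⁻¹) else 0) else 0
    have h3 : g * t * g⁻¹ * (g * w * g⁻¹) = g * (t * w) * g⁻¹ := by group
    have h4 : (g * (t * w) * g⁻¹)⁻¹ = g * (t * w)⁻¹ * g⁻¹ := by group
    rw [h3, h4, CX2.avK_conj hy.char, CX2.avK_conj hy.char]
    refine if_congr (hmem w).symm (if_congr (hsec1 u g (t * w)).symm rfl rfl) rfl
  have h5 : IsIntegral ℤ ((Nat.card Q : ℂ)⁻¹ * ∑ w : X, if w ∈ Q then
      (if Sec p s0 b P u (t * w) then
        NN p b P * (avK p s0 b χ K (t * w) * avK p s0 b χ K (t * w)⁻¹) else 0) else 0) := by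
    rw [← h2, ← hcard]
    convert h1 using 6
  convert h5 using 6

end Pool.Agent.Lib.MP_1aae89_al.W3
end

section
/-!
# Module CY2 of Theorem W3 (MP_1aae89_al): `BB u` lies in the cyclotomic field
-/
set_option autoImplicit false

namespace Pool.Agent.Lib.MP_1aae89_al.W3

open Pool.Agent.Lib.MP_1aae89_al Pool.Agent.Lib.MP_1aae89_al.BF Finset
open Pool.Agent.Lib.MP_1aae89_al.W (GC LD nR)
open Pool.Agent.Lib.MP1aae89 (Pex)

/-- CY2. -/
theorem specCY2 : SpecCY2 := by
  intro p L s0 b X _ _ P χ K hy u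
  classical
  have hc : ∀ y, χ y ∈ cycField L := fun y => by
    have h1 := hy.char.mem_cyc_card y
    rw [← Nat.card_eq_fintype_card] at h1
    exact cyc_mono hy.card hy.hL h1
  have hK : ∀ y, (((K y)⁻¹ : ℂˣ) : ℂ) ∈ cycField L := fun y => by
    refine root_mem hy.hL ?_
    obtain ⟨m, hm⟩ := hy.card
    have h1 : K y ^ L = 1 := by
      rw [← map_pow, hm, pow_mul, pow_card_eq_one', one_pow, map_one]
    rw [← Units.val_pow_eq_pow_val, inv_pow, h1, inv_one, Units.val_one]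
  have hav : ∀ y, avK p s0 b χ K y ∈ cycField L := fun y => by
    unfold avK
    refine mul_mem (inv_mem (natCast_mem _ _)) (sum_mem fun i _ => ?_)
    exact mul_mem (pow_mem (hK y) i) (hc _)
  unfold BB NN
  refine mul_mem (div_mem (natCast_mem _ _) (natCast_mem _ _))
    (mul_mem (inv_mem (natCast_mem _ _)) (sum_mem fun y _ => ?_))
  split_ifs
  · exact mul_mem (hav y) (hav y⁻¹)
  · exact zero_mem _

end Pool.Agent.Lib.MP_1aae89_al.W3
end

section
/-!
# Module DLM of Theorem W3 (MP_1aae89_al): the number `dl` for a commutative group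
-/
set_option autoImplicit false

namespace Pool.Agent.Lib.MP_1aae89_al.W3

open Pool.Agent.Lib.MP_1aae89_al Pool.Agent.Lib.MP_1aae89_al.BF Finset
open Pool.Agent.Lib.MP_1aae89_al.W (GC LD nR)
open Pool.Agent.Lib.MP1aae89 (Pex)

namespace DLM

/-- orthogonality -/
theorem mean_lin {P : Type} [CommGroup P] [Fintype P] (l : Lin P) :
    (Fintype.card P : ℂ)⁻¹ * ∑ x : P, ((l x : ℂˣ) : ℂ) = open Classical in if l = 1 then 1 else 0 := by
  classical
  have hP : (Fintype.card P : ℂ) ≠ 0 := by exact_mod_cast Fintype.card_ne_zero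
  split_ifs with h
  · subst h
    have h1 : ∀ x : P, (((1 : Lin P) x : ℂˣ) : ℂ) = 1 := fun x => by
      rw [Lin.one_apply, Units.val_one]
    rw [sum_congr rfl fun x _ => h1 x, sum_const, card_univ, nsmul_eq_mul, mul_one,
      inv_mul_cancel₀ hP]
  · obtain ⟨a, ha⟩ : ∃ a : P, l a ≠ 1 := by
      by_contra h2
      push Not at h2
      exact h (Lin.ext fun x => by rw [h2 x, Lin.one_apply])
    have h1 : ∑ x : P, ((l x : ℂˣ) : ℂ) = ((l a : ℂˣ) : ℂ) * ∑ x : P, ((l x : ℂˣ) : ℂ) := by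
      rw [mul_sum]
      refine (Fintype.sum_equiv (Equiv.mulLeft a) _ _ fun x => ?_).symm
      rw [Equiv.coe_mulLeft, map_mul, Units.val_mul]
    have h2 : (((l a : ℂˣ) : ℂ) - 1) * ∑ x : P, ((l x : ℂˣ) : ℂ) = 0 := by
      rw [sub_mul, one_mul, ← h1, sub_self]
    rcases mul_eq_zero.1 h2 with h3 | h3
    · exact absurd (Units.ext (by rw [Units.val_one]; exact sub_eq_zero.1 h3)) ha
    · rw [h3, mul_zero]

end DLM

/-- DLM. -/
theorem specDLM : SpecDLM := by
  intro P _ _ q χ hχ k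
  classical
  have hml : ∀ η : Lin P, ml χ η = mlt χ η := by
    intro η
    unfold ml
    congr 1
    exact Subsingleton.elim _ _
  have hinv : ∀ x : P, χ (x ^ q) = ∑ η : Lin P, ((mlt χ η : ℕ) : ℂ) * ((η x : ℂˣ) : ℂ) ^ q := by
    intro x
    rw [W.SCAM.inversion χ (fun μ => ⟨mlt χ μ, (mlt_spec hχ μ).symm⟩) (x ^ q)]
    refine sum_congr rfl fun η _ => ?_
    rw [map_pow, Units.val_pow_eq_pow_val]
  have h1 : (Fintype.card P : ℂ)⁻¹ * ∑ x : P, χ (x ^ q) * (((k x)⁻¹ : ℂˣ) : ℂ) =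
      ∑ η : Lin P, ((mlt χ η : ℕ) : ℂ) *
        ((Fintype.card P : ℂ)⁻¹ * ∑ x : P, (((η ^ q * k⁻¹ : Lin P) x : ℂˣ) : ℂ)) := by
    calc (Fintype.card P : ℂ)⁻¹ * ∑ x : P, χ (x ^ q) * (((k x)⁻¹ : ℂˣ) : ℂ)
        = (Fintype.card P : ℂ)⁻¹ * ∑ x : P, ∑ η : Lin P, ((mlt χ η : ℕ) : ℂ) *
            (((η ^ q * k⁻¹ : Lin P) x : ℂˣ) : ℂ) := by
          congr 1
          refine sum_congr rfl fun x _ => ?_
          rw [hinv x, sum_mul]
          refine sum_congr rfl fun η _ => ?_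
          rw [Lin.mul_apply, Lin.pow_apply, Lin.inv_apply, Units.val_mul, Units.val_pow_eq_pow_val,
            mul_assoc]
      _ = _ := by
          rw [sum_comm, mul_sum]
          refine sum_congr rfl fun η _ => ?_
          rw [← mul_sum]
          ring
  rw [h1]
  have h2 : ∀ η : Lin P, ((mlt χ η : ℕ) : ℂ) *
      ((Fintype.card P : ℂ)⁻¹ * ∑ x : P, (((η ^ q * k⁻¹ : Lin P) x : ℂˣ) : ℂ)) =
      if η ^ q = k then ((mlt χ η : ℕ) : ℂ) else 0 := by
    intro η
    rw [DLM.mean_lin]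
    by_cases h : η ^ q = k
    · rw [if_pos (by rw [h, mul_inv_cancel]), if_pos h, mul_one]
    · rw [if_neg (fun h3 => h (mul_inv_eq_one.1 h3)), if_neg h, mul_zero]
  rw [sum_congr rfl fun η _ => h2 η]
  unfold dl
  rw [Nat.cast_sum, sum_filter]
  refine sum_congr rfl fun η _ => ?_
  rw [hml]
  split_ifs <;> rfl

end Pool.Agent.Lib.MP_1aae89_al.W3
end

section
/-!
# Module DT2: a Galois twist with normalised determinant is trivial
-/
set_option autoImplicit false

namespace Pool.Agent.Lib.MP_1aae89_al.W3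

open Pool.Agent.Lib.MP_1aae89_al Pool.Agent.Lib.MP_1aae89_al.BF Finset
open Pool.Agent.Lib.MP1aae89 (Pex)

namespace DT2M

variable {G : Type} [Group G] {n : ℕ}

/-- Galois conjugates of a representation -/
def galR (r : G →* Matrix (Fin n) (Fin n) ℂ) (σ : ℂ →+* ℂ) : G →* Matrix (Fin n) (Fin n) ℂ where
  toFun g := (r g).map σ
  map_one' := by rw [map_one]; exact Matrix.map_one σ (map_zero σ) (map_one σ)
  map_mul' x y := by rw [map_mul, Matrix.map_mul]

theorem galR_trace (r : G →* Matrix (Fin n) (Fin n) ℂ) (σ : ℂ →+* ℂ) (g : G) :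
    (galR r σ g).trace = σ (r g).trace := by
  show ((r g).map σ).trace = _
  exact (AddMonoidHom.map_trace (σ : ℂ →+ ℂ) (r g)).symm

end DT2M

theorem specDT2 (hPRM : SpecPRM) : SpecDT2 := by
  intro p hp L s0 hL hpex H _ _ hHL m r' hm hS hdet K hK a ha htr h
  classical
  have : Fintype H := Fintype.ofFinite H
  have hm0 : m ≠ 0 := by
    rintro rfl
    exact hm (dvd_zero p)
  have hcop : (1 + s0 * p ^ a).Coprime L := by
    have h1 := (hPRM p hp L s0 hL hpex).1 a 1 ha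
    rwa [mul_one] at h1
  have hyL : ∀ y : H, y ^ L = 1 := by
    intro y
    obtain ⟨c, hc⟩ := hHL
    rw [hc, pow_mul, pow_card_eq_one', one_pow]
  obtain ⟨σ, hσ⟩ := Pool.Agent.Lib.MP1aae89.exists_aut L (Nat.pos_of_ne_zero hL) _ hcop
  -- the twist of `r'` by `K`
  let β : H →* ℂˣ := MonoidHom.mk' (fun y => (K y)⁻¹) fun y z => by rw [map_mul, mul_inv]
  set s : H →* Matrix (Fin m) (Fin m) ℂ := tw r' β with hs
  have hsa : ∀ y, s y = ((K y : ℂˣ) : ℂ) • r' y := by
    intro y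
    rw [hs, tw_apply]
    change (((K y)⁻¹⁻¹ : ℂˣ) : ℂ) • r' y = _
    rw [inv_inv]
  have hsS : Sch s := tw_sch hS _
  have htr2 : ∀ y, (DT2M.galR r' σ y).trace = (s y).trace := by
    intro y
    rw [DT2M.galR_trace, gal_trace hL σ hσ (r' y) (by rw [← map_pow, hyL, map_one]), ← map_pow,
      htr y, hsa, Matrix.trace_smul, smul_eq_mul]
  obtain ⟨B, B', hB1, hB2, hB⟩ := equiv_of_trace hsS hm0 htr2
  have hd := congrArg Matrix.det (hB h)
  rw [Matrix.det_mul, Matrix.det_mul, mul_comm] at hd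
  have hB0 : B.det ≠ 0 := by
    intro h0
    have h1 := congrArg Matrix.det hB1
    rw [Matrix.det_mul, h0, mul_zero, Matrix.det_one] at h1
    exact zero_ne_one h1
  have hd2 : (DT2M.galR r' σ h).det = (s h).det := mul_left_cancel₀ hB0 hd
  have hd3 : (DT2M.galR r' σ h).det = σ (r' h).det := by
    change ((r' h).map σ).det = _
    exact (RingHom.map_det σ (r' h)).symm
  have hdL : (r' h).det ^ L = 1 := by
    rw [← Matrix.det_pow, ← map_pow, hyL, map_one, Matrix.det_one]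
  rw [hd3, hσ _ hdL, hsa, Matrix.det_smul, Fintype.card_fin] at hd2
  have h5 : (r' h).det ^ (s0 * p ^ a) = 1 := by
    obtain ⟨c, hc⟩ := hpex.zero
    rw [hc, mul_assoc, pow_mul, hdet h, one_pow]
  have hdn : (r' h).det ≠ 0 := by
    intro h0
    rw [h0, zero_pow hL] at hdL
    exact zero_ne_one hdL
  rw [pow_add, pow_one, h5, mul_one] at hd2
  have h6 : ((K h : ℂˣ) : ℂ) ^ m = 1 := by
    have h7 : (1 : ℂ) * (r' h).det = ((K h : ℂˣ) : ℂ) ^ m * (r' h).det := by
      rw [one_mul]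
      exact hd2
    exact (mul_right_cancel₀ hdn h7).symm
  have h8 : K h ^ m = 1 := by
    apply Units.ext
    rw [Units.val_pow_eq_pow_val, h6, Units.val_one]
  have h9 : K h ^ p = 1 := by
    rw [← Lin.pow_apply, hK, Lin.one_apply]
  have h10 : orderOf (K h) ∣ Nat.gcd m p :=
    Nat.dvd_gcd (orderOf_dvd_of_pow_eq_one h8) (orderOf_dvd_of_pow_eq_one h9)
  have h11 : Nat.gcd m p = 1 := ((hp.coprime_iff_not_dvd).2 hm).symm
  rw [h11, Nat.dvd_one, orderOf_eq_one_iff] at h10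
  exact h10

end Pool.Agent.Lib.MP_1aae89_al.W3
end

section
/-!
# Module EXL of Theorem W3 (MP_1aae89_al): extension of linear characters
-/
set_option autoImplicit false

namespace Pool.Agent.Lib.MP_1aae89_al.W3

open Pool.Agent.Lib.MP_1aae89_al Pool.Agent.Lib.MP_1aae89_al.BF Finset
open Pool.Agent.Lib.MP_1aae89_al.W (GC LD nR)
open Pool.Agent.Lib.MP1aae89 (Pex)

namespace EXL

/-- decomposition of the elements of `H0 P'` -/
theorem dec {Y : Type} [Group Y] (H0 P' : Subgroup Y) [H0.Normal] (z : ↥(H0 ⊔ P')) :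
    ∃ x : P', ∃ h ∈ H0, (z : Y) = x * h := by
  have hz : (z : Y) ∈ P' ⊔ H0 := by
    have h1 := z.2
    have h2 : H0 ⊔ P' = P' ⊔ H0 := sup_comm _ _
    exact h2 ▸ h1
  rw [← SetLike.mem_coe, Subgroup.mul_normal] at hz
  obtain ⟨x, hx, h, hh, hz⟩ := hz
  exact ⟨⟨x, hx⟩, h, hh, hz.symm⟩

end EXL

/-- EXL. -/
theorem specEXL : SpecEXL := by
  intro Y _ H0 P' _ η hη
  choose x h hh hz using EXL.dec H0 P'
  have key : ∀ (a b : P') (u v : Y), u ∈ H0 → v ∈ H0 → (a : Y) * u = b * v → η a = η b := by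
    intro a b u v hu hv hab
    have h1 : ((b⁻¹ * a : P') : Y) ∈ H0 := by
      have h2 : ((b⁻¹ * a : P') : Y) = v * u⁻¹ := by
        rw [Subgroup.coe_mul, Subgroup.coe_inv]
        have h3 : (a : Y) = b * v * u⁻¹ := by rw [← hab]; group
        rw [h3]; group
      rw [h2]
      exact H0.mul_mem hv (H0.inv_mem hu)
    have h4 := hη _ h1
    rw [map_mul, map_inv] at h4
    exact (inv_mul_eq_one.1 h4).symm
  let η' : Lin ↥(H0 ⊔ P') := MonoidHom.mk' (fun z => η (x z)) (by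
    intro z w
    rw [← map_mul]
    refine key _ _ (h (z * w)) (((x w : Y)⁻¹ * h z * x w) * h w) (hh _) ?_ ?_
    · refine H0.mul_mem ?_ (hh w)
      have := (inferInstance : H0.Normal).conj_mem (h z) (hh z) (x w : Y)⁻¹
      simpa using this
    · rw [← hz (z * w)]
      show ((z * w : ↥(H0 ⊔ P')) : Y) = _
      rw [Subgroup.coe_mul, hz z, hz w, Subgroup.coe_mul]
      group)
  refine ⟨η', ?_, ?_⟩
  · intro z hzH
    show η (x z) = 1
    apply hη
    have h1 : (x z : Y) = z * (h z)⁻¹ := by rw [hz z]; group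
    rw [h1]
    exact H0.mul_mem hzH (H0.inv_mem (hh z))
  · intro y z hzy
    show η (x z) = η y
    refine key _ _ (h z) 1 (hh z) H0.one_mem ?_
    rw [← hz z, hzy, mul_one]

end Pool.Agent.Lib.MP_1aae89_al.W3
end

section
/-!
# EXT: the central extension of a representation which is isotypic on a normal subgroup
-/
set_option autoImplicit false

namespace Pool.Agent.Lib.MP_1aae89_al.W3

open Pool.Agent.Lib.MP_1aae89_al Pool.Agent.Lib.MP_1aae89_al.BF Finset
open scoped Kronecker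

namespace EXTM

section

variable {X : Type} [Group X] {H : Subgroup X} [H.Normal] {m : ℕ}

/-- the group of the pairs `(x, A)` with `A r'(h) = r'(x h x⁻¹) A`, `det(A)^M = 1` -/
def YG (r' : H →* Matrix (Fin m) (Fin m) ℂ) (M : ℕ) :
    Subgroup (X × (Matrix (Fin m) (Fin m) ℂ)ˣ) where
  carrier := {y | (∀ h : H, (y.2 : Matrix (Fin m) (Fin m) ℂ) * r' h =
    r' (MulAut.conjNormal y.1 h) * y.2) ∧ (y.2 : Matrix (Fin m) (Fin m) ℂ).det ^ M = 1}
  one_mem' := by
    refine ⟨fun h => ?_, ?_⟩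
    · simp
    · simp
  mul_mem' := by
    rintro ⟨x, A⟩ ⟨y, B⟩ ⟨h1, h2⟩ ⟨h3, h4⟩
    refine ⟨fun h => ?_, ?_⟩
    · change (A * B : (Matrix (Fin m) (Fin m) ℂ)ˣ).val * r' h = r' (MulAut.conjNormal (x * y) h) * _
      rw [Units.val_mul, Matrix.mul_assoc, h3 h, ← Matrix.mul_assoc, h1, Matrix.mul_assoc, map_mul]
      rfl
    · change (A * B : (Matrix (Fin m) (Fin m) ℂ)ˣ).val.det ^ M = 1
      rw [Units.val_mul, Matrix.det_mul, mul_pow]
      have h5 : (A : Matrix (Fin m) (Fin m) ℂ).det ^ M = 1 := h2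
      have h6 : (B : Matrix (Fin m) (Fin m) ℂ).det ^ M = 1 := h4
      rw [h5, h6, one_mul]
  inv_mem' := by
    rintro ⟨x, A⟩ ⟨h1, h2⟩
    refine ⟨fun h => ?_, ?_⟩
    · change (A⁻¹ : (Matrix (Fin m) (Fin m) ℂ)ˣ).val * r' h = r' (MulAut.conjNormal x⁻¹ h) * _
      have h3 := h1 (MulAut.conjNormal x⁻¹ h)
      have h4 : MulAut.conjNormal x (MulAut.conjNormal x⁻¹ h) = h := by
        rw [← MulAut.mul_apply, ← map_mul, mul_inv_cancel, map_one, MulAut.one_apply]
      change (A : Matrix (Fin m) (Fin m) ℂ) * r' (MulAut.conjNormal x⁻¹ h) =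
        r' (MulAut.conjNormal x (MulAut.conjNormal x⁻¹ h)) * (A : Matrix (Fin m) (Fin m) ℂ) at h3
      rw [h4] at h3
      calc (A⁻¹ : (Matrix (Fin m) (Fin m) ℂ)ˣ).val * r' h
          = (A⁻¹ : (Matrix (Fin m) (Fin m) ℂ)ˣ).val * (r' h * A) *
            (A⁻¹ : (Matrix (Fin m) (Fin m) ℂ)ˣ).val := by
            rw [Matrix.mul_assoc, Matrix.mul_assoc, Units.mul_inv, Matrix.mul_one]
        _ = (A⁻¹ : (Matrix (Fin m) (Fin m) ℂ)ˣ).val * A * r' (MulAut.conjNormal x⁻¹ h) *
            (A⁻¹ : (Matrix (Fin m) (Fin m) ℂ)ˣ).val := by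
            rw [← h3]
            simp only [Matrix.mul_assoc]
        _ = r' (MulAut.conjNormal x⁻¹ h) * (A⁻¹ : (Matrix (Fin m) (Fin m) ℂ)ˣ).val := by
            rw [Units.inv_mul, Matrix.one_mul]
    · change (A⁻¹ : (Matrix (Fin m) (Fin m) ℂ)ˣ).val.det ^ M = 1
      have h3 : (A⁻¹ : (Matrix (Fin m) (Fin m) ℂ)ˣ).val.det *
          (A : Matrix (Fin m) (Fin m) ℂ).det = 1 := by
        rw [← Matrix.det_mul, Units.inv_mul, Matrix.det_one]
      have h4 := congrArg (fun c => c ^ M) h3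
      have h5 : (A : Matrix (Fin m) (Fin m) ℂ).det ^ M = 1 := h2
      simp only [mul_pow, h5, mul_one, one_pow] at h4
      exact h4

/-- the projection to `X` -/
def ff (r' : H →* Matrix (Fin m) (Fin m) ℂ) (M : ℕ) : YG r' M →* X :=
  (MonoidHom.fst _ _).comp (YG r' M).subtype

/-- the representation `A` -/
def aa (r' : H →* Matrix (Fin m) (Fin m) ℂ) (M : ℕ) : YG r' M →* Matrix (Fin m) (Fin m) ℂ :=
  (Units.coeHom _).comp ((MonoidHom.snd _ _).comp (YG r' M).subtype)

/-- the copy of `H` -/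
def hh (r' : H →* Matrix (Fin m) (Fin m) ℂ) (M : ℕ) : Subgroup (YG r' M) where
  carrier := {y | ∃ h : H, ff r' M y = h ∧ aa r' M y = r' h}
  one_mem' := ⟨1, by simp, by simp⟩
  mul_mem' := by
    rintro a b ⟨h, h1, h2⟩ ⟨k, h3, h4⟩
    exact ⟨h * k, by rw [map_mul, h1, h3]; rfl, by rw [map_mul, h2, h4, map_mul]⟩
  inv_mem' := by
    rintro a ⟨h, h1, h2⟩
    refine ⟨h⁻¹, by rw [map_inv, h1]; rfl, ?_⟩
    have h3 := inv_mul_r (aa r' M) a
    have h4 := mul_inv_r r' h
    calc aa r' M a⁻¹ = aa r' M a⁻¹ * (r' h * r' h⁻¹) := by rw [h4, Matrix.mul_one]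
      _ = r' h⁻¹ := by rw [← Matrix.mul_assoc, ← h2, h3, Matrix.one_mul]

theorem aa_comm {r' : H →* Matrix (Fin m) (Fin m) ℂ} {M : ℕ} (y : YG r' M) (h : H) :
    aa r' M y * r' h = r' (MulAut.conjNormal (ff r' M y) h) * aa r' M y := y.2.1 h

theorem aa_det {r' : H →* Matrix (Fin m) (Fin m) ℂ} {M : ℕ} (y : YG r' M) :
    (aa r' M y).det ^ M = 1 := y.2.2

theorem y_ext {r' : H →* Matrix (Fin m) (Fin m) ℂ} {M : ℕ} {y z : YG r' M}
    (h1 : ff r' M y = ff r' M z) (h2 : aa r' M y = aa r' M z) : y = z :=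
  Subtype.ext (Prod.ext h1 (Units.ext h2))

/-- kernel elements are scalar -/
theorem ker_scalar {r' : H →* Matrix (Fin m) (Fin m) ℂ} {M : ℕ} (hr' : Sch r') (y : YG r' M)
    (hy : ff r' M y = 1) : ∃ c : ℂ, aa r' M y = c • (1 : Matrix (Fin m) (Fin m) ℂ) ∧
      (c ^ m) ^ M = 1 := by
  obtain ⟨c, hc⟩ := hr' (aa r' M y) fun h => by
    have h1 := aa_comm y h
    rw [hy, map_one, MulAut.one_apply] at h1
    exact h1
  refine ⟨c, hc, ?_⟩
  have h2 := aa_det y
  rwa [hc, Matrix.det_smul, Matrix.det_one, mul_one, Fintype.card_fin] at h2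

theorem ker_cen {r' : H →* Matrix (Fin m) (Fin m) ℂ} {M : ℕ} (hr' : Sch r') (y : YG r' M)
    (hy : ff r' M y = 1) (z : YG r' M) : y * z = z * y := by
  obtain ⟨c, hc, -⟩ := ker_scalar hr' y hy
  refine y_ext ?_ ?_
  · rw [map_mul, map_mul, hy, one_mul, mul_one]
  · rw [map_mul, map_mul, hc, Matrix.smul_mul, Matrix.mul_smul, Matrix.one_mul, Matrix.mul_one]

theorem ker_pow {r' : H →* Matrix (Fin m) (Fin m) ℂ} {M : ℕ} (hr' : Sch r') (y : YG r' M)
    (hy : ff r' M y = 1) : y ^ (m * M) = 1 := by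
  obtain ⟨c, hc, h1⟩ := ker_scalar hr' y hy
  refine y_ext ?_ ?_
  · rw [map_pow, hy, one_pow, map_one]
  · rw [map_pow, hc, smul_pow, one_pow, pow_mul, h1, one_smul, map_one]

theorem ker_finite {r' : H →* Matrix (Fin m) (Fin m) ℂ} {M : ℕ} (hr' : Sch r') (hm : m ≠ 0)
    (hM : M ≠ 0) : Finite (ff r' M).ker := by
  have a0 : Fin m := ⟨0, Nat.pos_of_ne_zero hm⟩
  have : NeZero (m * M) := ⟨mul_ne_zero hm hM⟩
  have hfin : ((Polynomial.nthRootsFinset (m * M) (1 : ℂ) : Finset ℂ) : Set ℂ).Finite :=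
    Finset.finite_toSet _
  have hfin' : Finite ((Polynomial.nthRootsFinset (m * M) (1 : ℂ) : Finset ℂ) : Set ℂ) :=
    hfin.to_subtype
  refine Finite.of_injective (β := ((Polynomial.nthRootsFinset (m * M) (1 : ℂ) : Finset ℂ) : Set ℂ))
    (fun y => ⟨aa r' M (y : YG r' M) a0 a0, ?_⟩) ?_
  · obtain ⟨c, hc, h1⟩ := ker_scalar hr' (y : YG r' M) y.2
    rw [Finset.mem_coe, Polynomial.mem_nthRootsFinset (Nat.pos_of_ne_zero (mul_ne_zero hm hM)), hc,
      Matrix.smul_apply, Matrix.one_apply_eq, smul_eq_mul, mul_one, pow_mul, h1]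
  · intro y z h
    have h0 : aa r' M (y : YG r' M) a0 a0 = aa r' M (z : YG r' M) a0 a0 := congrArg Subtype.val h
    obtain ⟨c, hc, -⟩ := ker_scalar hr' (y : YG r' M) y.2
    obtain ⟨d, hd, -⟩ := ker_scalar hr' (z : YG r' M) z.2
    rw [hc, hd, Matrix.smul_apply, Matrix.smul_apply, Matrix.one_apply_eq, smul_eq_mul, smul_eq_mul,
      mul_one, mul_one] at h0
    refine Subtype.ext (y_ext ?_ ?_)
    · rw [(MonoidHom.mem_ker.1 y.2 : ff r' M (y : YG r' M) = 1),
        (MonoidHom.mem_ker.1 z.2 : ff r' M (z : YG r' M) = 1)]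
    · rw [hc, hd, h0]

theorem y_finite [Finite X] {r' : H →* Matrix (Fin m) (Fin m) ℂ} {M : ℕ} (hr' : Sch r')
    (hm : m ≠ 0) (hM : M ≠ 0) : Finite (YG r' M) := by
  have h1 := ker_finite (M := M) hr' hm hM
  have h2 : Finite (YG r' M ⧸ (ff r' M).ker) :=
    Finite.of_injective _ (QuotientGroup.kerLift_injective (ff r' M))
  exact Finite.of_equiv _ (Subgroup.groupEquivQuotientProdSubgroup (s := (ff r' M).ker)).symm

end

theorem kron_cancel_right {e m : ℕ} {z z' : Matrix (Fin e) (Fin e) ℂ}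
    {A : Matrix (Fin m) (Fin m) ℂ} (hA : A ≠ 0) (h : z ⊗ₖ A = z' ⊗ₖ A) : z = z' := by
  have h1 : ∃ a b, A a b ≠ 0 := by
    by_contra hall
    push Not at hall
    exact hA (Matrix.ext hall)
  obtain ⟨a, b, hab⟩ := h1
  ext i j
  have h2 := congrFun (congrFun h (i, a)) (j, b)
  rw [Matrix.kroneckerMap_apply, Matrix.kroneckerMap_apply] at h2
  exact mul_right_cancel₀ hab h2

theorem one_ne {m : ℕ} (hm : m ≠ 0) : (1 : Matrix (Fin m) (Fin m) ℂ) ≠ 0 := by
  intro h
  have := congrFun (congrFun h ⟨0, Nat.pos_of_ne_zero hm⟩) ⟨0, Nat.pos_of_ne_zero hm⟩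
  rw [Matrix.one_apply_eq, Matrix.zero_apply] at this
  exact one_ne_zero this

/-- `gcd(e M, |X|)` divides `M` -/
theorem gcd_dvd {p L c k : ℕ} (hp : p.Prime) (hL : L ≠ 0) (hc : c ∣ L) (hk : ¬ p ∣ k) :
    Nat.gcd c (k * ordCompl[p] L) ∣ ordCompl[p] L := by
  have h1 : Nat.gcd c (k * ordCompl[p] L) ∣ ordProj[p] L * ordCompl[p] L := by
    rw [Nat.ordProj_mul_ordCompl_eq_self]
    exact (Nat.gcd_dvd_left _ _).trans hc
  refine Nat.Coprime.dvd_of_dvd_mul_left ?_ h1
  refine Nat.Coprime.pow_right _ ?_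
  refine Nat.Coprime.coprime_dvd_left (Nat.gcd_dvd_right _ _) ?_
  refine Nat.Coprime.mul_left ?_ ?_
  · exact ((Nat.Prime.coprime_iff_not_dvd hp).2 hk).symm
  · exact (Nat.coprime_ordCompl hp hL).symm

end EXTM

open EXTM in
theorem specEXT : SpecEXT := by
  intro p hp L hL X _ _ hXL H _ n e m hn hpn r hr r' hr' Q Q' h1 h2 h3 hdet
  classical
  have hn0 : n ≠ 0 := by rintro rfl; exact hpn (dvd_zero _)
  have he : e ≠ 0 := by rintro rfl; exact hn0 (by rw [hn, zero_mul])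
  have hm : m ≠ 0 := by rintro rfl; exact hn0 (by rw [hn, mul_zero])
  have hpm : ¬ p ∣ m := fun h => hpn (hn ▸ h.mul_left _)
  have hpe : ¬ p ∣ e := fun h => hpn (hn ▸ h.mul_right _)
  set M := ordCompl[p] L with hM
  have hM0 : M ≠ 0 := (Nat.ordCompl_pos p hL).ne'
  have hpM : ¬ p ∣ M := Nat.not_dvd_ordCompl hp hL
  set ρ := cjr r Q Q' h1 h2 with hρd
  have hρa : ∀ x, ρ x = Q' * r x * Q := fun x => rfl
  have hρh : ∀ l : H, ρ l = (1 : Matrix (Fin e) (Fin e) ℂ) ⊗ₖ r' l := by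
    intro l
    rw [hρa, Matrix.mul_assoc, h3, ← Matrix.mul_assoc, h2, Matrix.one_mul]
  have hρtr : ∀ x, (ρ x).trace = (r x).trace := by
    intro x
    rw [hρa, Matrix.mul_assoc, Matrix.trace_mul_comm, Matrix.mul_assoc, h1, Matrix.mul_one]
  have hρdet : ∀ x, (ρ x).det = (r x).det := fun x =>
    Matrix.det_conj_of_mul_eq_one (M := Q') (M' := Q) (N := r x) h2 h1
  have hfin : Finite ↥(YG r' M) := y_finite hr' hm hM0
  -- the decomposition
  have hcard : Nat.card X ≠ 0 := Nat.card_pos.ne'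
  have hdec : ∀ x : X, ∃ (z : Matrix (Fin e) (Fin e) ℂ) (A A' : Matrix (Fin m) (Fin m) ℂ),
      A' * A = 1 ∧ A * A' = 1 ∧ ρ x = z ⊗ₖ A ∧
      ∀ l, A * r' l = r' (MulAut.conjNormal x l) * A := by
    intro x
    obtain ⟨z, A, A', a1, a2, a3, -, -, a4⟩ := decomp he hm ρ hr' hρh hcard x
      (by rw [pow_card_eq_one']; exact H.one_mem)
    exact ⟨z, A, A', a1, a2, a3, a4⟩
  have hAne : ∀ y : YG r' M, aa r' M y ≠ 0 := by
    intro y h
    have h4 := inv_mul_r (aa r' M) y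
    rw [h, Matrix.mul_zero] at h4
    exact one_ne hm h4.symm
  have hZex : ∀ y : YG r' M, ∃ z : Matrix (Fin e) (Fin e) ℂ,
      ρ (ff r' M y) = z ⊗ₖ aa r' M y := by
    intro y
    obtain ⟨z, A, A', a1, a2, a3, a4⟩ := hdec (ff r' M y)
    have a5 : ∀ l, A' * r' (MulAut.conjNormal (ff r' M y) l) = r' l * A' := by
      intro l
      calc A' * r' (MulAut.conjNormal (ff r' M y) l)
          = A' * (r' (MulAut.conjNormal (ff r' M y) l) * A) * A' := by
            rw [Matrix.mul_assoc, Matrix.mul_assoc, a2, Matrix.mul_one]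
        _ = r' l * A' := by rw [← a4, ← Matrix.mul_assoc, a1, Matrix.one_mul]
    obtain ⟨c, hc⟩ := hr' (A' * aa r' M y) fun l => by
      rw [Matrix.mul_assoc, aa_comm, ← Matrix.mul_assoc, a5, Matrix.mul_assoc]
    have hc1 : aa r' M y = c • A := by
      calc aa r' M y = A * (A' * aa r' M y) := by rw [← Matrix.mul_assoc, a2, Matrix.one_mul]
        _ = c • A := by rw [hc, Matrix.mul_smul, Matrix.mul_one]
    have hc0 : c ≠ 0 := by
      rintro rfl
      exact hAne y (by rw [hc1, zero_smul])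
    refine ⟨c⁻¹ • z, ?_⟩
    rw [hc1, Matrix.smul_kronecker, Matrix.kronecker_smul, smul_smul, inv_mul_cancel₀ hc0, one_smul,
      a3]
  choose Zf hZf using hZex
  have hZu : ∀ (y : YG r' M) (z : Matrix (Fin e) (Fin e) ℂ), ρ (ff r' M y) = z ⊗ₖ aa r' M y →
      Zf y = z := fun y z h => kron_cancel_right (hAne y) ((hZf y).symm.trans h)
  let Z : YG r' M →* Matrix (Fin e) (Fin e) ℂ :=
    { toFun := Zf
      map_one' := hZu 1 1 (by rw [map_one, map_one, map_one, Matrix.one_kronecker_one])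
      map_mul' := fun a b => hZu (a * b) (Zf a * Zf b) (by
        rw [map_mul, map_mul, hZf, hZf, ← Matrix.mul_kronecker_mul, ← map_mul]) }
  have hZa : ∀ y, ρ (ff r' M y) = Z y ⊗ₖ aa r' M y := hZf
  -- surjectivity
  have hsurj : Function.Surjective (ff r' M) := by
    intro x
    obtain ⟨z, A, A', a1, a2, a3, a4⟩ := hdec x
    have hd0 : A.det ≠ 0 := by
      intro h
      have := congrArg Matrix.det a1
      rw [Matrix.det_mul, h, mul_zero, Matrix.det_one] at this
      exact zero_ne_one this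
    obtain ⟨c, hc⟩ := IsAlgClosed.exists_pow_nat_eq (A.det)⁻¹ (Nat.pos_of_ne_zero hm)
    have hc0 : c ≠ 0 := by
      rintro rfl
      rw [zero_pow hm] at hc
      exact inv_ne_zero hd0 hc.symm
    refine ⟨⟨(x, ⟨c • A, c⁻¹ • A', ?_, ?_⟩), ?_, ?_⟩, rfl⟩
    · rw [Matrix.smul_mul, Matrix.mul_smul, smul_smul, mul_inv_cancel₀ hc0, one_smul, a2]
    · rw [Matrix.smul_mul, Matrix.mul_smul, smul_smul, inv_mul_cancel₀ hc0, one_smul, a1]
    · intro l
      change (c • A) * r' l = r' (MulAut.conjNormal x l) * (c • A)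
      rw [Matrix.smul_mul, Matrix.mul_smul, a4]
    · change (c • A).det ^ M = 1
      rw [Matrix.det_smul, Fintype.card_fin, hc, inv_mul_cancel₀ hd0, one_pow]
  -- the copy of `H`
  have hdet' : ∀ h : H, (r' h).det ^ M = 1 := by
    intro h
    have b1 : (r' h).det ^ (e * M) = 1 := by
      have b2 := hdet (h : X)
      rw [← hρdet, hρh, Matrix.det_kronecker, Matrix.det_one, one_pow, one_mul, Fintype.card_fin,
        ← pow_mul] at b2
      exact b2
    have b3 : (r' h).det ^ Nat.card X = 1 := by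
      have b4 : h ^ Nat.card X = 1 := by
        apply Subtype.ext
        rw [Subgroup.coe_pow, pow_card_eq_one']
        rfl
      rw [← Matrix.det_pow, ← map_pow, b4, map_one, Matrix.det_one]
    have b5 := pow_gcd_eq_one.2 ⟨b3, b1⟩
    obtain ⟨k, hk⟩ := gcd_dvd hp hL hXL hpe
    rw [hM, hk, pow_mul, b5, one_pow]
  have hmk : ∀ h : H, ∃ y : YG r' M, ff r' M y = h ∧ aa r' M y = r' h := by
    intro h
    refine ⟨⟨((h : X), ⟨r' h, r' h⁻¹, mul_inv_r r' h, inv_mul_r r' h⟩), ?_, ?_⟩, rfl, rfl⟩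
    · intro l
      change r' h * r' l = r' (MulAut.conjNormal (h : X) l) * r' h
      rw [← map_mul, ← map_mul]
      congr 1
      apply Subtype.ext
      rw [Subgroup.coe_mul, Subgroup.coe_mul, MulAut.conjNormal_apply]
      group
    · exact hdet' h
  refine ⟨YG r' M, inferInstance, hfin, ff r' M, hh r' M, Z, aa r' M, ?_⟩
  refine ⟨hsurj, fun y hy z => ker_cen hr' y hy z, ?_, ?_, ?_, ?_, ?_, ?_, ?_, ?_, aa_det⟩
  · -- the order of the kernel
    have hkf : Finite (ff r' M).ker := ker_finite hr' hm hM0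
    rw [Nat.coprime_comm, Nat.Prime.coprime_iff_not_dvd hp]
    intro hdvd
    have : Fact p.Prime := ⟨hp⟩
    obtain ⟨y, hy⟩ := exists_prime_orderOf_dvd_card' (G := (ff r' M).ker) p hdvd
    have h4 : y ^ (m * M) = 1 := by
      apply Subtype.ext
      rw [Subgroup.coe_pow]
      exact ker_pow hr' (y : YG r' M) y.2
    have h5 := orderOf_dvd_of_pow_eq_one h4
    rw [hy] at h5
    rcases (Nat.Prime.dvd_mul hp).1 h5 with h6 | h6
    · exact hpm h6
    · exact hpM h6
  · -- normality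
    constructor
    rintro y ⟨h, h4, h5⟩ g
    refine ⟨MulAut.conjNormal (ff r' M g) h, ?_, ?_⟩
    · rw [map_mul, map_mul, map_inv, h4, MulAut.conjNormal_apply]
    · rw [map_mul, map_mul, h5, aa_comm, Matrix.mul_assoc, mul_inv_r, Matrix.mul_one]
  · -- the image
    apply le_antisymm
    · rintro _ ⟨y, ⟨h, h4, -⟩, rfl⟩
      rw [h4]
      exact h.2
    · intro x hx
      obtain ⟨y, h4, h5⟩ := hmk ⟨x, hx⟩
      exact ⟨y, ⟨⟨x, hx⟩, h4, h5⟩, h4⟩
  · rintro y ⟨h, h4, h5⟩ h6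
    have h7 : h = 1 := by
      apply Subtype.ext
      rw [← h4, h6]
      rfl
    refine y_ext (by rw [h6, map_one]) ?_
    rw [h5, h7, map_one, map_one]
  · intro y
    rw [← hρtr, hZa, Matrix.trace_kronecker]
  · rintro y ⟨h, h4, h5⟩ hf
    rw [h5]
    congr 1
    exact Subtype.ext h4.symm
  · rintro y ⟨h, h4, h5⟩
    change Zf y = 1
    exact hZu y 1 (by rw [h4, h5, hρh])
  · -- `Z` is `Sch`
    intro C hC
    have h4 : ∀ x, (C ⊗ₖ (1 : Matrix (Fin m) (Fin m) ℂ)) * ρ x =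
        ρ x * (C ⊗ₖ (1 : Matrix (Fin m) (Fin m) ℂ)) := by
      intro x
      obtain ⟨y, rfl⟩ := hsurj x
      rw [hZa, ← Matrix.mul_kronecker_mul, ← Matrix.mul_kronecker_mul, Matrix.one_mul,
        Matrix.mul_one, hC]
    obtain ⟨c, hc⟩ := hr (Q * (C ⊗ₖ (1 : Matrix (Fin m) (Fin m) ℂ)) * Q') fun x => by
      have h5 : r x = Q * ρ x * Q' := by
        rw [hρa]
        calc r x = (Q * Q') * r x * (Q * Q') := by rw [h1, Matrix.one_mul, Matrix.mul_one]
          _ = _ := by simp only [Matrix.mul_assoc]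
      rw [h5]
      calc Q * (C ⊗ₖ (1 : Matrix (Fin m) (Fin m) ℂ)) * Q' * (Q * ρ x * Q')
          = Q * (C ⊗ₖ (1 : Matrix (Fin m) (Fin m) ℂ)) * (Q' * Q) * ρ x * Q' := by
            simp only [Matrix.mul_assoc]
        _ = Q * ((C ⊗ₖ (1 : Matrix (Fin m) (Fin m) ℂ)) * ρ x) * Q' := by
            rw [h2, Matrix.mul_one]
            simp only [Matrix.mul_assoc]
        _ = Q * ρ x * (Q' * Q) * (C ⊗ₖ (1 : Matrix (Fin m) (Fin m) ℂ)) * Q' := by
            rw [h4, h2, Matrix.mul_one]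
            simp only [Matrix.mul_assoc]
        _ = _ := by simp only [Matrix.mul_assoc]
    refine ⟨c, ?_⟩
    have h6 : C ⊗ₖ (1 : Matrix (Fin m) (Fin m) ℂ) =
        (c • (1 : Matrix (Fin e) (Fin e) ℂ)) ⊗ₖ (1 : Matrix (Fin m) (Fin m) ℂ) := by
      calc C ⊗ₖ (1 : Matrix (Fin m) (Fin m) ℂ)
          = (Q' * Q) * (C ⊗ₖ (1 : Matrix (Fin m) (Fin m) ℂ)) * (Q' * Q) := by
            rw [h2, Matrix.one_mul, Matrix.mul_one]
        _ = Q' * (Q * (C ⊗ₖ (1 : Matrix (Fin m) (Fin m) ℂ)) * Q') * Q := by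
            simp only [Matrix.mul_assoc]
        _ = _ := by
            rw [hc, Matrix.mul_smul, Matrix.mul_one, Matrix.smul_mul, h2, Matrix.smul_kronecker,
              Matrix.one_kronecker_one]
    exact kron_cancel_right (one_ne hm) h6

end Pool.Agent.Lib.MP_1aae89_al.W3
end

section
/-!
# Module FN2: the main inequality
-/
set_option autoImplicit false

namespace Pool.Agent.Lib.MP_1aae89_al.W3

open Pool.Agent.Lib.MP_1aae89_al Pool.Agent.Lib.MP_1aae89_al.BF Finset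
open Pool.Agent.Lib.MP_1aae89_al.W (GC LD nR)
open Pool.Agent.Lib.MP1aae89 (Pex)

namespace FN2M

theorem nR_pos {X : Type} [Group X] [Finite X] (P : Subgroup X) (q : ℕ) : 0 < nR P q := by
  unfold nR
  have : Nonempty {z : X // ∃ x ∈ P, x ^ q = z} := ⟨⟨1, 1, P.one_mem, one_pow q⟩⟩
  exact Nat.card_pos

/-- if `p` does not divide `dl` then `K` is trivial on the elements of order dividing `q` -/
theorem kq {X : Type} [Group X] [Finite X] (P : Subgroup X) (p q : ℕ) (χ : P → ℂ) (K : Lin X)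
    (h : ¬ p ∣ dl q χ (resL P K)) : ∀ x ∈ P, x ^ q = 1 → K x = 1 := by
  classical
  intro x hx hxq
  have h1 : dl q χ (resL P K) ≠ 0 := by
    intro h0
    rw [h0] at h
    exact h (dvd_zero p)
  unfold dl at h1
  obtain ⟨η, hη, -⟩ := Finset.exists_ne_zero_of_sum_ne_zero h1
  have h2 : η ^ q = resL P K := (Finset.mem_filter.1 hη).2
  have h3 : (resL P K) ⟨x, hx⟩ = K x := rfl
  rw [← h3, ← h2]
  have h4 : (η ^ q) ⟨x, hx⟩ = η (⟨x, hx⟩ ^ q) := (map_pow η _ q).symm
  rw [h4]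
  have h5 : (⟨x, hx⟩ : P) ^ q = 1 := Subtype.ext hxq
  rw [h5, map_one]

/-- positivity -/
theorem pos (hPO2 : SpecPO2) (hNV2 : SpecNV2) (hSEC : SpecSEC) {p L s0 b : ℕ} {X : Type}
    [Group X] [Fintype X] {P : Subgroup X} {χ : X → ℂ} {K : Lin X} (hy : Hy p L s0 b P χ K)
    (hdl : ¬ p ∣ dl (p ^ (b - 1)) (fun x : P => χ x) (resL P K)) {u : X} (hu : u ∈ P) :
    ∃ x : ℝ, 0 < x ∧ BB p s0 b P χ K u = x := by
  classical
  refine ⟨_, ?_, hPO2 p L s0 b P χ K hy u⟩
  obtain ⟨x, hx, hne⟩ := hNV2 p L s0 b P χ K hy hdl u hu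
  have hS := (hSEC p hy.pp L s0 b hy.hb hy.hL hy.pex P hy.card hy.syl hy.comm).2.2.1 u hu x hx
  have h1 : (0 : ℝ) < nR P (p ^ (b - 1)) := by exact_mod_cast nR_pos P _
  have h2 : (0 : ℝ) < nR P (p ^ b) := by exact_mod_cast nR_pos P _
  have h3 : (0 : ℝ) < Fintype.card X := by exact_mod_cast Fintype.card_pos
  have h4 : 0 < ∑ y : X, (if Sec p s0 b P u y then ‖avK p s0 b χ K y‖ ^ 2 else 0) := by
    refine Finset.sum_pos' (fun y _ => ?_) ⟨u * x ^ p ^ (b - 1), Finset.mem_univ _, ?_⟩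
    · split_ifs <;> positivity
    · rw [if_pos hS]
      have := norm_pos_iff.2 hne
      positivity
  exact mul_pos (div_pos h1 h2) (mul_pos (inv_pos.2 h3) h4)

end FN2M

open FN2M

theorem specFN2 (hREL : SpecREL) (hSEC : SpecSEC) (hIN2 : SpecIN2) (hCY2 : SpecCY2)
    (hGL2 : SpecGL2) (hPO2 : SpecPO2) (hNV2 : SpecNV2) (hUP2 : SpecUP2) (hNR2 : SpecNR2) :
    SpecFN2 := by
  classical
  intro p hp L s0 b hb hL hpex X _ _ P hcard hP hcomm hcrt n r hr hn hfx K hK hne
  by_contra hdl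
  let _ : Fintype X := Fintype.ofFinite X
  have : NeZero L := ⟨hL⟩
  set χ : X → ℂ := fun y => (r y).trace with hχ
  have hy : Hy p L s0 b P χ K :=
    { pp := hp, hb := hb, hL := hL, card := hcard, pex := hpex, syl := hP, comm := hcomm
      char := isCharacter_trace r, fx := hfx, kp := hK
      kq := kq P p (p ^ (b - 1)) (fun x : P => (r x).trace) K hdl }
  have hn0 : n ≠ 0 := by
    intro h
    rw [h] at hn
    exact hn (dvd_zero p)
  have hpR : (0 : ℝ) < p := by exact_mod_cast hp.pos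
  have hcX : (0 : ℝ) < Fintype.card X := by exact_mod_cast Fintype.card_pos
  have hn1 : (0 : ℝ) < nR P (p ^ (b - 1)) := by exact_mod_cast nR_pos P _
  have hn2 : (0 : ℝ) < nR P (p ^ b) := by exact_mod_cast nR_pos P _
  obtain ⟨hrefl, hsymm, htrans, hpow⟩ := hREL p b P hcomm
  have hzL : ∀ z : X, z ^ L = 1 := by
    intro z
    obtain ⟨c, hc⟩ := hcard
    rw [hc, pow_mul, pow_card_eq_one', one_pow]
  have hcopL : ∀ k : (ZMod L)ˣ, (k : ZMod L).val.Coprime L := fun k => ZMod.val_coe_unit_coprime k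
  let act : MulAction (ZMod L)ˣ P :=
    { smul := fun k z => ⟨(z : X) ^ (k : ZMod L).val, P.pow_mem z.2 _⟩
      one_smul := by
        intro z
        refine Subtype.ext ?_
        show (z : X) ^ ((1 : (ZMod L)ˣ) : ZMod L).val = z.1
        rw [Units.val_one, ← Nat.cast_one, ZMod.val_natCast, W.FIN.pow_val (hzL _), pow_one]
      mul_smul := by
        intro k k' z
        refine Subtype.ext ?_
        show (z : X) ^ ((k * k' : (ZMod L)ˣ) : ZMod L).val =
          ((z : X) ^ (k' : ZMod L).val) ^ (k : ZMod L).val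
        rw [Units.val_mul, ZMod.val_mul, W.FIN.pow_val (hzL _), mul_comm, pow_mul] }
  have hsmul : ∀ (k : (ZMod L)ˣ) (z : P), (((k • z : P)) : X) = (z : X) ^ (k : ZMod L).val :=
    fun k z => rfl
  let st : Setoid P :=
    { r := fun z z' => Rel p b P z z'
      iseqv := ⟨fun z => hrefl z z.2, fun {z z'} h => hsymm z z.2 z' z'.2 h,
        fun {z z' z''} h h' => htrans z z.2 z' z'.2 z'' z''.2 h h'⟩ }
  let α : P → ℝ := fun z => (BB p s0 b P χ K z).re
  -- the lower bound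
  have hlow : ∀ z ∈ (Set.univ : Set P),
      (Fintype.card (ZMod L)ˣ : ℝ) ≤ ∑ k : (ZMod L)ˣ, α (k • z) := by
    intro z _
    have h0 := W.specAMG L (fun k => BB p s0 b P χ K ((z : X) ^ (k : ZMod L).val))
      (fun k => hIN2 p L s0 b P χ K hy _ (P.pow_mem z.2 _))
      (fun k => hCY2 p L s0 b P χ K hy _)
      (fun k => pos hPO2 hNV2 hSEC hy hdl (P.pow_mem z.2 _))
      (by
        intro jj σ hσ k
        have h1 := hGL2 p L s0 b P χ K hy _ (P.pow_mem z.2 (k : ZMod L).val) (jj : ZMod L).val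
          (hcopL jj) σ hσ
        show σ (BB p s0 b P χ K ((z : X) ^ (k : ZMod L).val)) =
          BB p s0 b P χ K ((z : X) ^ ((jj * k : (ZMod L)ˣ) : ZMod L).val)
        rw [h1]
        congr 1
        rw [Units.val_mul, ZMod.val_mul, W.FIN.pow_val (hzL _), mul_comm, pow_mul])
    exact h0
  -- the upper bound
  have hup : ∀ A : Finset P, (∀ x ∈ A, ∀ y ∈ A, st.r x y → x = y) →
      ∑ x ∈ A, α x ≤ (nR P (p ^ (b - 1)) : ℝ) / (nR P (p ^ b) : ℝ) / p := by
    intro A hA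
    have h1 := hUP2 p L s0 b P χ K hy (A.image Subtype.val)
      (by
        intro u hu
        obtain ⟨w, -, rfl⟩ := Finset.mem_image.1 hu
        exact w.2)
      (by
        intro u hu v hv huv
        obtain ⟨w, hw, rfl⟩ := Finset.mem_image.1 hu
        obtain ⟨w', hw', rfl⟩ := Finset.mem_image.1 hv
        rw [hA w hw w' hw' huv])
    rw [Finset.sum_image (fun a _ b _ h => Subtype.ext h)] at h1
    refine h1.trans ?_
    have h2 := hNR2 p L s0 b P n r K hr hn0 hy hne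
    calc (nR P (p ^ (b - 1)) : ℝ) / (nR P (p ^ b) : ℝ) *
          ((Fintype.card X : ℝ)⁻¹ * ∑ y, ‖avK p s0 b χ K y‖ ^ 2)
        ≤ (nR P (p ^ (b - 1)) : ℝ) / (nR P (p ^ b) : ℝ) *
          ((Fintype.card X : ℝ)⁻¹ * ((Fintype.card X : ℝ) / p)) := by
          refine mul_le_mul_of_nonneg_left (mul_le_mul_of_nonneg_left h2 ?_) ?_
          · positivity
          · positivity
      _ = (nR P (p ^ (b - 1)) : ℝ) / (nR P (p ^ b) : ℝ) / p := by
          field_simp
  have hfin := W.specCMB (X := P) (U := (ZMod L)ˣ) st (by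
      intro k x y hxy
      show Rel p b P ((x : X) ^ (k : ZMod L).val) ((y : X) ^ (k : ZMod L).val)
      exact hpow x x.2 y y.2 _ hxy) α Set.univ (fun _ _ _ => Set.mem_univ _)
    (fun x => ⟨x, Set.mem_univ _, hrefl x x.2⟩) hlow _ hup
  -- the contradiction
  obtain ⟨A, hAP, hAinj, hAcard⟩ := hcrt
  have hAle : A.card ≤ Nat.card (Quotient st) := by
    let f : A → Quotient st := fun u => Quotient.mk st ⟨u.1, hAP u.1 u.2⟩
    have hf : Function.Injective f := by
      intro u v huv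
      have h1 : Rel p b P u.1 v.1 := Quotient.exact huv
      exact Subtype.ext (hAinj u.1 u.2 v.1 v.2 h1)
    have h2 := Nat.card_le_card_of_injective f hf
    rwa [Nat.card_eq_fintype_card, Fintype.card_coe] at h2
  have h1 : (A.card : ℝ) ≤ (nR P (p ^ (b - 1)) : ℝ) / (nR P (p ^ b) : ℝ) / p :=
    (by exact_mod_cast hAle : (A.card : ℝ) ≤ (Nat.card (Quotient st) : ℝ)).trans hfin
  rw [le_div_iff₀ hpR, le_div_iff₀ hn2] at h1
  have h2 : (nR P (p ^ (b - 1)) : ℝ) < A.card * p * nR P (p ^ b) := by exact_mod_cast hAcard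
  linarith

end Pool.Agent.Lib.MP_1aae89_al.W3
end

section
/-!
# Module FUS: Burnside's fusion theorem
-/
set_option autoImplicit false

namespace Pool.Agent.Lib.MP_1aae89_al.W3

theorem specFUS : SpecFUS := by
  intro p hp X _ _ P hP hcomm a g ha hga
  have : Fact p.Prime := ⟨hp⟩
  let S : Sylow p X := Sylow.ofCard P hP
  have hcen : ∀ z ∈ P, z ∈ Subgroup.centralizer (P : Set X) := by
    intro z hz
    rw [Subgroup.mem_centralizer_iff]
    intro y hy
    exact hcomm y hy z hz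
  have h2 : g⁻¹⁻¹ * a * g⁻¹ = g * a * g⁻¹ := by rw [inv_inv]
  obtain ⟨n, hn, hn2⟩ := Sylow.conj_eq_normalizer_conj_of_mem_centralizer S a g⁻¹
    (hcen a ha) (by rw [h2]; exact hcen _ hga)
  have hn' : n ∈ Subgroup.normalizer (P : Set X) := hn
  refine ⟨n⁻¹, ?_, ?_⟩
  · intro x hx
    exact (Subgroup.mem_normalizer_iff.1 (inv_mem hn') x).1 hx
  · rw [inv_inv, ← hn2, h2]

end Pool.Agent.Lib.MP_1aae89_al.W3
end

section
/-!
# Module GBD: a normal subgroup without elements of order `p^b` with a `p`-group as quotient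
-/
set_option autoImplicit false

namespace Pool.Agent.Lib.MP_1aae89_al.W3

open Pool.Agent.Lib.MP_1aae89_al Pool.Agent.Lib.MP_1aae89_al.BF Finset
open Pool.Agent.Lib.MP1aae89 (Pex pp_pow)

/-- descent of exponents -/
theorem GBD_descend {Z : Type} [Group Z] {p b : ℕ} (F : Subgroup Z)
    (hF : ∀ x ∈ F, x ^ p ^ b = 1 → x ^ p ^ (b - 1) = 1) (hb : 1 ≤ b) {x : Z} (hx : x ∈ F) :
    ∀ j : ℕ, x ^ p ^ (b - 1 + j) = 1 → x ^ p ^ (b - 1) = 1 := by
  intro j
  induction j with
  | zero => intro h; simpa using h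
  | succ j ih =>
    intro h
    apply ih
    have h1 : (x ^ p ^ j) ^ p ^ b = 1 := by
      rw [← pow_mul, ← pow_add]
      have h2 : j + b = b - 1 + (j + 1) := by omega
      rw [h2]
      exact h
    have h3 := hF _ (F.pow_mem hx _) h1
    rw [← pow_mul, ← pow_add] at h3
    rw [add_comm]
    exact h3

theorem specGBD (hREC : SpecREC) (hGPG : SpecGPG) : SpecGBD := by
  intro p b hp hb Z _ _ F hFn hF hZ Y _ _ f hc hker hran b' hb'
  have hFp : Fact p.Prime := ⟨hp⟩
  have hHn : (F.comap f).Normal := hFn.comap f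
  refine hREC p b hp hb (F.comap f) ⟨hHn, Or.inl ?_, ?_⟩ b' hb'
  · intro L s0 hL hcard hs n r _ _ t y
    have hyL : y ^ L = 1 := by
      obtain ⟨k, hk⟩ := hcard
      rw [hk, pow_mul, pow_card_eq_one', one_pow]
    have key : y ^ (s0 * p ^ (b - 1)) = 1 := by
      have h1 : (y ^ s0) ^ ordProj[p] L = 1 := pp_pow hs hyL
      set g : Y := ((y ^ s0 : ↥(F.comap f)) : Y) with hg
      have hgF : f g ∈ F := (y ^ s0).2
      have h2 : g ^ p ^ L.factorization p = 1 := by
        have := congrArg Subtype.val h1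
        simpa [hg] using this
      have h3 : (f g) ^ p ^ (b - 1 + L.factorization p) = 1 := by
        rw [add_comm, pow_add, pow_mul, ← map_pow, h2, map_one, one_pow]
      have h4 := GBD_descend F hF (by omega) hgF _ h3
      have h5 : g ^ p ^ (b - 1) ∈ f.ker := by rw [MonoidHom.mem_ker, map_pow, h4]
      have h6 : (g ^ p ^ (b - 1)) ^ Nat.card f.ker = 1 := by
        have := congrArg Subtype.val (pow_card_eq_one' (x := (⟨_, h5⟩ : f.ker)))
        rwa [Subgroup.coe_pow] at this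
      have h7 : (g ^ p ^ (b - 1)) ^ p ^ L.factorization p = 1 := by
        rw [← pow_mul, mul_comm, pow_mul, h2, one_pow]
      have h8 : g ^ p ^ (b - 1) = 1 := by
        have e1 := orderOf_dvd_of_pow_eq_one h6
        have e2 := orderOf_dvd_of_pow_eq_one h7
        have e3 : (Nat.card f.ker).Coprime (p ^ L.factorization p) := hker.pow_right _
        exact orderOf_eq_one_iff.1 (Nat.eq_one_of_dvd_coprimes e3 e1 e2)
      apply Subtype.ext
      rw [pow_mul]
      exact h8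
    have h9 : y ^ (1 + s0 * p ^ (b - 1) * t) = y := by
      rw [pow_add, pow_one, pow_mul, key, one_pow, mul_one]
    rw [h9]
  · intro hN
    have hpg : IsPGroup p (Y ⧸ F.comap f) := by
      intro z
      obtain ⟨y, rfl⟩ := QuotientGroup.mk_surjective z
      obtain ⟨j, hj⟩ := hZ (f y)
      refine ⟨j, ?_⟩
      rw [← QuotientGroup.mk_pow, QuotientGroup.eq_one_iff, Subgroup.mem_comap, map_pow]
      exact hj
    obtain ⟨e, he⟩ := IsPGroup.iff_card.1 hpg
    exact hGPG p b hp hb e he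

end Pool.Agent.Lib.MP_1aae89_al.W3
end

section
/-!
# GCR: groups with an abelian Sylow subgroup which satisfies the criterion are good
-/
set_option autoImplicit false

namespace Pool.Agent.Lib.MP_1aae89_al.W3

open Pool.Agent.Lib.MP_1aae89_al Pool.Agent.Lib.MP_1aae89_al.BF Finset
open Pool.Agent.Lib.MP1aae89 (Pex)
open scoped Pointwise

/-- two Sylow subgroups are conjugate -/
theorem gcr_conj {p : ℕ} (hp : p.Prime) {Z : Type} [Group Z] [Finite Z] {P Q : Subgroup Z}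
    (hP : Nat.card P = p ^ (Nat.card Z).factorization p)
    (hQ : Nat.card Q = p ^ (Nat.card Z).factorization p) :
    ∃ g : Z, ∀ x, x ∈ Q ↔ g⁻¹ * x * g ∈ P := by
  have : Fact p.Prime := ⟨hp⟩
  obtain ⟨g, hg⟩ := MulAction.exists_smul_eq Z (Sylow.ofCard P hP) (Sylow.ofCard Q hQ)
  refine ⟨g, fun x => ?_⟩
  have h1 : (x ∈ (Sylow.ofCard Q hQ : Sylow p Z)) ↔ x ∈ Q := Iff.rfl
  rw [← h1, ← hg]
  have h2 : x ∈ (g • Sylow.ofCard P hP : Sylow p Z) ↔
      x ∈ (MulAut.conj g • (Sylow.ofCard P hP : Sylow p Z).toSubgroup) := Iff.rfl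
  rw [h2, Subgroup.mem_pointwise_smul_iff_inv_smul_mem]
  have h3 : (MulAut.conj g)⁻¹ • x = g⁻¹ * x * g := by
    rw [← map_inv, MulAut.smul_def, MulAut.conj_apply, inv_inv]
  rw [h3]
  exact Iff.rfl

theorem specGCR (hFN2 : SpecFN2) (hCRL : SpecCRL) (hCRJ : SpecCRJ) : SpecGCR := by
  intro p b hp hb Z _ _ P hP hab hcrt Y _ _ f hcen hker hind b' hb' L s0 hL hYL hs P' hP' n r hr
    hn hfx K hK hex
  have hfin : Finite (f.range) := inferInstance
  -- `f` is injective on `P'`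
  have hinj : ∀ x ∈ P', f x = 1 → x = 1 := by
    intro x hx hfx1
    have h1 : orderOf x ∣ Nat.card P' := by
      have := orderOf_dvd_natCard (⟨x, hx⟩ : P')
      rwa [← Subgroup.orderOf_coe] at this
    have h2 : orderOf x ∣ Nat.card f.ker := by
      have := orderOf_dvd_natCard (⟨x, (MonoidHom.mem_ker).2 hfx1⟩ : f.ker)
      rwa [← Subgroup.orderOf_coe] at this
    rw [hP'] at h1
    exact orderOf_eq_one_iff.1
      (Nat.eq_one_of_dvd_coprimes (hker.pow_right _).symm h1 h2)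
  -- the order of `f(P')`
  have hinj' : Function.Injective (f.subgroupMap P') := by
    rw [← MonoidHom.ker_eq_bot_iff, eq_bot_iff]
    rintro ⟨x, hx⟩ h1
    rw [MonoidHom.mem_ker] at h1
    have h2 : f x = 1 := congrArg Subtype.val h1
    rw [Subgroup.mem_bot]
    exact Subtype.ext (hinj x hx h2)
  have hcardP : Nat.card (P'.map f) = Nat.card P' :=
    (Nat.card_congr (Equiv.ofBijective _ ⟨hinj', f.subgroupMap_surjective P'⟩)).symm
  have hfac : (Nat.card Y).factorization p = (Nat.card Z).factorization p := by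
    have h1 : Nat.card Y = Nat.card f.ker * Nat.card f.range := by
      rw [← Subgroup.card_mul_index f.ker, Subgroup.index_ker]
    have h2 : Nat.card Z = Nat.card f.range * f.range.index := (Subgroup.card_mul_index _).symm
    have h3 : Nat.card f.ker ≠ 0 := Nat.card_pos.ne'
    have h4 : Nat.card f.range ≠ 0 := Nat.card_pos.ne'
    have h5 : f.range.index ≠ 0 := Subgroup.index_ne_zero_of_finite
    rw [h1, h2, Nat.factorization_mul h3 h4, Nat.factorization_mul h4 h5, Finsupp.add_apply,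
      Finsupp.add_apply, Nat.factorization_eq_zero_of_not_dvd hind,
      Nat.factorization_eq_zero_of_not_dvd, zero_add, add_zero]
    intro h
    have h6 := Nat.dvd_gcd h dvd_rfl
    rw [hker.gcd_eq_one] at h6
    exact hp.one_lt.ne' (Nat.dvd_one.1 h6)
  have hQ : Nat.card (P'.map f) = p ^ (Nat.card Z).factorization p := by
    rw [hcardP, hP', hfac]
  obtain ⟨g, hg⟩ := gcr_conj hp hP hQ
  have hcrt' : Crt p b' P' := hCRL p b' f P' hinj (hCRJ p b' P _ g hg (hcrt b' hb'))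
  have hab' : ∀ x ∈ P', ∀ y ∈ P', x * y = y * x := by
    intro x hx y hy
    have h1 := hab _ ((hg _).1 (Subgroup.mem_map_of_mem f hx)) _
      ((hg _).1 (Subgroup.mem_map_of_mem f hy))
    have h2 : f x * f y = f y * f x := by
      have h3 : g⁻¹ * (f x * f y) * g = g⁻¹ * (f y * f x) * g := by
        calc g⁻¹ * (f x * f y) * g = g⁻¹ * f x * g * (g⁻¹ * f y * g) := by group
          _ = g⁻¹ * f y * g * (g⁻¹ * f x * g) := h1
          _ = _ := by group
      exact mul_left_cancel (mul_right_cancel h3)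
    have h3 : x * y * (y * x)⁻¹ = 1 := by
      refine hinj _ (P'.mul_mem (P'.mul_mem hx hy) (P'.inv_mem (P'.mul_mem hy hx))) ?_
      rw [map_mul, map_inv, map_mul, map_mul, h2, mul_inv_cancel]
    exact mul_inv_eq_one.1 h3
  exact hFN2 p hp L s0 b' (hb.trans hb') hL hs P' hYL hP' hab' hcrt' n r hr hn hfx K hK hex

end Pool.Agent.Lib.MP_1aae89_al.W3
end

section
/-!
# Module GL2: the Galois conjugates of `BB u`
-/
set_option autoImplicit false

namespace Pool.Agent.Lib.MP_1aae89_al.W3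

open Pool.Agent.Lib.MP_1aae89_al Pool.Agent.Lib.MP_1aae89_al.BF Finset
open Pool.Agent.Lib.MP_1aae89_al.W (GC LD nR)
open Pool.Agent.Lib.MP1aae89 (Pex)

theorem specGL2 (hSEC : SpecSEC) : SpecGL2 := by
  classical
  intro p L s0 b X _ _ P χ K h u hu k hk σ hσ
  obtain ⟨-, -, -, hS, -, -⟩ := hSEC p h.pp L s0 b h.hb h.hL h.pex P h.card h.syl h.comm
  have hpow : ∀ x : X, x ^ L = 1 := by
    intro x
    obtain ⟨c, hc⟩ := h.card
    rw [hc, Nat.card_eq_fintype_card, pow_mul, pow_card_eq_one, one_pow]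
  have hg : ∀ x : X, σ (χ x) = χ (x ^ k) := fun x =>
    W.aga_gal h.char h.hL (hpow x) σ (hσ _ (zeta_prim h.hL).pow_eq_one)
  have hK : ∀ x : X, σ ((((K x)⁻¹ : ℂˣ)) : ℂ) = (((K (x ^ k))⁻¹ : ℂˣ) : ℂ) := by
    intro x
    rw [hσ, map_pow, ← inv_pow, Units.val_pow_eq_pow_val]
    rw [← Units.val_pow_eq_pow_val, inv_pow, ← map_pow, hpow, map_one, inv_one, Units.val_one]
  have hav : ∀ y : X, σ (avK p s0 b χ K y) = avK p s0 b χ K (y ^ k) := by
    intro y
    unfold avK
    rw [map_mul, map_inv₀, map_natCast, map_sum]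
    congr 1
    refine Finset.sum_congr rfl fun i _ => ?_
    rw [map_mul, map_pow, hK, hg, ← pow_mul, ← pow_mul, mul_comm k]
  have hcop : (Nat.card X).Coprime k := (Nat.Coprime.coprime_dvd_right h.card hk).symm
  unfold BB
  rw [map_mul, map_mul, map_inv₀, map_natCast, map_sum]
  have hNN : σ (NN p b P) = NN p b P := by
    unfold NN
    rw [map_div₀, map_natCast, map_natCast]
  rw [hNN]
  congr 2
  refine Fintype.sum_equiv (powCoprime hcop) _ _ fun y => ?_
  rw [powCoprime_apply]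
  by_cases hy : Sec p s0 b P u y
  · rw [if_pos hy, if_pos ((hS u hu k hk y).1 hy), map_mul, hav, hav, inv_pow]
  · rw [if_neg hy, if_neg (fun h' => hy ((hS u hu k hk y).2 h')), map_zero]

end Pool.Agent.Lib.MP_1aae89_al.W3
end

section
/-!
# GLA: a Galois automorphism of `p`-power order which fixes the restriction to `H0` fixes the trace
-/
set_option autoImplicit false

namespace Pool.Agent.Lib.MP_1aae89_al.W3

open Pool.Agent.Lib.MP_1aae89_al Pool.Agent.Lib.MP_1aae89_al.BF Finset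
open Pool.Agent.Lib.MP1aae89 (Pex exists_aut)
open scoped Kronecker

/-- the automorphism with exponent `1 + s0 p^a t` -/
theorem gla_gd {p L s0 a t : ℕ} (hp : p.Prime) (hL : L ≠ 0) (hs : Pex p L s0) (ha : 1 ≤ a) :
    ∃ σ : ℂ →+* ℂ, Gd p L (1 + s0 * p ^ a * t) σ := by
  obtain ⟨c, hc⟩ := hs.zero
  have hpa : p ∣ p ^ a := dvd_pow_self _ (by omega)
  have hcop : (1 + s0 * p ^ a * t).Coprime L := by
    refine Nat.Coprime.symm (Nat.coprime_of_dvd fun k hk h1 h2 => ?_)
    have h3 : k ∣ s0 * p ^ a * t := by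
      by_cases hkp : k = p
      · rw [hkp]
        exact Dvd.dvd.mul_right (Dvd.dvd.mul_left hpa _) _
      · rw [← Nat.ordProj_mul_ordCompl_eq_self L p] at h1
        rcases (Nat.Prime.dvd_mul hk).1 h1 with h | h
        · exact absurd ((Nat.prime_dvd_prime_iff_eq hk hp).1 (hk.dvd_of_dvd_pow h)) hkp
        · exact Dvd.dvd.mul_right (Dvd.dvd.mul_right (h.trans hs.zero) _) _
    exact hk.one_lt.ne' (Nat.dvd_one.1 ((Nat.dvd_add_left h3).1 h2))
  obtain ⟨σ, hσ⟩ := exists_aut L (Nat.pos_of_ne_zero hL) _ hcop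
  refine ⟨σ, ⟨hp, hL, by omega, fun ξ h => hσ ξ h, ?_, ?_⟩⟩
  · refine ⟨L.factorization p, ?_⟩
    rw [Nat.add_sub_cancel_left]
    conv_lhs => rw [← Nat.ordProj_mul_ordCompl_eq_self L p]
    rw [mul_comm]
    exact Nat.mul_dvd_mul (Dvd.dvd.mul_right (Dvd.dvd.mul_right hs.zero _) _) dvd_rfl
  · refine ⟨L.factorization p, ?_⟩
    set f := L.factorization p with hf
    set κ := 1 + s0 * p ^ a * t with hκ
    have h1 : ((p : ℕ) : ℤ) ∣ (κ : ℤ) - 1 := by
      rw [hκ]
      push_cast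
      rw [add_sub_cancel_left]
      exact Dvd.dvd.mul_right (Dvd.dvd.mul_left (dvd_pow_self _ (by omega)) _) _
    have h2 := dvd_sub_pow_of_dvd_sub h1 f
    rw [one_pow] at h2
    have h3 : ((ordCompl[p] L : ℕ) : ℤ) ∣ (κ : ℤ) ^ p ^ f - 1 := by
      have h4 : ((ordCompl[p] L : ℕ) : ℤ) ∣ (κ : ℤ) - 1 := by
        have h5 : ((ordCompl[p] L : ℕ) : ℤ) ∣ ((s0 * p ^ a * t : ℕ) : ℤ) := by
          exact_mod_cast Dvd.dvd.mul_right (Dvd.dvd.mul_right hs.zero _) _
        rw [hκ, Nat.cast_add, Nat.cast_one, add_sub_cancel_left]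
        exact h5
      have h5 := sub_dvd_pow_sub_pow (κ : ℤ) 1 (p ^ f)
      rw [one_pow] at h5
      exact h4.trans h5
    have h4 : ((p ^ f : ℕ) : ℤ) ∣ (κ : ℤ) ^ p ^ f - 1 := by
      refine Dvd.dvd.trans ?_ h2
      push_cast
      exact pow_dvd_pow _ (Nat.le_succ f)
    have h5 : IsCoprime ((p ^ f : ℕ) : ℤ) ((ordCompl[p] L : ℕ) : ℤ) := by
      rw [Nat.isCoprime_iff_coprime]
      exact (Nat.coprime_ordCompl hp hL).pow_left f
    have h6 := h5.mul_dvd h4 h3
    have h7 : ((p ^ f : ℕ) : ℤ) * ((ordCompl[p] L : ℕ) : ℤ) = (L : ℤ) := by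
      rw [← Nat.cast_mul, Nat.ordProj_mul_ordCompl_eq_self]
    rw [h7] at h6
    have h8 : (1 : ℤ) ≡ ((κ ^ p ^ f : ℕ) : ℤ) [ZMOD (L : ℤ)] := by
      rw [Int.modEq_iff_dvd]
      push_cast
      exact h6
    exact ((Int.natCast_modEq_iff).1 (by exact_mod_cast h8)).symm

theorem specGLA : SpecGLA := by
  intro p hp N s0 hN hs Y _ _ hY H0 _ m A hm hr hdet a t ha hfx y
  classical
  have : Fintype Y := Fintype.ofFinite Y
  obtain ⟨σ, hG⟩ := gla_gd (t := t) hp hN hs ha
  set κ := 1 + s0 * p ^ a * t with hκd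
  have hm0 : m ≠ 0 := by rintro rfl; exact hm (dvd_zero _)
  have hm' : (m : ℂ) ≠ 0 := by exact_mod_cast hm0
  have hpm : ∀ a, (p ^ a).Coprime m := fun a =>
    Nat.Coprime.pow_left a ((Nat.Prime.coprime_iff_not_dvd hp).2 hm)
  have a0 : Fin m := ⟨0, Nat.pos_of_ne_zero hm0⟩
  obtain ⟨a1, ha1⟩ := hG.ha
  obtain ⟨j, hj⟩ := hG.hj
  have hAN : ∀ x : Y, A x ^ N = 1 := by
    intro x
    obtain ⟨k, hk⟩ := hY
    rw [← map_pow, hk, pow_mul, pow_card_eq_one', one_pow, map_one]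
  have hσA : ∀ x : Y, σ (A x).trace = (A (x ^ κ)).trace := by
    intro x
    rw [gal_trace hN σ hG.hσ _ (hAN x), map_pow]
  rw [← hσA]
  -- the restriction and the Galois conjugate
  set r : H0 →* Matrix (Fin m) (Fin m) ℂ := A.comp H0.subtype with hrd
  have hrA : ∀ l : H0, r l = A l := fun l => rfl
  let s : H0 →* Matrix (Fin m) (Fin m) ℂ :=
    ((σ.mapMatrix : Matrix (Fin m) (Fin m) ℂ →+* Matrix (Fin m) (Fin m) ℂ).toMonoidHom).comp r
  have hs' : ∀ l, s l = (σ.mapMatrix : Matrix (Fin m) (Fin m) ℂ →+* Matrix (Fin m) (Fin m) ℂ) (r l) :=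
    fun l => rfl
  have htr : ∀ M : Matrix (Fin m) (Fin m) ℂ,
      ((σ.mapMatrix : Matrix (Fin m) (Fin m) ℂ →+* Matrix (Fin m) (Fin m) ℂ) M).trace = σ M.trace := by
    intro M
    rw [RingHom.mapMatrix_apply, Matrix.trace, Matrix.trace, map_sum]
    rfl
  obtain ⟨B, B', hB'B, hBB', hB⟩ := equiv_of_trace hr hm0 (s := s) fun l => by
    rw [hs', htr, hrA, hσA]
    exact hfx l l.2
  have hB' : ∀ l, B' * s l = r l * B' := by
    intro l
    calc B' * s l = B' * (s l * B) * B' := by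
          rw [Matrix.mul_assoc, Matrix.mul_assoc, hBB', Matrix.mul_one]
      _ = r l * B' := by rw [hB, ← Matrix.mul_assoc, hB'B, Matrix.one_mul]
  set X := A y with hX
  set X' := A y⁻¹ with hX'
  have hX'X : X' * X = 1 := by rw [hX, hX', ← map_mul, inv_mul_cancel, map_one]
  have hXX' : X * X' = 1 := by rw [hX, hX', ← map_mul, mul_inv_cancel, map_one]
  have hXr : ∀ l, X * r l = r (MulAut.conjNormal y l) * X := by
    intro l
    rw [hX, hrA, hrA, ← map_mul, ← map_mul, MulAut.conjNormal_apply]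
    congr 1
    group
  set M := (σ.mapMatrix : Matrix (Fin m) (Fin m) ℂ →+* Matrix (Fin m) (Fin m) ℂ) X with hM
  have hMs : ∀ l, M * s l = s (MulAut.conjNormal y l) * M := by
    intro l
    rw [hs', hs', hM, ← map_mul, ← map_mul, hXr]
  have hX'r : ∀ l, X' * r (MulAut.conjNormal y l) = r l * X' := by
    intro l
    calc X' * r (MulAut.conjNormal y l) = X' * (r (MulAut.conjNormal y l) * X) * X' := by
          rw [Matrix.mul_assoc, Matrix.mul_assoc, hXX', Matrix.mul_one]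
      _ = r l * X' := by rw [← hXr, ← Matrix.mul_assoc, hX'X, Matrix.one_mul]
  obtain ⟨c, hc⟩ := hr (X' * (B' * M * B)) fun l => by
    calc X' * (B' * M * B) * r l = X' * B' * M * (B * r l) := by simp only [Matrix.mul_assoc]
      _ = X' * B' * (M * s l) * B := by rw [← hB]; simp only [Matrix.mul_assoc]
      _ = X' * (B' * s (MulAut.conjNormal y l)) * M * B := by
          rw [hMs]; simp only [Matrix.mul_assoc]
      _ = (X' * r (MulAut.conjNormal y l)) * B' * M * B := by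
          rw [hB']; simp only [Matrix.mul_assoc]
      _ = r l * (X' * (B' * M * B)) := by rw [hX'r]; simp only [Matrix.mul_assoc]
  have hcX : B' * M * B = c • X := by
    calc B' * M * B = X * (X' * (B' * M * B)) := by
          rw [← Matrix.mul_assoc, hXX', Matrix.one_mul]
      _ = c • X := by rw [hc, Matrix.mul_smul, Matrix.mul_one]
  -- the traces
  have ht : ∀ l, σ (X * r l).trace = c * (X * r l).trace := by
    intro l
    have h1 : M * s l = B * (B' * M * B * r l) * B' := by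
      rw [Matrix.mul_assoc (B' * M), ← hB]
      calc M * s l = (B * B') * M * s l * (B * B') := by rw [hBB', Matrix.one_mul, Matrix.mul_one]
        _ = _ := by simp only [Matrix.mul_assoc]
    rw [← htr, map_mul, ← hs', ← hM, h1, Matrix.trace_mul_comm, ← Matrix.mul_assoc, hB'B,
      Matrix.one_mul, hcX, Matrix.smul_mul, Matrix.trace_smul, smul_eq_mul]
  -- the determinants
  have hdX0 : X.det ≠ 0 := by
    intro h
    have := congrArg Matrix.det hX'X
    rw [Matrix.det_mul, h, mul_zero, Matrix.det_one] at this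
    exact zero_ne_one this
  have hdX : σ X.det = c ^ m * X.det := by
    have h1 : M.det = c ^ m * X.det := by
      have h2 := congrArg Matrix.det hcX
      rw [Matrix.det_mul, Matrix.det_mul, Matrix.det_smul, Fintype.card_fin] at h2
      have h3 : B'.det * B.det = 1 := by rw [← Matrix.det_mul, hB'B, Matrix.det_one]
      rw [← h2]
      linear_combination (-M.det) * h3
    rw [← h1, hM]
    exact RingHom.map_det σ X
  have hdXN : X.det ^ N = 1 := by rw [← Matrix.det_pow, hX, hAN, Matrix.det_one]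
  have hκ : κ = (κ - 1) + 1 := by have := hG.one; omega
  have hcm : c ^ m = 1 := by
    have h3 : c ^ m = X.det ^ (κ - 1) := by
      have h4 := hdX
      rw [hG.hσ _ hdXN] at h4
      apply mul_right_cancel₀ hdX0
      rw [← h4, ← pow_succ, ← hκ]
    have h4 : ordCompl[p] N ∣ κ - 1 := by
      rw [hκd, Nat.add_sub_cancel_left]
      exact Dvd.dvd.mul_right (Dvd.dvd.mul_right hs.zero _) _
    obtain ⟨k, hk⟩ := h4
    rw [h3, hk, pow_mul, hX, hdet y, one_pow]
  -- `c` is fixed by `σ`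
  have hcN : c ^ N = 1 := by
    have h3 : (c • X) ^ N = 1 := by
      rw [← hcX, conj_pow' hB'B hBB', hM, ← map_pow, hX, hAN, map_one, Matrix.mul_one, hB'B]
    rw [smul_pow, hX, hAN] at h3
    have h4 := congrFun (congrFun h3 a0) a0
    rw [Matrix.smul_apply, Matrix.one_apply_eq, smul_eq_mul, mul_one] at h4
    exact h4
  have hσc : σ c = c := by
    have h3 : (c ^ (κ - 1)) ^ p ^ a1 = 1 := by
      obtain ⟨k, hk⟩ := ha1
      rw [← pow_mul, hk, pow_mul, hcN, one_pow]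
    have h4 : (c ^ (κ - 1)) ^ m = 1 := by rw [← pow_mul, mul_comm, pow_mul, hcm, one_pow]
    have h5 := pow_gcd_eq_one.2 ⟨h3, h4⟩
    rw [(hpm a1).gcd_eq_one, pow_one] at h5
    rw [hG.hσ _ hcN]
    conv_lhs => rw [hκ, pow_succ, h5, one_mul]
  -- a nonzero trace
  obtain ⟨l, hl⟩ : ∃ l : H0, (X * r l).trace ≠ 0 := by
    by_contra hall
    push Not at hall
    have h3 := orth hr hm0 X X'
    rw [hXX', Matrix.trace_one, Fintype.card_fin, div_mul_cancel₀ _ hm'] at h3
    have h4 : (Fintype.card H0 : ℂ) ≠ 0 := by exact_mod_cast Fintype.card_ne_zero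
    apply h4
    rw [← h3]
    exact sum_eq_zero fun l _ => by rw [hall l, zero_mul]
  have hXl : X * r l = A (y * l) := by rw [hX, hrA, ← map_mul]
  have h3 : ∀ i : ℕ, σ^[i] (X * r l).trace = c ^ i * (X * r l).trace := by
    intro i
    induction i with
    | zero => rw [pow_zero, one_mul]; rfl
    | succ i ih =>
      rw [Function.iterate_succ_apply', ih, map_mul, map_pow, hσc, ht, pow_succ, mul_assoc]
  have h4 : c ^ p ^ j = 1 := by
    have h5 := h3 (p ^ j)
    have h6' : (X * r l) ^ N = 1 := by rw [hXl]; exact hAN _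
    rw [gal_iter hG _ h6'] at h5
    have h6 : (X * r l) ^ κ ^ p ^ j = X * r l := by
      have h7 : κ ^ p ^ j % N = 1 % N := hj
      rw [← powmod h6' (κ ^ p ^ j), h7, powmod h6' 1, pow_one]
    rw [h6] at h5
    exact mul_right_cancel₀ hl (h5.symm.trans (one_mul _).symm)
  have hc1 : c = 1 := by
    have h5 := pow_gcd_eq_one.2 ⟨h4, hcm⟩
    rwa [(hpm j).gcd_eq_one, pow_one] at h5
  have h6 := ht 1
  rwa [map_one, Matrix.mul_one, hc1, one_mul] at h6

end Pool.Agent.Lib.MP_1aae89_al.W3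
end

section
/-!
# Module GQU: the factor groups are good
-/
set_option autoImplicit false

namespace Pool.Agent.Lib.MP_1aae89_al.W3

namespace GQU

variable {X : Type} [Group X]

/-- the number of elements with image in a set -/
theorem card_preimage (H : Subgroup X) [H.Normal] (S : X ⧸ H → Prop) :
    Nat.card {g : X // S (QuotientGroup.mk' H g)} = Nat.card {z : X ⧸ H // S z} * Nat.card H := by
  rw [← Nat.card_prod]
  have e1 : {g : X // S (QuotientGroup.mk' H g)} ≃ {z : (X ⧸ H) × H // S z.1} :=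
    (Subgroup.groupEquivQuotientProdSubgroup (s := H)).subtypeEquiv fun g => Iff.rfl
  have e2 : {z : (X ⧸ H) × H // S z.1} ≃ {z : X ⧸ H // S z} × H :=
    { toFun := fun z => (⟨z.1.1, z.2⟩, z.1.2)
      invFun := fun z => ⟨(z.1.1, z.2), z.1.2⟩
      left_inv := fun z => rfl
      right_inv := fun z => rfl }
  exact Nat.card_congr (e1.trans e2)

/-- the image of a Sylow subgroup is a Sylow subgroup -/
theorem card_map [Finite X] {p : ℕ} (hp : p.Prime) {P H : Subgroup X} [H.Normal]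
    (hP : Nat.card P = p ^ (Nat.card X).factorization p) :
    IsPGroup p (P.map (QuotientGroup.mk' H)) ∧
      Nat.card (P.map (QuotientGroup.mk' H)) = p ^ (Nat.card (X ⧸ H)).factorization p := by
  have : Fact p.Prime := ⟨hp⟩
  let S : Sylow p X := Sylow.ofCard P hP
  have hS : (S : Subgroup X) = P := Sylow.coe_ofCard P hP
  have h1 : IsPGroup p P := by
    rw [← hS]
    exact S.isPGroup'
  have h2 : ¬ p ∣ P.index := by
    rw [← hS]
    exact S.not_dvd_index
  have h3 : IsPGroup p (P.map (QuotientGroup.mk' H)) := h1.map _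
  have h4 : ¬ p ∣ (P.map (QuotientGroup.mk' H)).index := fun h =>
    h2 (h.trans (Subgroup.index_map_dvd P (QuotientGroup.mk'_surjective H)))
  refine ⟨h3, ?_⟩
  have h5 := (h3.toSylow h4).card_eq_multiplicity
  exact h5

theorem map_top {P H F : Subgroup X} [H.Normal] (h : F ⊔ P = ⊤) :
    F.map (QuotientGroup.mk' H) ⊔ P.map (QuotientGroup.mk' H) = ⊤ := by
  rw [← Subgroup.map_sup, h, Subgroup.map_top_of_surjective _ (QuotientGroup.mk'_surjective H)]

theorem mem_inf {P H F : Subgroup X} [H.Normal] (hHF : H ≤ F) {z : X ⧸ H} :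
    z ∈ P.map (QuotientGroup.mk' H) ⊓ F.map (QuotientGroup.mk' H) ↔
      ∃ x ∈ P ⊓ F, QuotientGroup.mk' H x = z := by
  constructor
  · rintro ⟨⟨x, hx, rfl⟩, ⟨f, hf, hfx⟩⟩
    refine ⟨x, ⟨hx, ?_⟩, rfl⟩
    have h1 : f⁻¹ * x ∈ H := by
      rw [← QuotientGroup.eq]
      exact hfx
    have h2 := F.mul_mem hf (hHF h1)
    rwa [mul_inv_cancel_left] at h2
  · rintro ⟨x, hx, rfl⟩
    exact ⟨⟨x, hx.1, rfl⟩, ⟨x, hx.2, rfl⟩⟩

theorem mk_eq_one {H : Subgroup X} [H.Normal] {x : X} : QuotientGroup.mk' H x = 1 ↔ x ∈ H :=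
  QuotientGroup.eq_one_iff x

theorem mk_eq {H : Subgroup X} [H.Normal] {x y : X} :
    QuotientGroup.mk' H x = QuotientGroup.mk' H y ↔ x * y⁻¹ ∈ H := by
  rw [← mk_eq_one, map_mul, map_inv, mul_inv_eq_one]

end GQU

open GQU in
theorem specGQU (hGPG : SpecGPG) (hGBD : SpecGBD) (hGCR : SpecGCR) (hCRM : SpecCRM)
    (hCRA : SpecCRA) : SpecGQU := by
  classical
  intro p b hp hb X _ _ P H F hH hF hHF htop hP hst
  have : Fact p.Prime := ⟨hp⟩
  obtain ⟨hP1, hP2⟩ := card_map hp (H := H) hP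
  have hF' : (F.map (QuotientGroup.mk' H)).Normal :=
    hF.map _ (QuotientGroup.mk'_surjective H)
  have htop' := map_top (H := H) htop
  rcases hst with h1 | h1 | ⟨hab, h1⟩
  · -- a `p`-group
    have hFp : IsPGroup p (F.map (QuotientGroup.mk' H)) := by
      rintro ⟨_, x, hx, rfl⟩
      obtain ⟨j, hj⟩ := h1 x hx
      refine ⟨j, Subtype.ext ?_⟩
      show (QuotientGroup.mk' H x) ^ p ^ j = 1
      rw [← map_pow]
      exact mk_eq_one.2 hj
    have h2 := hFp.to_sup_of_normal_left hP1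
    rw [htop'] at h2
    obtain ⟨e, he⟩ := IsPGroup.iff_card.1 h2
    rw [Subgroup.card_top] at he
    exact hGPG p b hp hb e he
  · -- no elements of order `p ^ b`
    refine hGBD p b hp hb (F.map (QuotientGroup.mk' H)) ?_ ?_
    · rintro _ ⟨x, hx, rfl⟩ h2
      rw [← map_pow] at h2 ⊢
      exact mk_eq_one.2 (h1 x hx (mk_eq_one.1 h2))
    · intro z
      have hz : z ∈ F.map (QuotientGroup.mk' H) ⊔ P.map (QuotientGroup.mk' H) := by
        rw [htop']
        exact Subgroup.mem_top z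
      rw [Subgroup.mem_sup_of_normal_left] at hz
      obtain ⟨f, hf, x, hx, rfl⟩ := hz
      obtain ⟨j, hj⟩ := hP1 ⟨x, hx⟩
      have hj' : x ^ p ^ j = 1 := congrArg Subtype.val hj
      refine ⟨j, ?_⟩
      rw [← mk_eq_one (H := F.map (QuotientGroup.mk' H)), map_pow, map_mul, mk_eq_one.2 hf,
        one_mul, ← map_pow, hj', map_one]
  · have hab' : ∀ x ∈ P.map (QuotientGroup.mk' H), ∀ y ∈ P.map (QuotientGroup.mk' H),
        x * y = y * x := by
      rintro _ ⟨x, hx, rfl⟩ _ ⟨y, hy, rfl⟩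
      rw [← map_mul, ← map_mul, mk_eq]
      have := hab x hx y hy
      rwa [show x * y * (y * x)⁻¹ = x * y * x⁻¹ * y⁻¹ by group]
    have hcrt : Crt p b (P.map (QuotientGroup.mk' H)) := by
      rcases h1 with ⟨x₀, hx₀, h1⟩ | h1 | h1
      · refine hCRA p b hp (by omega) (P.map (QuotientGroup.mk' H)) (F.map (QuotientGroup.mk' H))
          hP1 hab' htop' ⟨QuotientGroup.mk' H x₀, (mem_inf hHF).2 ⟨x₀, hx₀, rfl⟩, ?_⟩
        intro y hy
        obtain ⟨y', hy', rfl⟩ := (mem_inf hHF).1 hy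
        obtain ⟨j, hj⟩ := h1 y' hy'
        refine ⟨j, ?_⟩
        rw [← map_pow]
        exact mk_eq.2 hj
      · refine specCRC p b hp (by omega) (P.map (QuotientGroup.mk' H)) (F.map (QuotientGroup.mk' H))
          hP2 hab' htop' ?_
        have e1 := card_preimage H fun z => z ∈ F.map (QuotientGroup.mk' H) ∧
          ∀ x ∈ P.map (QuotientGroup.mk' H) ⊓ F.map (QuotientGroup.mk' H), z * x * z⁻¹ ∈
            P.map (QuotientGroup.mk' H) ⊓ F.map (QuotientGroup.mk' H)
        have e2 := card_preimage H fun z => z ∈ F.map (QuotientGroup.mk' H) ∧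
          ∀ x ∈ P.map (QuotientGroup.mk' H) ⊓ F.map (QuotientGroup.mk' H), z * x * z⁻¹ = x
        have hmF : ∀ g : X, QuotientGroup.mk' H g ∈ F.map (QuotientGroup.mk' H) ↔ g ∈ F := by
          intro g
          constructor
          · rintro ⟨f, hf, hfg⟩
            have h2 : f⁻¹ * g ∈ H := by
              rw [← QuotientGroup.eq]
              exact hfg
            have h3 := F.mul_mem hf (hHF h2)
            rwa [mul_inv_cancel_left] at h3
          · intro hg
            exact ⟨g, hg, rfl⟩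
        have f1 : Nat.card {g : X // QuotientGroup.mk' H g ∈ F.map (QuotientGroup.mk' H) ∧
            ∀ x ∈ P.map (QuotientGroup.mk' H) ⊓ F.map (QuotientGroup.mk' H),
              QuotientGroup.mk' H g * x * (QuotientGroup.mk' H g)⁻¹ ∈
                P.map (QuotientGroup.mk' H) ⊓ F.map (QuotientGroup.mk' H)} =
            Nat.card {g : X // g ∈ F ∧ ∀ x ∈ P ⊓ F, ∃ y ∈ P ⊓ F, g * x * g⁻¹ * y⁻¹ ∈ H} := by
          refine Nat.card_congr (Equiv.subtypeEquivRight fun g => and_congr (hmF g) ?_)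
          constructor
          · intro h2 x hx
            obtain ⟨y, hy, hyx⟩ := (mem_inf hHF).1 (h2 _ ((mem_inf hHF).2 ⟨x, hx, rfl⟩))
            refine ⟨y, hy, ?_⟩
            rw [← mk_eq, hyx, map_mul, map_mul, map_inv]
          · intro h2 z hz
            obtain ⟨x, hx, rfl⟩ := (mem_inf hHF).1 hz
            obtain ⟨y, hy, hyx⟩ := h2 x hx
            refine (mem_inf hHF).2 ⟨y, hy, ?_⟩
            rw [← mk_eq] at hyx
            rw [← hyx, map_mul, map_mul, map_inv]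
        have f2 : Nat.card {g : X // QuotientGroup.mk' H g ∈ F.map (QuotientGroup.mk' H) ∧
            ∀ x ∈ P.map (QuotientGroup.mk' H) ⊓ F.map (QuotientGroup.mk' H),
              QuotientGroup.mk' H g * x * (QuotientGroup.mk' H g)⁻¹ = x} =
            Nat.card {g : X // g ∈ F ∧ ∀ x ∈ P ⊓ F, g * x * g⁻¹ * x⁻¹ ∈ H} := by
          refine Nat.card_congr (Equiv.subtypeEquivRight fun g => and_congr (hmF g) ?_)
          constructor
          · intro h2 x hx
            have h3 := h2 _ ((mem_inf hHF).2 ⟨x, hx, rfl⟩)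
            rw [← mk_eq, map_mul, map_mul, map_inv]
            exact h3
          · intro h2 z hz
            obtain ⟨x, hx, rfl⟩ := (mem_inf hHF).1 hz
            have h3 := h2 x hx
            rw [← mk_eq, map_mul, map_mul, map_inv] at h3
            exact h3
        rw [f1] at e1
        rw [f2] at e2
        rw [e1, e2, ← mul_assoc] at h1
        exact lt_of_mul_lt_mul_right h1 (Nat.zero_le _)
      · exact h1
    exact hGCR p b hp hb _ hP2 hab' (hCRM p b hp (by omega) _ hP1 hab' hcrt)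

end Pool.Agent.Lib.MP_1aae89_al.W3
end

section
/-!
# Module IN2: integrality of the contribution of a section
-/
set_option autoImplicit false

namespace Pool.Agent.Lib.MP_1aae89_al.W3

open Pool.Agent.Lib.MP_1aae89_al Pool.Agent.Lib.MP_1aae89_al.BF Finset
open Pool.Agent.Lib.MP1aae89 (Pex)

theorem specIN2 (hCX2 : SpecCX2) (hLS2 : SpecLS2) (hSEC : SpecSEC) (hDUA : SpecDUA) : SpecIN2 := by
  classical
  intro p L s0 b X _ _ P χ K hy u hu
  have hp := hy.pp
  have hb := hy.hb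
  have hord : ∀ y : X, orderOf y ∣ L := fun y => (orderOf_dvd_natCard y).trans hy.card
  have hGCA1 : W.SpecGCA1 := W.specGCA1
  have hGCA2 : W.SpecGCA2 := W.specGCA2 hGCA1
  have hTWG : W.SpecTWG := W.specTWG hGCA2
  have hLSP : W.SpecLSP := W.specLSP hGCA2 (W.specLFM hGCA2)
  obtain ⟨-, hmul, hsmul, hcon, hsum, -, hval, -⟩ := hGCA2
  obtain ⟨N, hN1, hN2⟩ := CX1.NN_eq hDUA hp (by omega : 1 ≤ b) P hy.comm
  obtain ⟨hsec1, -, -, -, -, hsec6⟩ := hSEC p hp L s0 b hb hy.hL hy.pex P hy.card hy.syl hy.comm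
  set q := p ^ (b - 1) with hq
  have hKp : ∀ y, (K y) ^ p = 1 := by
    intro y
    have h2 : (K ^ p) y = (1 : Lin X) y := by rw [hy.kp]
    exact h2
  have hKi : ∀ y (i : ℕ), IsIntegral ℤ ((((K y)⁻¹ : ℂˣ) : ℂ) ^ i) := by
    intro y i
    refine IsIntegral.pow ?_ i
    refine IsIntegral.of_pow hp.pos ?_
    rw [← Units.val_pow_eq_pow_val, inv_pow, hKp, inv_one, Units.val_one]
    exact isIntegral_one
  have hchi : ∀ y, IsIntegral ℤ (χ y) := fun y => hval χ (Submodule.subset_span hy.char) y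
  have hpav : ∀ y, (p : ℂ) * avK p s0 b χ K y =
      ∑ i ∈ range p, (((K y)⁻¹ : ℂˣ) : ℂ) ^ i * χ (y ^ (1 + s0 * q * i)) := by
    intro y
    unfold avK
    rw [← mul_assoc, mul_inv_cancel₀ (by exact_mod_cast hp.ne_zero), one_mul]
  have hpi : ∀ y, IsIntegral ℤ ((p : ℂ) * avK p s0 b χ K y) := by
    intro y
    rw [hpav]
    exact IsIntegral.sum _ fun i _ => (hKi y i).mul (hchi _)
  have hNi : IsIntegral ℤ (NN p b P) := by
    rw [hN1]
    exact isIntegral_algebraMap (R := ℤ) (x := (N : ℤ))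
  set F : X → ℂ := fun y => if Sec p s0 b P u y then
    NN p b P * (avK p s0 b χ K y * avK p s0 b χ K y⁻¹) else 0 with hF
  have hFc : ∀ g w, F (g * w * g⁻¹) = F w := by
    intro g w
    show (if Sec p s0 b P u (g * w * g⁻¹) then NN p b P * (avK p s0 b χ K (g * w * g⁻¹) *
      avK p s0 b χ K (g * w * g⁻¹)⁻¹) else 0) = _
    have h4 : (g * w * g⁻¹)⁻¹ = g * w⁻¹ * g⁻¹ := by group
    rw [h4, CX2.avK_conj hy.char, CX2.avK_conj hy.char]
    exact if_congr (hsec1 u g w) rfl rfl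
  have hp2 : ∀ y, (p : ℂ) ^ 2 * F y = (if Sec p s0 b P u y then NN p b P else 0) *
      (((p : ℂ) * avK p s0 b χ K y) * ((p : ℂ) * avK p s0 b χ K y⁻¹)) := by
    intro y
    rw [hF]
    simp only
    split_ifs <;> ring
  have hloc : ∀ l : ℕ, l.Prime → W.LD l ((Fintype.card X).factorization l) (∑ y, F y) := by
    intro l hl
    by_cases hlp : l = p
    · subst hlp
      refine hLS2 l hl F hFc 2 (fun y => ?_) ?_
      · rw [hp2]
        refine IsIntegral.mul ?_ ((hpi _).mul (hpi _))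
        split_ifs
        · exact hNi
        · exact isIntegral_zero
      · intro t ht Q hQ hcm
        have h1 := hCX2 l L s0 b P χ K hy u hu t ht Q hQ hcm
        convert h1 using 6
    · have h1 : W.LD l ((Fintype.card X).factorization l) (∑ y, (p : ℂ) ^ 2 * F y) := by
        refine hLSP l hl (fun y => (p : ℂ) ^ 2 * F y) (fun g w => ?_) ?_
        · show (p : ℂ) ^ 2 * F (g * w * g⁻¹) = (p : ℂ) ^ 2 * F w
          rw [hFc]
        · intro t ht Q hQ hcm
          have hw0 : ∀ w : Q, (orderOf (w : X)).Coprime p := by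
            intro w
            obtain ⟨k, hk⟩ := hQ w
            have h5 : orderOf (w : X) ∣ l ^ k :=
              orderOf_dvd_of_pow_eq_one (congrArg Subtype.val hk)
            exact Nat.Coprime.coprime_dvd_left h5
              (Nat.Coprime.pow_left _ ((Nat.coprime_primes hl hp).2 hlp))
          have hw1 : ∀ w : Q, (w : X) ^ s0 = 1 := fun w =>
            W.pow_s0_one hp hy.hL hy.pex (hord w) (hw0 w)
          have hKw : ∀ w : Q, K (t * (w : X)) = K t := by
            intro w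
            rw [map_mul, CX1.lin_one hy.kp (hw0 w), mul_one]
          have hpw : ∀ (w : Q) (i : ℕ), (t * (w : X)) ^ (1 + s0 * q * i) =
              t ^ (1 + s0 * q * i) * w := by
            intro w i
            have h1 : Commute t (w : X) := hcm w w.2
            have h2 : (w : X) ^ (1 + s0 * q * i) = w := by
              rw [pow_add, pow_one, mul_assoc s0, pow_mul, hw1, one_pow, mul_one]
            rw [h1.mul_pow, h2]
          have hcmi : ∀ i : ℕ, ∀ w ∈ Q, t ^ (1 + s0 * q * i) * w = w * t ^ (1 + s0 * q * i) := by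
            intro i w hw
            have h1 : Commute t w := hcm w hw
            exact (h1.pow_left _).eq
          have hA : W.GC fun w : Q => (p : ℂ) * avK p s0 b χ K (t * w) := by
            have h1 : (fun w : Q => (p : ℂ) * avK p s0 b χ K (t * w)) = fun w : Q =>
                ∑ i ∈ range p, (((K t)⁻¹ : ℂˣ) : ℂ) ^ i * χ (t ^ (1 + s0 * q * i) * w) := by
              funext w
              rw [hpav]
              refine sum_congr rfl fun i _ => ?_
              rw [hKw, hpw]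
            rw [h1]
            refine hsum (range p) (fun i (w : Q) => (((K t)⁻¹ : ℂˣ) : ℂ) ^ i *
              χ (t ^ (1 + s0 * q * i) * w)) fun i _ => ?_
            exact hsmul _ _ (hKi t i) (hTWG χ hy.char Q _ (hcmi i))
          have hB : W.GC fun w : Q => (p : ℂ) * avK p s0 b χ K (t * w)⁻¹ := by
            have h1 : (fun w : Q => (p : ℂ) * avK p s0 b χ K (t * w)⁻¹) = fun w : Q =>
                ∑ i ∈ range p, (((K t⁻¹)⁻¹ : ℂˣ) : ℂ) ^ i *
                  (fun x => χ x⁻¹) (t ^ (1 + s0 * q * i) * w) := by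
              funext w
              rw [hpav]
              refine sum_congr rfl fun i _ => ?_
              have h2 : K (t * (w : X))⁻¹ = K t⁻¹ := by
                rw [map_inv, hKw, map_inv]
              show _ = _ * χ (t ^ (1 + s0 * q * i) * (w : X))⁻¹
              rw [h2, inv_pow, hpw]
            rw [h1]
            refine hsum (range p) (fun i (w : Q) => (((K t⁻¹)⁻¹ : ℂˣ) : ℂ) ^ i *
              (fun x => χ x⁻¹) (t ^ (1 + s0 * q * i) * w)) fun i _ => ?_
            exact hsmul _ _ (hKi t⁻¹ i) (hTWG (fun x => χ x⁻¹) (hGCA1.2.1 χ hy.char) Q _ (hcmi i))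
          have hC := hmul _ _ hA hB
          have h1 : (fun w : Q => (p : ℂ) ^ 2 * F (t * w)) = fun w : Q =>
              (if Sec p s0 b P u t then NN p b P else 0) *
                ((p : ℂ) * avK p s0 b χ K (t * w) * ((p : ℂ) * avK p s0 b χ K (t * w)⁻¹)) := by
            funext w
            rw [hp2]
            congr 1
            have h2 : ∃ k, (w : X) ^ l ^ k = 1 := by
              obtain ⟨k, hk⟩ := hQ w
              exact ⟨k, congrArg Subtype.val hk⟩
            exact if_congr (hsec6 l hl hlp u t w (hcm w w.2) h2) rfl rfl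
          show W.GC fun w : Q => (p : ℂ) ^ 2 * F (t * w)
          rw [h1]
          refine hsmul _ _ ?_ hC
          split_ifs
          · exact hNi
          · exact isIntegral_zero
      obtain ⟨n, hn, w, hw, h2⟩ := h1
      refine ⟨n * p ^ 2, fun h => ?_, w, hw, ?_⟩
      · rcases (Nat.Prime.dvd_mul hl).1 h with h3 | h3
        · exact hn h3
        · exact hlp ((Nat.prime_dvd_prime_iff_eq hl hp).1 (hl.dvd_of_dvd_pow h3))
      · rw [← h2, ← mul_sum]
        push_cast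
        ring
  have hfin := W.specGLU (Fintype.card X) Fintype.card_ne_zero _ hloc
  have h1 : BB p s0 b P χ K u = (∑ y, F y) / (Fintype.card X : ℂ) := by
    unfold BB
    have h2 : ∑ y, F y = NN p b P * ∑ y : X, (if Sec p s0 b P u y then
        avK p s0 b χ K y * avK p s0 b χ K y⁻¹ else 0) := by
      rw [mul_sum]
      refine sum_congr rfl fun y _ => ?_
      rw [hF]
      simp only
      split_ifs <;> ring
    rw [h2]
    ring
  rw [h1]
  exact hfin

end Pool.Agent.Lib.MP_1aae89_al.W3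
end

section
/-!
# Module PO2: `BB u` is a real number
-/
set_option autoImplicit false

namespace Pool.Agent.Lib.MP_1aae89_al.W3

open Pool.Agent.Lib.MP_1aae89_al Pool.Agent.Lib.MP_1aae89_al.BF Finset
open Pool.Agent.Lib.MP_1aae89_al.W (GC LD nR)
open Pool.Agent.Lib.MP1aae89 (Pex)

theorem specPO2 (hCJ2 : SpecCJ2) : SpecPO2 := by
  classical
  intro p L s0 b X _ _ P χ K hy u
  unfold BB NN
  have h : ∀ y : X, (if Sec p s0 b P u y then avK p s0 b χ K y * avK p s0 b χ K y⁻¹ else 0) =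
      (((if Sec p s0 b P u y then ‖avK p s0 b χ K y‖ ^ 2 else 0 : ℝ)) : ℂ) := by
    intro y
    split_ifs
    · rw [hCJ2 p L s0 b P χ K hy y, Complex.mul_conj, Complex.normSq_eq_norm_sq]
    · rw [Complex.ofReal_zero]
  rw [Complex.ofReal_mul, Complex.ofReal_mul, Complex.ofReal_div, Complex.ofReal_inv,
    Complex.ofReal_natCast, Complex.ofReal_natCast, Complex.ofReal_natCast, Complex.ofReal_sum]
  congr 2
  exact Finset.sum_congr rfl fun y _ => h y

end Pool.Agent.Lib.MP_1aae89_al.W3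
end

section
/-!
# Module PSM: sums of invariant functions over sets with a fixed point free `p`-permutation
-/
set_option autoImplicit false

namespace Pool.Agent.Lib.MP_1aae89_al.W3

open Finset

theorem PSM_card (p : ℕ) (hp : p.Prime) {X : Type} (S : Finset X) (s : X → X) (k : ℕ)
    (h1 : ∀ x ∈ S, s x ∈ S) (h2 : ∀ x ∈ S, s^[p ^ k] x = x) (h3 : ∀ x ∈ S, s x ≠ x) :
    p ∣ S.card := by
  classical
  have : Fact p.Prime := ⟨hp⟩
  let f : Function.End {x // x ∈ S} := fun x => ⟨s x.1, h1 x.1 x.2⟩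
  have hval : ∀ (m : ℕ) (x : {x // x ∈ S}), ((f ^ m) x).1 = s^[m] x.1 := by
    intro m
    induction m with
    | zero => intro x; rfl
    | succ m ih =>
      intro x
      rw [pow_succ, Function.iterate_succ_apply]
      exact ih (f x)
  have hf : f ^ p ^ k = 1 := by
    funext x
    refine Subtype.ext ?_
    rw [hval]
    exact h2 x.1 x.2
  have h4 := Equiv.Perm.card_fixedPoints_modEq hf
  have h5 : Fintype.card f.fixedPoints = 0 := by
    rw [Fintype.card_eq_zero_iff]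
    refine ⟨fun x => h3 x.1.1 x.1.2 ?_⟩
    exact congrArg Subtype.val x.2
  rw [h5, Fintype.card_coe] at h4
  exact (Nat.modEq_zero_iff_dvd).1 h4

theorem specPSM : SpecPSM := by
  intro p hp X S s k h1 h2 h3 F hF hI
  classical
  have h6 : ∀ v ∈ S.image F, ∃ m : ℕ, (S.filter fun x => F x = v).card = p * m := by
    intro v _
    refine PSM_card p hp (S.filter fun x => F x = v) s k ?_ ?_ ?_
    · intro x hx
      rw [mem_filter] at hx ⊢
      exact ⟨h1 x hx.1, (hF x hx.1).trans hx.2⟩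
    · intro x hx
      exact h2 x (mem_filter.1 hx).1
    · intro x hx
      exact h3 x (mem_filter.1 hx).1
  choose! m hm using h6
  refine ⟨∑ v ∈ S.image F, (m v : ℂ) * v, ?_, ?_⟩
  · refine IsIntegral.sum _ fun v hv => ?_
    obtain ⟨x, hx, rfl⟩ := mem_image.1 hv
    exact (isIntegral_natCast (m (F x))).mul (hI x hx)
  · rw [← Finset.sum_fiberwise_of_maps_to (t := S.image F) (g := F)
      (fun x hx => mem_image_of_mem F hx), mul_sum]
    refine sum_congr rfl fun v hv => ?_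
    rw [sum_congr rfl fun x hx => (mem_filter.1 hx).2, sum_const, hm v hv, nsmul_eq_mul]
    push_cast
    ring

end Pool.Agent.Lib.MP_1aae89_al.W3
end

section
/-!
# RE1: one step of the reduction
-/
set_option autoImplicit false

namespace Pool.Agent.Lib.MP_1aae89_al.W3

open Pool.Agent.Lib.MP_1aae89_al Pool.Agent.Lib.MP_1aae89_al.BF Finset
open Pool.Agent.Lib.MP1aae89 (Pex exists_pex)
open scoped Kronecker

namespace RE1M

/-- the exponents do not depend on the choice of `L`, `s0` -/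
theorem exps (hPRM : SpecPRM) {p : ℕ} (hp : p.Prime) {L s0 L' s0' : ℕ} (hL : L ≠ 0)
    (hs : Pex p L s0) (hL' : L' ≠ 0) (hs' : Pex p L' s0') {X : Type} [Group X] (y : X)
    (h1 : y ^ L = 1) (h2 : y ^ L' = 1) (k : ℕ) : y ^ (1 + s0 * k) = y ^ (1 + s0' * k) := by
  obtain ⟨-, -, -, -, -, h6⟩ := hPRM p hp L s0 hL hs
  rw [pow_add, pow_add, pow_mul, pow_mul, h6 L' s0' hL' hs' y h1 h2]

/-- `IC` for the quotient -/
theorem good_quot {p b : ℕ} (hp : p.Prime) {X Y : Type} [Group X] [Finite X] [Group Y] [Finite Y]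
    (H : Subgroup X) [H.Normal] (hg : Good p b (X ⧸ H)) (f : Y →* X)
    (hsurj : Function.Surjective f) (hcen : ∀ y, f y = 1 → ∀ z, y * z = z * y)
    (hker : (Nat.card f.ker).Coprime p) (H0 : Subgroup Y) [H0.Normal] (hmap : H0.map f = H)
    (b' : ℕ) (hb' : b ≤ b') : IC p b' (Y ⧸ H0) := by
  have hle : H0 ≤ H.comap f := Subgroup.map_le_iff_le_comap.1 hmap.le
  set φ : Y ⧸ H0 →* X ⧸ H := QuotientGroup.map H0 H f hle with hφ
  have hφs : Function.Surjective φ := by
    intro x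
    induction x using QuotientGroup.induction_on with
    | H x =>
      obtain ⟨y, rfl⟩ := hsurj x
      exact ⟨(y : Y ⧸ H0), rfl⟩
  have hk : ∀ a : Y ⧸ H0, φ a = 1 → ∃ c : Y, f c = 1 ∧ (c : Y ⧸ H0) = a := by
    intro a
    induction a using QuotientGroup.induction_on with
    | H y =>
      intro h
      have h1 : ((f y : X) : X ⧸ H) = 1 := h
      rw [QuotientGroup.eq_one_iff, ← hmap] at h1
      obtain ⟨h0, h2, h3⟩ := h1
      refine ⟨y * h0⁻¹, ?_, ?_⟩
      · rw [map_mul, map_inv, h3, mul_inv_cancel]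
      · rw [QuotientGroup.eq]
        have : (y * h0⁻¹)⁻¹ * y = h0 := by group
        rw [this]
        exact h2
  refine hg (Y ⧸ H0) φ ?_ ?_ ?_ b' hb'
  · intro a ha z
    obtain ⟨c, hc, rfl⟩ := hk a ha
    induction z using QuotientGroup.induction_on with
    | H z =>
      rw [← QuotientGroup.mk_mul, ← QuotientGroup.mk_mul, hcen c hc z]
  · refine Nat.Coprime.coprime_dvd_left ?_ hker
    have h1 : φ.ker = f.ker.map (QuotientGroup.mk' H0) := by
      ext a
      constructor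
      · intro h
        obtain ⟨c, hc, hc'⟩ := hk a h
        exact ⟨c, hc, hc'⟩
      · rintro ⟨c, hc, rfl⟩
        have h2 : f c = 1 := hc
        change ((f c : X) : X ⧸ H) = 1
        rw [h2]
        rfl
    rw [h1]
    exact Subgroup.card_dvd_of_surjective ((QuotientGroup.mk' H0).subgroupMap f.ker)
      ((QuotientGroup.mk' H0).subgroupMap_surjective f.ker)
  · rw [MonoidHom.range_eq_top.2 hφs, Subgroup.index_top]
    exact hp.one_lt.ne' ∘ Nat.dvd_one.1

/-- `IC` for `H0 P'` -/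
theorem low_sup (hISO : SpecISO) (hINJ : SpecINJ) {p : ℕ} (hp : p.Prime) {X Y : Type} [Group X]
    [Finite X] [Group Y] [Finite Y] (H : Subgroup X) (f : Y →* X)
    (hcen : ∀ y, f y = 1 → ∀ z, y * z = z * y) (hker : (Nat.card f.ker).Coprime p)
    (H0 : Subgroup Y) [H0.Normal] (hmap : H0.map f = H) (hinj : ∀ h ∈ H0, f h = 1 → h = 1)
    (P : Subgroup X) (P' : Subgroup Y) (hP' : P'.map f = P) (hpg : IsPGroup p P') (b' : ℕ)
    (h : IC p b' ↥(H ⊔ P)) : IC p b' ↥(H0 ⊔ P') := by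
  have h1 : Function.Injective (f.comp (H0 ⊔ P').subtype) := by
    rw [injective_iff_map_eq_one]
    intro y hy
    exact Subtype.ext (hINJ p hp f hcen hker H0 P' hinj hpg (y : Y) y.2 hy)
  have h2 : (f.comp (H0 ⊔ P').subtype).range = H ⊔ P := by
    rw [MonoidHom.range_comp, Subgroup.range_subtype, Subgroup.map_sup, hmap, hP']
  exact (hISO p b' ((MonoidHom.ofInjective h1).trans (MulEquiv.subgroupCongr h2)).symm).1 h

end RE1M

open RE1M in
theorem specRE1 (hPRM : SpecPRM) (hISO : SpecISO) (hQDL : SpecQDL) (hINR : SpecINR)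
    (hEXT : SpecEXT) (hLVL : SpecLVL) (hLIF : SpecLIF) (hINJ : SpecINJ) (hGLA : SpecGLA)
    (hCA1 : SpecCA1) (hCA2 : SpecCA2) : SpecRE1 := by
  intro p b hp hb X _ _ H hRH hT b' hb' L s0 hL hXL hs P hP n r hr hpn hdet hfx K hK hy
  classical
  let _ : Fintype X := Fintype.ofFinite X
  have hHN := hRH.norm
  have hn : n ≠ 0 := by rintro rfl; exact hpn (dvd_zero _)
  rcases dicho r H hn with ⟨e, m, r', Q, Q', hn', hr', h1, h2, h3⟩ |
    ⟨T, E, hHT, hE, hE0, hE1, hTc, hTg⟩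
  swap
  · have hTtop : T ≠ ⊤ := by
      rintro rfl
      rcases idem_trivial hr hE (fun g => (hTc g trivial).symm) with h5 | h5
      · exact hE0 h5
      · exact hE1 h5
    exact hINR p hp L s0 hL hs b' (by omega) hXL P hP n r hr hpn T E hE hE0 hTc hTg
      (fun hpT b'' hb'' => hT T hTtop hHT hpT b'' (hb'.trans hb'')) hfx K hK hy
  have hpm : ¬ p ∣ m := fun h => hpn (hn' ▸ h.mul_left _)
  have hpe : ¬ p ∣ e := fun h => hpn (hn' ▸ h.mul_right _)
  have he : e ≠ 0 := by rintro rfl; exact hpe (dvd_zero _)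
  obtain ⟨Y, gY, fY, f, H0, Z, A, hTD⟩ := hEXT p hp L hL hXL H n e m hn' hpn r hr r' hr' Q Q' h1 h2
    h3 hdet
  have hH0N := hTD.norm
  set M := ordCompl[p] L with hM
  set L' := L * Nat.card Y with hL'd
  have hL' : L' ≠ 0 := mul_ne_zero hL Nat.card_pos.ne'
  have hYL' : Nat.card Y ∣ L' := dvd_mul_left _ _
  have hXL' : Nat.card X ∣ L' := hXL.trans (dvd_mul_right _ _)
  obtain ⟨s0', hs'⟩ := exists_pex hp hL'
  have hML' : M ∣ ordCompl[p] L' := Nat.ordCompl_dvd_ordCompl_of_dvd (dvd_mul_right _ _) p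
  have hpowX : ∀ (y : X) (N : ℕ), Nat.card X ∣ N → y ^ N = 1 := by
    rintro y N ⟨k, rfl⟩
    rw [pow_mul, pow_card_eq_one', one_pow]
  have hexp : ∀ (y : X) (k : ℕ), y ^ (1 + s0 * k) = y ^ (1 + s0' * k) := fun y k =>
    exps hPRM hp hL hs hL' hs' y (hpowX y L hXL) (hpowX y L' hXL') k
  have hfx' : FX p s0' b' (fun y => (r y).trace) := by
    intro t y
    have h4 := hfx t y
    rw [mul_assoc, hexp y, ← mul_assoc] at h4
    exact h4
  have hb1 : 1 ≤ b' := by omega
  obtain ⟨hAs, hfA, hfZ⟩ := hLVL p hp L' s0' hL' hs' b' hb1 hYL' H n e m M he hpm hML' r r' hr' f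
    H0 Z A hTD hfx'
  obtain ⟨P', hP', hmapP, -⟩ := hLIF p hp f hTD.surj hTD.ker P hP
  have hAdet : ∀ y, (A y).det ^ ordCompl[p] L' = 1 := by
    intro y
    obtain ⟨k, hk⟩ := hML'
    rw [hk, pow_mul, hTD.det, one_pow]
  -- transfer to `Y`
  let π : P' →* P := (f.comp P'.subtype).codRestrict P fun x => by
    rw [← hmapP]
    exact ⟨x, x.2, rfl⟩
  have hπ : Function.Surjective π := by
    rintro ⟨x, hx⟩
    have hx' := hx
    rw [← hmapP] at hx'
    obtain ⟨y, hy1, hy2⟩ := hx'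
    exact ⟨⟨y, hy1⟩, Subtype.ext hy2⟩
  have hchar : IsCharacter (fun x : P => (r x).trace) := isCharacter_trace (r.comp P.subtype)
  rw [← hQDL π hπ (p ^ (b' - 1)) (fun x : P => (r x).trace) hchar (resL P K)]
  have e1 : (fun x : P' => (fun x : P => (r x).trace) (π x)) =
      fun x : P' => (Z x).trace * (A x).trace := by
    funext x
    exact hTD.tr x
  have e2 : pb π (resL P K) = resL P' (pb f K) := rfl
  rw [e1, e2]
  set K' : Lin Y := pb f K with hK'd
  have hK' : K' ^ p = 1 := by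
    apply MonoidHom.ext
    intro y
    have h4 := DFunLike.congr_fun (F := X →* ℂˣ) hK (f y)
    exact h4
  have hy'' : ∃ y, (Z (y ^ (1 + s0' * p ^ (b' - 1)))).trace *
      (A (y ^ (1 + s0' * p ^ (b' - 1)))).trace ≠
      ((K' y : ℂˣ) : ℂ) * ((Z y).trace * (A y).trace) := by
    obtain ⟨y, hy⟩ := hy
    obtain ⟨y, rfl⟩ := hTD.surj y
    refine ⟨y, fun h4 => hy ?_⟩
    rw [hexp, ← map_pow f, hTD.tr, h4, hTD.tr]
    rfl
  by_cases hI : ∀ h ∈ H0, (A (h ^ (1 + s0' * p ^ (b' - 1)))).trace = (A h).trace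
  · have h4 := hGLA p hp L' s0' hL' hs' hYL' H0 m A hpm hAs hAdet (b' - 1) 1 (by omega)
      (fun h hh => by rw [mul_one]; exact hI h hh)
    refine hCA1 p hp L' s0' hL' hs' b' (by omega) hYL' H0 P' hP' e m hpe Z A hTD.zs hTD.z1 hfZ hfA
      (fun y => ?_) K' hK' hy'' (good_quot hp H hRH.good f hTD.surj hTD.cen hTD.ker H0 hTD.map b' hb')
    have h5 := h4 y
    rwa [mul_one] at h5
  · push Not at hI
    obtain ⟨h, hh, hne⟩ := hI
    refine hCA2 p hp L' s0' hL' hs' b' (by omega) hYL' H0 P' hP' e m hpm Z A hTD.z1 hAs hAdet hfA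
      ⟨h, hh, hne⟩ K' hK' ?_
    rcases hRH.low with hlow | hlow
    · exfalso
      have hHL' : Nat.card H ∣ L' := (Subgroup.card_subgroup_dvd_card H).trans hXL'
      have h4 := hlow L' s0' hL' hHL' hs' m r' hr' hpm
      apply hne
      have hfh : ∀ k ∈ H0, f k ∈ H := fun k hk => by
        rw [← hTD.map]
        exact ⟨k, hk, rfl⟩
      rw [hTD.res _ (H0.pow_mem hh _) (hfh _ (H0.pow_mem hh _)), hTD.res h hh (hfh h hh)]
      have h5 := h4 (p ^ (b' - b)) ⟨f h, hfh h hh⟩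
      have h6 : s0' * p ^ (b - 1) * p ^ (b' - b) = s0' * p ^ (b' - 1) := by
        rw [mul_assoc, ← pow_add]
        congr 2
        omega
      rw [h6] at h5
      have h7 : (⟨f (h ^ (1 + s0' * p ^ (b' - 1))), hfh _ (H0.pow_mem hh _)⟩ : H) =
          (⟨f h, hfh h hh⟩ : H) ^ (1 + s0' * p ^ (b' - 1)) := by
        apply Subtype.ext
        rw [Subgroup.coe_pow]
        exact map_pow f h _
      rw [h7]
      exact h5
    · exact low_sup hISO hINJ hp H f hTD.cen hTD.ker H0 hTD.map hTD.inj P P' hmapP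
        (IsPGroup.of_card hP') b' (hlow P hP b' hb')

end Pool.Agent.Lib.MP_1aae89_al.W3
end

section
/-!
# Module SEC: facts on the sections
-/
set_option autoImplicit false

namespace Pool.Agent.Lib.MP_1aae89_al.W3

open Pool.Agent.Lib.MP1aae89 (Pex)

namespace SEC

theorem conj {X : Type} [Group X] {p s0 b : ℕ} {P : Subgroup X} {u y : X} (g : X)
    (h : Sec p s0 b P u y) : Sec p s0 b P u (g * y * g⁻¹) := by
  obtain ⟨k, hk, w, hw, e⟩ := h
  have h1 : k * g⁻¹ * (g * y * g⁻¹) ^ s0 * (k * g⁻¹)⁻¹ = k * y ^ s0 * k⁻¹ := by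
    rw [conj_pow]
    group
  exact ⟨k * g⁻¹, by rw [h1]; exact hk, w, hw, by rw [h1]; exact e⟩

theorem powk {X : Type} [Group X] {p s0 b : ℕ} {P : Subgroup X}
    (hc : ∀ x ∈ P, ∀ y ∈ P, x * y = y * x) {u y : X} (hu : u ∈ P) (k : ℕ)
    (h : Sec p s0 b P u y) : Sec p s0 b P (u ^ k) (y ^ k) := by
  obtain ⟨g, hg, w, hw, e⟩ := h
  have h1 : g * (y ^ k) ^ s0 * g⁻¹ = (g * y ^ s0 * g⁻¹) ^ k := by
    rw [conj_pow, ← pow_mul, ← pow_mul, mul_comm k s0]
  refine ⟨g, by rw [h1]; exact P.pow_mem hg k, w ^ k, P.pow_mem hw k, ?_⟩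
  rw [h1, ← pow_mul, mul_comm k, pow_mul, e,
    (show Commute (u ^ p ^ (b - 1)) (w ^ p ^ b) from
      hc _ (P.pow_mem hu _) _ (P.pow_mem hw _)).mul_pow, ← pow_mul, ← pow_mul, ← pow_mul,
    ← pow_mul, mul_comm k, mul_comm k]

end SEC

theorem specSEC (hPRM : SpecPRM) (hFUS : SpecFUS) (hREL : SpecREL) : SpecSEC := by
  intro p hp L s0 b hb hL hs X _ _ P hXL hP hc
  obtain ⟨-, m2, m3, -, -, -⟩ := hPRM p hp L s0 hL hs
  have hpL : ∀ y : X, y ^ L = 1 := by
    intro y
    obtain ⟨c, hc⟩ := hXL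
    rw [hc, pow_mul, pow_card_eq_one', one_pow]
  have hP1 : ∀ x ∈ P, x ^ p ^ (Nat.card X).factorization p = 1 := by
    intro x hx
    rw [← hP]
    have := pow_card_eq_one' (x := (⟨x, hx⟩ : P))
    exact congrArg Subtype.val this
  have hPs : ∀ x ∈ P, x ^ s0 = x := fun x hx => m2 x _ (hpL x) (hP1 x hx)
  refine ⟨?_, ?_, ?_, ?_, ?_, ?_⟩
  · intro u g y
    refine ⟨fun h => ?_, SEC.conj g⟩
    have h1 := SEC.conj g⁻¹ h
    have h2 : g⁻¹ * (g * y * g⁻¹) * g⁻¹⁻¹ = y := by group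
    rwa [h2] at h1
  · rintro u hu v hv y ⟨g, hg, w, hw, e⟩ ⟨g', hg', w', hw', e'⟩
    obtain ⟨-, sym, tra, -⟩ := hREL p b P hc
    have h1 : g' * g⁻¹ * (g * y ^ s0 * g⁻¹) * (g' * g⁻¹)⁻¹ = g' * y ^ s0 * g'⁻¹ := by group
    obtain ⟨n, hn, hn2⟩ := hFUS p hp P hP hc (g * y ^ s0 * g⁻¹) (g' * g⁻¹) hg (by
      rw [h1]; exact hg')
    rw [h1] at hn2
    have r1 : Rel p b P (g * y ^ s0 * g⁻¹) u :=
      ⟨1, fun x hx => by rw [one_mul, inv_one, mul_one]; exact hx, w, hw, by
        rw [one_mul, inv_one, mul_one]; exact e⟩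
    have r2 : Rel p b P (g' * y ^ s0 * g'⁻¹) v :=
      ⟨1, fun x hx => by rw [one_mul, inv_one, mul_one]; exact hx, w', hw', by
        rw [one_mul, inv_one, mul_one]; exact e'⟩
    have r3 : Rel p b P (g * y ^ s0 * g⁻¹) (g' * y ^ s0 * g'⁻¹) :=
      ⟨n, hn, 1, P.one_mem, by rw [hn2, one_pow, mul_one]⟩
    exact tra _ hu _ hg _ hv (sym _ hg _ hu r1) (tra _ hg _ hg' _ hv r3 r2)
  · intro u hu x hx
    have h1 : u * x ^ p ^ (b - 1) ∈ P := P.mul_mem hu (P.pow_mem hx _)
    have h2 : (1 : X) * (u * x ^ p ^ (b - 1)) ^ s0 * 1⁻¹ = u * x ^ p ^ (b - 1) := by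
      rw [hPs _ h1, one_mul, inv_one, mul_one]
    refine ⟨1, by rw [h2]; exact h1, x ^ p ^ (b - 2), P.pow_mem hx _, ?_⟩
    rw [h2, (show Commute u (x ^ p ^ (b - 1)) from hc _ hu _ (P.pow_mem hx _)).mul_pow,
      ← pow_mul, ← pow_mul, ← pow_add, ← pow_add]
    congr 3
    omega
  · intro u hu k hk y
    refine ⟨SEC.powk hc hu k, fun h => ?_⟩
    have h1 := SEC.powk hc (P.pow_mem hu k) (k ^ (Nat.totient L - 1)) h
    have h2 : ∀ z : X, (z ^ k) ^ (k ^ (Nat.totient L - 1)) = z := by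
      intro z
      rw [← pow_mul, ← pow_succ', Nat.sub_add_cancel (Nat.totient_pos.2 (Nat.pos_of_ne_zero hL))]
      have h3 : k ^ Nat.totient L ≡ 1 [MOD orderOf z] :=
        (Nat.ModEq.pow_totient hk).of_dvd (orderOf_dvd_of_pow_eq_one (hpL z))
      have h4 := (pow_eq_pow_iff_modEq (x := z)).2 h3
      rwa [pow_one] at h4
    rwa [h2, h2] at h1
  · intro u hu t ht w hw htw
    have h1 : (t * w) ^ s0 = w := by
      rw [(show Commute t w from htw).mul_pow, m3 t (hpL t) ht, hPs w hw, one_mul]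
    constructor
    · rintro ⟨g, hg, v, hv, e⟩
      rw [h1] at hg e
      obtain ⟨n, hn, hn2⟩ := hFUS p hp P hP hc w g hw hg
      exact ⟨n, hn, v, hv, by rw [hn2]; exact e⟩
    · rintro ⟨g, hg, v, hv, e⟩
      exact ⟨g, by rw [h1]; exact hg w hw, v, hv, by rw [h1]; exact e⟩
  · rintro l hl hlp u t w htw ⟨k, hk⟩
    have h1 : (orderOf w).Coprime p :=
      Nat.Coprime.coprime_dvd_left (orderOf_dvd_of_pow_eq_one hk)
        (Nat.Coprime.pow_left k ((Nat.coprime_primes hl hp).2 hlp))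
    have h2 : (t * w) ^ s0 = t ^ s0 := by
      rw [(show Commute t w from htw).mul_pow, m3 w (hpL w) h1, mul_one]
    unfold Sec
    rw [h2]

end Pool.Agent.Lib.MP_1aae89_al.W3
end

section
/-!
# STE: one step of the chain
-/
set_option autoImplicit false

namespace Pool.Agent.Lib.MP_1aae89_al.W3

open Pool.Agent.Lib.MP_1aae89_al Pool.Agent.Lib.MP_1aae89_al.BF Finset
open Pool.Agent.Lib.MP1aae89 (Pex)

theorem ste_stq (p b : ℕ) {M : Type} [Group M] (P K K' : Subgroup M)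
    [hN : (K.subgroupOf (K' ⊔ P)).Normal] (h : Stp p b P K K') :
    Stq p b (P.subgroupOf (K' ⊔ P)) (K.subgroupOf (K' ⊔ P)) (K'.subgroupOf (K' ⊔ P)) := by
  have hPX : P ≤ K' ⊔ P := le_sup_right
  have hKX : K' ≤ K' ⊔ P := le_sup_left
  rcases h with h | h | ⟨h1, h2⟩
  · left
    rintro ⟨x, hx⟩ hxF
    obtain ⟨j, hj⟩ := h x hxF
    exact ⟨j, hj⟩
  · right; left
    rintro ⟨x, hx⟩ hxF hxp
    exact h x hxF hxp
  · right; right
    refine ⟨fun x hx y hy => h1 x hx y hy, ?_⟩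
    rcases h2 with ⟨x₀, hx₀, h2⟩ | h2 | h2
    · left
      refine ⟨⟨x₀, hPX hx₀.1⟩, ⟨hx₀.1, hx₀.2⟩, fun y hy => ?_⟩
      obtain ⟨j, hj⟩ := h2 y ⟨hy.1, hy.2⟩
      exact ⟨j, hj⟩
    · right; left
      have e1 : Nat.card {g : ↥(K' ⊔ P) // g ∈ K'.subgroupOf (K' ⊔ P) ∧
          ∀ x ∈ P.subgroupOf (K' ⊔ P) ⊓ K'.subgroupOf (K' ⊔ P),
            ∃ y ∈ P.subgroupOf (K' ⊔ P) ⊓ K'.subgroupOf (K' ⊔ P),
            g * x * g⁻¹ * y⁻¹ ∈ K.subgroupOf (K' ⊔ P)} =
          Nat.card {g : M // g ∈ K' ∧ ∀ x ∈ P ⊓ K', ∃ y ∈ P ⊓ K', g * x * g⁻¹ * y⁻¹ ∈ K} := by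
        refine Nat.card_congr
          { toFun := fun g => ⟨(g.1 : M), g.2.1, fun x hx => ?_⟩
            invFun := fun g => ⟨⟨g.1, hKX g.2.1⟩, g.2.1, fun x hx => ?_⟩
            left_inv := fun g => rfl
            right_inv := fun g => rfl }
        · obtain ⟨y, hy, h3⟩ := g.2.2 ⟨x, hPX hx.1⟩ ⟨hx.1, hx.2⟩
          exact ⟨y, ⟨hy.1, hy.2⟩, h3⟩
        · obtain ⟨y, hy, h3⟩ := g.2.2 x ⟨hx.1, hx.2⟩
          exact ⟨⟨y, hPX hy.1⟩, ⟨hy.1, hy.2⟩, h3⟩
      have e2 : Nat.card {g : ↥(K' ⊔ P) // g ∈ K'.subgroupOf (K' ⊔ P) ∧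
          ∀ x ∈ P.subgroupOf (K' ⊔ P) ⊓ K'.subgroupOf (K' ⊔ P),
            g * x * g⁻¹ * x⁻¹ ∈ K.subgroupOf (K' ⊔ P)} =
          Nat.card {g : M // g ∈ K' ∧ ∀ x ∈ P ⊓ K', g * x * g⁻¹ * x⁻¹ ∈ K} := by
        refine Nat.card_congr
          { toFun := fun g => ⟨(g.1 : M), g.2.1, fun x hx => ?_⟩
            invFun := fun g => ⟨⟨g.1, hKX g.2.1⟩, g.2.1, fun x hx => ?_⟩
            left_inv := fun g => rfl
            right_inv := fun g => rfl }
        · exact g.2.2 ⟨x, hPX hx.1⟩ ⟨hx.1, hx.2⟩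
        · exact g.2.2 x ⟨hx.1, hx.2⟩
      rw [e1, e2]
      exact h2
    · right; right
      exact h2

theorem specSTE (hREC : SpecREC) (hGQU : SpecGQU) (hISO : SpecISO) : SpecSTE := by
  intro p b hp hb M _ _ P hP K K' hKK' h1 h2 h3 hst hIC
  have hPX : P ≤ K' ⊔ P := le_sup_right
  have hKX : K' ≤ K' ⊔ P := le_sup_left
  have hnorm : K' ⊔ P ≤ Subgroup.normalizer (K : Set M) := by
    refine sup_le ?_ ?_
    · intro g hg
      rw [Subgroup.mem_normalizer_iff]
      intro x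
      refine ⟨fun hx => h1 g hg x hx, fun hx => ?_⟩
      have h4 := h1 g⁻¹ (K'.inv_mem hg) _ hx
      have h5 : g⁻¹ * (g * x * g⁻¹) * g⁻¹⁻¹ = x := by group
      rwa [h5] at h4
    · intro g hg
      rw [Subgroup.mem_normalizer_iff]
      intro x
      refine ⟨fun hx => h2 g hg x hx, fun hx => ?_⟩
      have h4 := h2 g⁻¹ (P.inv_mem hg) _ hx
      have h5 : g⁻¹ * (g * x * g⁻¹) * g⁻¹⁻¹ = x := by group
      rwa [h5] at h4
  have hnorm' : K' ⊔ P ≤ Subgroup.normalizer (K' : Set M) := by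
    refine sup_le ?_ ?_
    · exact Subgroup.le_normalizer
    · intro g hg
      rw [Subgroup.mem_normalizer_iff]
      intro x
      refine ⟨fun hx => h3 g hg x hx, fun hx => ?_⟩
      have h4 := h3 g⁻¹ (P.inv_mem hg) _ hx
      have h5 : g⁻¹ * (g * x * g⁻¹) * g⁻¹⁻¹ = x := by group
      rwa [h5] at h4
  have hHn : (K.subgroupOf (K' ⊔ P)).Normal := Subgroup.normal_subgroupOf_of_le_normalizer hnorm
  have hFn : (K'.subgroupOf (K' ⊔ P)).Normal := Subgroup.normal_subgroupOf_of_le_normalizer hnorm'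
  -- orders
  have hcP : Nat.card (P.subgroupOf (K' ⊔ P)) = Nat.card P :=
    Nat.card_congr (Subgroup.subgroupOfEquivOfLe hPX).toEquiv
  have hfac : (Nat.card ↥(K' ⊔ P)).factorization p = (Nat.card M).factorization p := by
    have h0 : Nat.card ↥(K' ⊔ P) ≠ 0 := Nat.card_pos.ne'
    have h0' : Nat.card M ≠ 0 := Nat.card_pos.ne'
    refine le_antisymm ?_ ?_
    · exact (Nat.factorization_le_iff_dvd h0 h0').2 (Subgroup.card_subgroup_dvd_card _) p
    · have h4 : Nat.card P ∣ Nat.card ↥(K' ⊔ P) := Subgroup.card_dvd_of_le hPX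
      rw [hP] at h4
      exact (Nat.Prime.pow_dvd_iff_le_factorization hp h0).1 h4
  have hPsyl : Nat.card (P.subgroupOf (K' ⊔ P)) = p ^ (Nat.card ↥(K' ⊔ P)).factorization p := by
    rw [hcP, hP, hfac]
  have hFP : K'.subgroupOf (K' ⊔ P) ⊔ P.subgroupOf (K' ⊔ P) = ⊤ := by
    rw [← Subgroup.subgroupOf_sup hKX hPX, Subgroup.subgroupOf_self]
  have hHF : K.subgroupOf (K' ⊔ P) ≤ K'.subgroupOf (K' ⊔ P) := fun x hx => hKK' hx
  have hKPX : K ⊔ P ≤ K' ⊔ P := sup_le_sup_right hKK' P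
  refine hREC p b hp hb (K.subgroupOf (K' ⊔ P)) ⟨hHn, Or.inr ?_, fun {_} => ?_⟩
  · intro P₁ hP₁ b' hb'
    obtain ⟨g, hg⟩ := gcr_conj hp hPsyl hP₁
    have e1 : (K.subgroupOf (K' ⊔ P) ⊔ P.subgroupOf (K' ⊔ P)).map (MulAut.conj g).toMonoidHom =
        K.subgroupOf (K' ⊔ P) ⊔ P₁ := by
      rw [Subgroup.map_sup]
      congr 1
      · ext x
        rw [Subgroup.mem_map]
        constructor
        · rintro ⟨y, hy, rfl⟩
          exact hHn.conj_mem y hy g
        · intro hx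
          refine ⟨g⁻¹ * x * g, ?_, ?_⟩
          · have := hHn.conj_mem x hx g⁻¹
            rwa [inv_inv] at this
          · change g * (g⁻¹ * x * g) * g⁻¹ = x
            group
      · ext x
        rw [Subgroup.mem_map, hg]
        constructor
        · rintro ⟨y, hy, rfl⟩
          have : g⁻¹ * ((MulAut.conj g).toMonoidHom y) * g = y := by
            change g⁻¹ * (g * y * g⁻¹) * g = y
            group
          rwa [this]
        · intro hx
          refine ⟨_, hx, ?_⟩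
          change g * (g⁻¹ * x * g) * g⁻¹ = x
          group
    have e2 : ↥(K ⊔ P) ≃* ↥(K.subgroupOf (K' ⊔ P) ⊔ P₁) :=
      ((Subgroup.subgroupOfEquivOfLe hKPX).symm.trans
        (MulEquiv.subgroupCongr (Subgroup.subgroupOf_sup (hKK'.trans hKX) hPX))).trans
        (((MulAut.conj g).subgroupMap _).trans (MulEquiv.subgroupCongr e1))
    exact (hISO p b' e2).1 (hIC b' hb')
  · exact hGQU p b hp hb (P.subgroupOf (K' ⊔ P)) (K.subgroupOf (K' ⊔ P)) (K'.subgroupOf (K' ⊔ P))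
      hHF hFP hPsyl (ste_stq p b P K K' hst)

end Pool.Agent.Lib.MP_1aae89_al.W3
end

section
/-!
# Module UP2: the upper bound for pairwise inequivalent elements
-/
set_option autoImplicit false

namespace Pool.Agent.Lib.MP_1aae89_al.W3

open Pool.Agent.Lib.MP_1aae89_al Pool.Agent.Lib.MP_1aae89_al.BF Finset
open Pool.Agent.Lib.MP_1aae89_al.W (GC LD nR)
open Pool.Agent.Lib.MP1aae89 (Pex)

theorem specUP2 (hPO2 : SpecPO2) (hSEC : SpecSEC) : SpecUP2 := by
  classical
  intro p L s0 b X _ _ P χ K hy A hA hinj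
  have hS := (hSEC p hy.pp L s0 b hy.hb hy.hL hy.pex P hy.card hy.syl hy.comm).2.1
  have h1 : ∀ u ∈ A, (BB p s0 b P χ K u).re =
      (nR P (p ^ (b - 1)) : ℝ) / (nR P (p ^ b) : ℝ) * ((Fintype.card X : ℝ)⁻¹ *
      ∑ y : X, (if Sec p s0 b P u y then ‖avK p s0 b χ K y‖ ^ 2 else 0)) := by
    intro u _
    rw [hPO2 p L s0 b P χ K hy u, Complex.ofReal_re]
  rw [Finset.sum_congr rfl h1, ← Finset.mul_sum, ← Finset.mul_sum, Finset.sum_comm]
  refine mul_le_mul_of_nonneg_left (mul_le_mul_of_nonneg_left ?_ (by positivity)) (by positivity)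
  refine Finset.sum_le_sum fun y _ => ?_
  by_cases hex : ∃ u ∈ A, Sec p s0 b P u y
  · obtain ⟨u, hu, huy⟩ := hex
    rw [Finset.sum_eq_single_of_mem u hu, if_pos huy]
    intro v hv hvu
    rw [if_neg]
    intro hvy
    exact hvu (hinj v hv u hu (hS v (hA v hv) u (hA u hu) y hvy huy))
  · have h0 : ∑ u ∈ A, (if Sec p s0 b P u y then ‖avK p s0 b χ K y‖ ^ 2 else 0) = 0 := by
      refine Finset.sum_eq_zero fun u hu => ?_
      rw [if_neg]
      intro huy
      exact hex ⟨u, hu, huy⟩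
    rw [h0]
    positivity

end Pool.Agent.Lib.MP_1aae89_al.W3
end

section
/-!
# Assembly of the modules of `W3`
-/
set_option autoImplicit false

namespace Pool.Agent.Lib.MP_1aae89_al.W3

theorem topAM1 : SpecAM1 := specAM1

theorem topQDL : SpecQDL := specQDL

theorem topISO : SpecISO := specISO topQDL

theorem topGPG : SpecGPG := specGPG

theorem topPRM : SpecPRM := specPRM

theorem topSCK : SpecSCK := specSCK topQDL

theorem topINE : SpecINE := specINE

theorem topPWL : SpecPWL := specPWL topPRM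

theorem topSUG : SpecSUG := specSUG

theorem topSU0 : SpecSU0 := specSU0 topSUG

theorem topINR : SpecINR := specINR topSCK topINE topPWL topPRM topSU0

theorem topEXT : SpecEXT := specEXT

theorem topGLA : SpecGLA := specGLA

theorem topLVL : SpecLVL := specLVL topGLA

theorem topLIF : SpecLIF := specLIF

theorem topINJ : SpecINJ := specINJ

theorem topTWM : SpecTWM := specTWM

theorem topMUL : SpecMUL := specMUL topTWM

theorem topCMU : SpecCMU := specCMU topMUL topSUG topSU0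

theorem topKTR : SpecKTR := specKTR

theorem topCA1 : SpecCA1 := specCA1 topPRM topPWL topCMU topKTR topQDL

theorem topEXL : SpecEXL := specEXL

theorem topDT2 : SpecDT2 := specDT2 topPRM

theorem topCA2 : SpecCA2 := specCA2 topMUL topKTR topEXL topDT2 topQDL topSUG topPRM

theorem topRE1 : SpecRE1 := specRE1 topPRM topISO topQDL topINR topEXT topLVL topLIF topINJ topGLA topCA1 topCA2

theorem topRHT : SpecRHT := specRHT topISO

theorem topTWS : SpecTWS := specTWS topTWM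

theorem topREC : SpecREC := specREC topRE1 topRHT topTWS

theorem topBAS : SpecBAS := specBAS topISO topGPG topREC

theorem topGBD : SpecGBD := specGBD topREC topGPG

theorem topREL : SpecREL := specREL

theorem topFUS : SpecFUS := specFUS

theorem topSEC : SpecSEC := specSEC topPRM topFUS topREL

theorem topDUA : SpecDUA := specDUA

theorem topEXA : SpecEXA := specEXA topDUA

theorem topPSM : SpecPSM := specPSM

theorem topCOR : SpecCOR := specCOR topDUA topEXA topPSM topAM1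

theorem topCJ2 : SpecCJ2 := specCJ2

theorem topCX1 : SpecCX1 := specCX1 topCOR topDUA topCJ2

theorem topCX2 : SpecCX2 := specCX2 topCX1 topSEC topREL

theorem topLF2 : SpecLF2 := specLF2

theorem topLS2 : SpecLS2 := specLS2 topLF2

theorem topIN2 : SpecIN2 := specIN2 topCX2 topLS2 topSEC topDUA

theorem topCY2 : SpecCY2 := specCY2

theorem topGL2 : SpecGL2 := specGL2 topSEC

theorem topPO2 : SpecPO2 := specPO2 topCJ2

theorem topDLM : SpecDLM := specDLM

theorem topNV2 : SpecNV2 := specNV2 topPRM topDLM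

theorem topUP2 : SpecUP2 := specUP2 topPO2 topSEC

theorem topNR2 : SpecNR2 := specNR2 topPRM topCJ2

theorem topFN2 : SpecFN2 := specFN2 topREL topSEC topIN2 topCY2 topGL2 topPO2 topNV2 topUP2 topNR2

theorem topCRL : SpecCRL := specCRL

theorem topCRJ : SpecCRJ := specCRJ

theorem topGCR : SpecGCR := specGCR topFN2 topCRL topCRJ

theorem topCRM : SpecCRM := specCRM topREL

theorem topCRA : SpecCRA := specCRA topREL

theorem topGQU : SpecGQU := specGQU topGPG topGBD topGCR topCRM topCRA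

theorem topSTE : SpecSTE := specSTE topREC topGQU topISO

theorem topCHN : SpecCHN := specCHN topBAS topSTE topISO

theorem topCRC : SpecCRC := specCRC

theorem topIDC : SpecIDC := specIDC

theorem topLVF : SpecLVF := specLVF

theorem topNLI : SpecNLI := specNLI

theorem topQ1C : SpecQ1C := specQ1C topIDC topLVF topSCK topSU0 topPRM

end Pool.Agent.Lib.MP_1aae89_al.W3
end

section
/-!
# Assembly of the modules of `HC`
-/
set_option autoImplicit false

namespace Pool.Agent.Lib.MP_1aae89_al.HC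

open Pool.Agent.Lib.MP_1aae89_al Pool.Agent.Lib.MP_1aae89_al.BF Pool.Agent.Lib.MP_1aae89_al.W3 Finset

theorem topHCI : SpecHCI :=
  specHCI specRAD (specGCO specRAD) (specPFX specTRI specORB) (specAGI specTRI) specSCR W3.topPRM

theorem topHCS : SpecHCS := specHCS topHCI

theorem topGLN : SpecGLN := specGLN specUTG specBRU specGSY

end Pool.Agent.Lib.MP_1aae89_al.HC
end
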